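import Pool.Agent.H651.AP.MachFin

set_option autoImplicit false

/-! Strings and constraints. -/

namespace Pool.Agent.H651.AP

open Filter
open Pool.Agent.Helper743

/-- all binary strings of length `s` -/
def allb (s : ℕ) : List (List Bool) :=
  Nat.rec [[]] (fun _ l => l.map (fun β => β ++ [false]) ++ l.map (fun β => β ++ [true])) s

lemma allb_succ (s : ℕ) : allb (s + 1) =
    (allb s).map (fun β => β ++ [false]) ++ (allb s).map (fun β => β ++ [true]) := rfl

lemma allb_p : Primrec allb := by
  have h : Primrec (fun q : ℕ × List (List Bool) =>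
      q.2.map (fun β => β ++ [false]) ++ q.2.map (fun β => β ++ [true])) := by
    have h1 : ∀ b : Bool, Primrec (fun q : ℕ × List (List Bool) =>
        q.2.map (fun β => β ++ [b])) := by
      intro b
      have h2 : Primrec₂ (fun (_ : ℕ × List (List Bool)) (β : List Bool) => β ++ [b]) :=
        Primrec.list_concat.comp Primrec.snd (Primrec.const b)
      exact Primrec.list_map Primrec.snd h2
    exact Primrec.list_append.comp (h1 false) (h1 true)
  exact Primrec.nat_rec₁ [[]] h.to₂

lemma mem_allb {s : ℕ} {ξ : List Bool} : ξ ∈ allb s ↔ ξ.length = s := by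
  induction s generalizing ξ with
  | zero => simp [allb]
  | succ s ih =>
    rw [allb_succ, List.mem_append, List.mem_map, List.mem_map]
    constructor
    · rintro (⟨β, hβ, rfl⟩ | ⟨β, hβ, rfl⟩)
      · rw [List.length_append, ih.1 hβ]; rfl
      · rw [List.length_append, ih.1 hβ]; rfl
    · intro h
      have hne : ξ ≠ [] := by rintro rfl; simp at h
      have h1 := List.dropLast_append_getLast hne
      have h2 : ξ.dropLast ∈ allb s := by rw [ih, List.length_dropLast, h]; rfl
      cases h3 : ξ.getLast hne with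
      | false => left; exact ⟨ξ.dropLast, h2, by rw [h3] at h1; exact h1⟩
      | true => right; exact ⟨ξ.dropLast, h2, by rw [h3] at h1; exact h1⟩

/-- the prefix of the oracle given by the prefix `b` of `B` and the string `ξ` -/
def zp (b : List ℕ) (ξ : List Bool) : List ℕ :=
  (List.range ξ.length).map (fun k => Nat.pair ((b[k]?).getD 0) ((ξ[k]?).getD false).toNat)

@[simp] lemma zp_length (b : List ℕ) (ξ : List Bool) : (zp b ξ).length = ξ.length := by
  simp [zp]

lemma zp_p : Primrec₂ zp := by
  have h1 : Primrec₂ (fun (q : List ℕ × List Bool) (k : ℕ) =>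
      Nat.pair ((q.1[k]?).getD 0) ((q.2[k]?).getD false).toNat) :=
    Primrec₂.natPair.comp
      (Primrec.option_getD.comp (Primrec.list_getElem?.comp (Primrec.fst.comp Primrec.fst)
        Primrec.snd) (Primrec.const 0))
      (toNat_p.comp (Primrec.option_getD.comp (Primrec.list_getElem?.comp
        (Primrec.snd.comp Primrec.fst) Primrec.snd) (Primrec.const false)))
  exact Primrec.list_map (Primrec.list_range.comp (Primrec.list_length.comp Primrec.snd)) h1

lemma zp_prefix (b : List ℕ) {ξ η : List Bool} (h : ξ <+: η) : zp b ξ <+: zp b η := by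
  obtain ⟨t, rfl⟩ := h
  have h1 : zp b ξ = (zp b (ξ ++ t)).take ξ.length := by
    unfold zp
    rw [← List.map_take, List.take_range, List.length_append, min_eq_left (Nat.le_add_right _ _)]
    apply List.map_congr_left
    intro k hk
    rw [List.mem_range] at hk
    rw [List.getElem?_append_left hk]
  rw [h1]
  exact List.take_prefix _ _

lemma zp_congr {b b' : List ℕ} {ξ : List Bool} (h : ∀ k, k < ξ.length → b[k]? = b'[k]?) :
    zp b ξ = zp b' ξ := by
  unfold zp
  apply List.map_congr_left
  intro k hk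
  rw [List.mem_range] at hk
  rw [h k hk]

/-- prefixes of sets -/
def px (X : ℕ → Bool) (n : ℕ) : List Bool := (List.range n).map X

@[simp] lemma px_length (X : ℕ → Bool) (n : ℕ) : (px X n).length = n := by simp [px]

lemma px_get {X : ℕ → Bool} {n k : ℕ} (h : k < n) : (px X n)[k]? = some (X k) := by
  unfold px
  rw [List.getElem?_map, List.getElem?_range h]
  rfl

lemma px_get' {X : ℕ → Bool} {n k : ℕ} {v : Bool} (h : (px X n)[k]? = some v) : X k = v := by
  by_cases hk : k < n
  · rw [px_get hk] at h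
    exact Option.some.inj h
  · rw [List.getElem?_eq_none (by rw [px_length]; omega)] at h
    exact absurd h (by simp)

lemma px_take {X : ℕ → Bool} {n k : ℕ} (h : k ≤ n) : (px X n).take k = px X k := by
  unfold px
  rw [← List.map_take, List.take_range, min_eq_left h]

/-- the oracle -/
def YY (B : ℕ → ℕ) (X : ℕ → Bool) (n : ℕ) : ℕ := Nat.pair (B n) (X n).toNat

lemma pre_YY (B : ℕ → ℕ) (X : ℕ → Bool) (n : ℕ) : pre (YY B X) n = zp (pre B n) (px X n) := by
  unfold zp
  rw [px_length]
  unfold pre
  apply List.map_congr_left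
  intro k hk
  rw [List.mem_range] at hk
  rw [px_get hk, List.getElem?_map, List.getElem?_range hk]
  rfl

/-- constraints: `(k, 0)`, `(k, 1)` fix the bit `k`; `(e, 2)` keeps `e` out of `W` -/
def okc (b : List ℕ) (ξ : List Bool) (c : ℕ × ℕ) : Prop :=
  (c.2 = 2 → c.1 ∉ ws (zp b ξ)) ∧ ((c.2 = 0 → ξ[c.1]? ≠ some true) ∧
    (c.2 = 1 → ξ[c.1]? ≠ some false))

def okD (b : List ℕ) (ξ : List Bool) (d : Ds) : Prop := ∀ c ∈ d, okc b ξ c

attribute [local irreducible] ws

lemma okc_p : PrimrecPred (fun q : (List ℕ × List Bool) × (ℕ × ℕ) => okc q.1.1 q.1.2 q.2) := by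
  have c1 : Primrec (fun q : (List ℕ × List Bool) × (ℕ × ℕ) => q.2.1) :=
    Primrec.fst.comp Primrec.snd
  have c2 : Primrec (fun q : (List ℕ × List Bool) × (ℕ × ℕ) => q.2.2) :=
    Primrec.snd.comp Primrec.snd
  have x : Primrec (fun q : (List ℕ × List Bool) × (ℕ × ℕ) => q.1.2) :=
    Primrec.snd.comp Primrec.fst
  have w : Primrec (fun q : (List ℕ × List Bool) × (ℕ × ℕ) => ws (zp q.1.1 q.1.2)) :=
    ws_p.comp (zp_p.comp (Primrec.fst.comp Primrec.fst) x)
  have r : PrimrecRel (fun (e' e : ℕ) => e' = e) := Primrec.eq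
  have h1 := r.exists_mem_list.comp w c1
  have g := Primrec.list_getElem?.comp x c1
  have h2 := Primrec.eq.comp g (Primrec.const (some true))
  have h3 := Primrec.eq.comp g (Primrec.const (some false))
  have e2 := Primrec.eq.comp c2 (Primrec.const 2)
  have e0 := Primrec.eq.comp c2 (Primrec.const 0)
  have e1 := Primrec.eq.comp c2 (Primrec.const 1)
  refine (PrimrecPred.and (PrimrecPred.or e2.not h1.not)
    (PrimrecPred.and (PrimrecPred.or e0.not h2.not) (PrimrecPred.or e1.not h3.not))).of_eq ?_
  intro q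
  unfold okc
  simp only [exists_eq_right, imp_iff_not_or, ne_eq]

attribute [local irreducible] okc

lemma okD_p : PrimrecPred (fun q : (List ℕ × List Bool) × Ds => okD q.1.1 q.1.2 q.2) := by
  have r : PrimrecRel (fun (c : ℕ × ℕ) (q : (List ℕ × List Bool) × Ds) => okc q.1.1 q.1.2 c) :=
    okc_p.comp ((Primrec.fst.comp Primrec.snd).pair Primrec.fst)
  exact r.forall_mem_list.comp Primrec.snd Primrec.id

end Pool.Agent.H651.AP

namespace Pool.Agent.H651.AP

lemma okc_mono {b : List ℕ} {ξ η : List Bool} {c : ℕ × ℕ} (h : ξ <+: η) (ho : okc b η c) :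
    okc b ξ c := by
  have hg : ∀ v, ξ[c.1]? = some v → η[c.1]? = some v := by
    intro v hv
    obtain ⟨t, rfl⟩ := h
    rw [List.getElem?_append_left (List.getElem?_eq_some_iff.1 hv).1]
    exact hv
  exact ⟨fun h1 h2 => ho.1 h1 (ws_mono (zp_prefix b h) h2), fun h1 h2 => ho.2.1 h1 (hg _ h2),
    fun h1 h2 => ho.2.2 h1 (hg _ h2)⟩

lemma okD_mono {b : List ℕ} {ξ η : List Bool} {d : Ds} (h : ξ <+: η) (ho : okD b η d) :
    okD b ξ d := fun c hc => okc_mono h (ho c hc)

lemma okc_congr {b b' : List ℕ} {ξ : List Bool} {c : ℕ × ℕ}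
    (h : ∀ k, k < ξ.length → b[k]? = b'[k]?) : okc b ξ c ↔ okc b' ξ c := by
  unfold okc
  rw [zp_congr h]

lemma okD_congr {b b' : List ℕ} {ξ : List Bool} {d : Ds}
    (h : ∀ k, k < ξ.length → b[k]? = b'[k]?) : okD b ξ d ↔ okD b' ξ d := by
  unfold okD
  exact forall_congr' (fun c => imp_congr_right (fun _ => okc_congr h))

end Pool.Agent.H651.AP
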