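import Pool.Graph.R_seed8.Helper743.GRMain

set_option autoImplicit false

/-! Above a random set relative to which the halting problem is K-trivial, every oracle which
computes a PA set below the halting problem is complete. (Variant of a theorem of the library,
`Pool.Agent.Helper743.GR.key`, with the same proof.) -/

namespace Pool.Agent.H651.AP.GRx

open Nat.Partrec (Code)
open Filter
open Pool.Agent.Helper743
open Pool.Agent.Helper743.GR
open Pool.Agent.Helper743.AC (hl hl_p str kstr str_p fsum_p pow_p geo_le)
open Pool.Agent.Helper743.KT (HitU HitU_p KG KG_le K0 KG_opt KG_Kraft UpS Kraft upper_test')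

theorem key {O : Set (ℕ →. ℕ)} (Z : ℕ → Bool)
    (hML : ∀ U : ℕ → Set (List Bool), REPred (fun p : ℕ × List Bool => p.2 ∈ U p.1) →
      (∀ n, ∀ S : Finset (List Bool), (∀ σ ∈ S, σ ∈ U n) →
        (∀ σ ∈ S, ∀ τ ∈ S, σ <+: τ → σ = τ) →
        ∑ σ ∈ S, (1/2 : ℝ) ^ σ.length ≤ (1/2) ^ n) →
      ∃ n, ∀ m : ℕ, List.ofFn (fun i : Fin m => Z i) ∉ U n)
    (hK : ∃ c, ∀ n, KG (fun n => (Z n).toNat) (Encodable.encode (kstr n)) ≤
      KG (fun n => (Z n).toNat) n + c)
    (hPA : ∀ f : ℕ →. Bool, Partrec f → ∃ g : ℕ → Bool, RecT O (fun n => (g n).toNat) ∧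
      TR (fun n => (g n).toNat) K0 ∧ ∀ n b, b ∈ f n → g n = b)
    (hZO : RecT O (fun n => (Z n).toNat)) :
    RecT O K0 := by
  classical
  set GZ : ℕ → ℕ := fun n => (Z n).toNat with hGZ
  obtain ⟨c, hc⟩ := hK
  obtain ⟨g, hg1, hg0, hg2⟩ := hPA psi psi_partrec
  have hF : RecT O (FF g) := FF_rec hg1
  obtain ⟨d, hd⟩ := low_values GZ hc (FF_rec hg0)
  obtain ⟨j, hj⟩ := hML UU UU_re (fun n S hS _ => UU_meas n S hS)
  -- the values on the halting set
  have hval : ∀ n s, fst n s → FF g n = Encodable.encode (cho n s) := by
    intro n s h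
    unfold FF
    congr 1
    have h1 := (cho_spec n s).1
    apply List.ext_getElem
    · rw [List.length_map, List.length_range, h1]
    · intro i h2 h3
      rw [List.getElem_map, List.getElem_range]
      rw [hg2 _ _ (psi_mem (i := i) h), List.getElem?_eq_getElem h3]
      rfl
  have hprez : ∀ m, (List.ofFn (fun i : Fin m => Z i)).map Bool.toNat = pre GZ m := by
    intro m
    apply List.ext_getElem
    · simp
    · intro i h1 h2
      simp [pre, hGZ]
  have hpret : ∀ m i, i ≤ m → ((List.ofFn (fun i : Fin m => Z i)).take i).map Bool.toNat =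
      pre GZ i := by
    intro m i h
    rw [List.map_take, hprez, AC.pre_take GZ h]
  set N0 := max j d with hN0
  -- late arguments
  have hlate : ∀ n t, N0 ≤ n → HitU (pre GZ t) (Nat.pair n (FF g n)) (3 * n) →
      K0 n = (hl n t).toNat := by
    intro n t hn hh
    cases h1 : hl n t with
    | true => exact K0_hl.1 ⟨t, h1⟩
    | false =>
      rcases K0_le n with h2 | h2
      · rw [h2]; rfl
      · exfalso
        have hex := K0_hl.2 h2
        have h3 : fst n (Nat.find hex) := by
          refine ⟨Nat.find_spec hex, fun s' hs' => ?_⟩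
          rw [← Bool.not_eq_true]
          exact Nat.find_min hex hs'
        have h4 : t ≤ Nat.find hex := by
          by_contra h5
          push Not at h5
          have := hl_mono h5.le (Nat.find_spec hex)
          rw [h1] at this
          exact absurd this (by simp)
        generalize Nat.find hex = s at h3 h4
        apply hj s
        refine ⟨n, le_trans (le_max_left _ _) hn, ?_, ?_⟩
        · rw [List.length_ofFn]; exact h3
        · rw [cer_iff, List.length_ofFn]
          refine ⟨t, h4, ?_⟩
          rw [hpret s t h4, ← hval n s h3]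
          exact hh
  have hfind : ∀ n, N0 ≤ n → ∃ t, HitU (pre GZ t) (Nat.pair n (FF g n)) (3 * n) := by
    intro n hn
    apply KG_le.1
    have h1 := hd n
    have h2 : d ≤ n := le_trans (le_max_right _ _) hn
    omega
  -- the reduction
  have hJ : RecT O (Helper743.join GZ (FF g)) := RecT.pair hZO hF
  let tab : List ℕ := pre K0 N0
  let p : List ℕ → ℕ → ℕ → Option ℕ := fun β x w =>
    bif decide (x < N0) then some ((tab[x]?).getD 0)
    else bif (decide (x < β.length) && decide (w ≤ β.length)) && decide (HitU
      ((β.take w).map (fun z => z.unpair.1)) (Nat.pair x (((β[x]?).getD 0).unpair.2)) (3 * x))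
    then some (hl x w).toNat else none
  have hpj : ∀ n w, w ≤ n → ((pre (Helper743.join GZ (FF g)) n).take w).map (fun z => z.unpair.1) =
      pre GZ w := by
    intro n w h
    rw [AC.pre_take _ h]
    unfold pre
    rw [List.map_map]
    apply List.map_congr_left
    intro i _
    simp [Helper743.join]
  have hpx : ∀ n x, x < n → (((pre (Helper743.join GZ (FF g)) n)[x]?).getD 0).unpair.2 = FF g x := by
    intro n x h
    rw [pre_getElem?, if_pos h]
    simp [Helper743.join]
  refine cert hJ p ?_ K0 ?_ ?_
  · have b : Primrec (fun q : (List ℕ × ℕ) × ℕ => q.1.1) := Primrec.fst.comp Primrec.fst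
    have x : Primrec (fun q : (List ℕ × ℕ) × ℕ => q.1.2) := Primrec.snd.comp Primrec.fst
    have w : Primrec (fun q : (List ℕ × ℕ) × ℕ => q.2) := Primrec.snd
    have l := Primrec.list_length.comp b
    have a1 := (Primrec.nat_lt.comp x (Primrec.const N0)).decide
    have a2 := Primrec.option_some.comp (Primrec.option_getD.comp (Primrec.list_getElem?.comp
      (Primrec.const tab) x) (Primrec.const 0))
    have a3 := (Primrec.nat_lt.comp x l).decide
    have a4 := (Primrec.nat_le.comp w l).decide
    have c1 := Primrec.list_map (Primrec.list_take.comp w b)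
      ((Primrec.fst.comp (Primrec.unpair.comp Primrec.snd)).to₂)
    have c2 := Primrec.snd.comp (Primrec.unpair.comp (Primrec.option_getD.comp
      (Primrec.list_getElem?.comp b x) (Primrec.const 0)))
    have a5 := (HitU_p.comp ((c1.pair (Primrec₂.natPair.comp x c2)).pair
      (Primrec.nat_mul.comp (Primrec.const 3) x))).decide
    have a6 := Primrec.option_some.comp (toNat_p.comp (hl_p.comp x w))
    have h := Primrec.cond a1 a2 (Primrec.cond (Primrec.and.comp (Primrec.and.comp a3 a4) a5) a6
      (Primrec.const none))
    refine h.to_comp.of_eq ?_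
    intro q
    show _ = (bif _ then _ else _)
    congr
  · intro x
    by_cases hx : x < N0
    · refine ⟨0, 0, ?_⟩
      show Option.isSome (α := ℕ) (bif _ then _ else _) = true
      rw [decide_eq_true hx]
      rfl
    · push Not at hx
      obtain ⟨t, ht⟩ := hfind x hx
      refine ⟨max (x + 1) t, t, ?_⟩
      show Option.isSome (α := ℕ) (bif _ then _ else bif _ then _ else _) = true
      rw [decide_eq_false (by omega), cond_false, hpj _ _ (le_max_right _ _),
        hpx _ _ (lt_of_lt_of_le (Nat.lt_succ_self x) (le_max_left _ _)), decide_eq_true ht,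
        pre_length, decide_eq_true (lt_of_lt_of_le (Nat.lt_succ_self x) (le_max_left _ _)),
        decide_eq_true (le_max_right _ _)]
      rfl
  · intro x n w y h
    have h0 : (bif decide (x < N0) then some ((tab[x]?).getD 0)
      else bif (decide (x < (pre (Helper743.join GZ (FF g)) n).length) &&
        decide (w ≤ (pre (Helper743.join GZ (FF g)) n).length)) && decide (HitU
        (((pre (Helper743.join GZ (FF g)) n).take w).map (fun z => z.unpair.1))
        (Nat.pair x ((((pre (Helper743.join GZ (FF g)) n)[x]?).getD 0).unpair.2)) (3 * x))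
      then some (hl x w).toNat else none) = some y := h
    by_cases hx : x < N0
    · rw [decide_eq_true hx, cond_true, Option.some.injEq] at h0
      rw [← h0]
      show ((pre K0 N0)[x]?).getD 0 = K0 x
      rw [pre_getElem?, if_pos hx]
      rfl
    · rw [decide_eq_false hx, cond_false, pre_length] at h0
      by_cases h1 : x < n ∧ w ≤ n
      · rw [hpj _ _ h1.2, hpx _ _ h1.1, decide_eq_true h1.1, decide_eq_true h1.2] at h0
        by_cases h2 : HitU (pre GZ w) (Nat.pair x (FF g x)) (3 * x)
        · rw [decide_eq_true h2] at h0
          simp only [Bool.and_true, cond_true, Option.some.injEq] at h0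
          rw [← h0]
          exact (hlate x w (by omega) h2).symm
        · rw [decide_eq_false h2] at h0
          simp at h0
      · have h2 : (decide (x < n) && decide (w ≤ n)) = false := by
          rw [← Bool.not_eq_true, Bool.and_eq_true, decide_eq_true_eq, decide_eq_true_eq]
          exact h1
        rw [h2, Bool.false_and, cond_false] at h0
        exact absurd h0 (by simp)

end Pool.Agent.H651.AP.GRx
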