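import Pool.Agent.H651.AP.WProp

set_option autoImplicit false

/-! The decoding machine: a sequence of descriptions of effectively closed classes is decoded from
an oracle `Y` and `W`, or from `Y` and the halting problem. -/

namespace Pool.Agent.H651.AP

open Filter
open Pool.Agent.Helper743
open Pool.Agent.Helper743.AC (hl kstr)
open Pool.Agent.Helper743.KT (KG triv_KG)

/-- descriptions of classes -/
abbrev Ds := List (ℕ × ℕ)

/-- configurations: a description, decoded bits of the halting problem, answers -/
abbrev Cf := Ds × (List Bool × List Bool)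

/-- the description after the answer `a` in step `e` -/
def nxt (e : ℕ) (d : Ds) (a : Bool) : Ds := bif a then d else (e, 2) :: d

def ans (m : Bool) (L : List Bool) (e n : ℕ) : Option Bool := bif m then L[n]? else L[e]?

section mach

variable (N : List ℕ → ℕ → Ds → Option (ℕ × Ds)) (R : List ℕ → Ds → Option (Bool × Ds))

def stp (m : Bool) (L : List Bool) (β : List ℕ) (c : Cf) : Option Cf :=
  (N β c.2.1.length c.1).bind fun x =>
    (ans m L c.2.1.length x.1).bind fun a =>
      (R β (nxt c.2.1.length x.2 a)).map fun y => (y.2, (c.2.1 ++ [y.1], c.2.2 ++ [a]))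

def run (m : Bool) (L : List Bool) (β : List ℕ) (k : ℕ) : Cf :=
  Nat.rec ([], ([], [])) (fun _ c => (stp N R m L β c).getD c) k

variable {N R}

lemma run_succ (m : Bool) (L : List Bool) (β : List ℕ) (k : ℕ) :
    run N R m L β (k + 1) = (stp N R m L β (run N R m L β k)).getD (run N R m L β k) := rfl

lemma stp_some {m : Bool} {L : List Bool} {β : List ℕ} {c c' : Cf}
    (h : stp N R m L β c = some c') : ∃ x a y, N β c.2.1.length c.1 = some x ∧
      ans m L c.2.1.length x.1 = some a ∧ R β (nxt c.2.1.length x.2 a) = some y ∧
      c' = (y.2, (c.2.1 ++ [y.1], c.2.2 ++ [a])) := by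
  unfold stp at h
  rw [Option.bind_eq_some_iff] at h
  obtain ⟨x, hx, h⟩ := h
  rw [Option.bind_eq_some_iff] at h
  obtain ⟨a, ha, h⟩ := h
  rw [Option.map_eq_some_iff] at h
  obtain ⟨y, hy, h⟩ := h
  exact ⟨x, a, y, hx, ha, hy, h.symm⟩

lemma stp_of {m : Bool} {L : List Bool} {β : List ℕ} {c : Cf} {x : ℕ × Ds} {a : Bool}
    {y : Bool × Ds} (hx : N β c.2.1.length c.1 = some x)
    (ha : ans m L c.2.1.length x.1 = some a) (hy : R β (nxt c.2.1.length x.2 a) = some y) :
    stp N R m L β c = some (y.2, (c.2.1 ++ [y.1], c.2.2 ++ [a])) := by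
  unfold stp
  rw [hx, Option.bind_some, ha, Option.bind_some, hy]
  rfl

lemma run_spec (m : Bool) (L : List Bool) (β : List ℕ) (k : ℕ) :
    (run N R m L β k).2.2.length = (run N R m L β k).2.1.length ∧
    ((run N R m L β k).2.1.length = k ∨
      ((run N R m L β k).2.1.length < k ∧ stp N R m L β (run N R m L β k) = none)) := by
  induction k with
  | zero => exact ⟨rfl, Or.inl rfl⟩
  | succ k ih =>
    rw [run_succ]
    cases h : stp N R m L β (run N R m L β k) with
    | none =>
      rw [Option.getD_none]
      refine ⟨ih.1, Or.inr ⟨?_, h⟩⟩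
      rcases ih.2 with h1 | h1
      · omega
      · omega
    | some c' =>
      rw [Option.getD_some]
      obtain ⟨x, a, y, h1, h2, h3, rfl⟩ := stp_some h
      have h4 : (run N R m L β k).2.1.length = k := by
        rcases ih.2 with h5 | h5
        · exact h5
        · rw [h5.2] at h; exact absurd h (by simp)
      refine ⟨?_, Or.inl ?_⟩
      · simp only [List.length_append, List.length_singleton]
        rw [ih.1]
      · simp only [List.length_append, List.length_singleton]
        rw [h4]

lemma run_stuck {m : Bool} {L : List Bool} {β : List ℕ} {k : ℕ}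
    (h : (run N R m L β k).2.1.length < k) (j : ℕ) (hj : k ≤ j) :
    run N R m L β j = run N R m L β k := by
  induction j, hj using Nat.le_induction with
  | base => rfl
  | succ j _ ih =>
    rw [run_succ, ih]
    have h2 := (run_spec (N := N) (R := R) m L β k).2
    rcases h2 with h3 | h3
    · omega
    · rw [h3.2]; rfl

lemma run_full {m : Bool} {L : List Bool} {β : List ℕ} {k j w : ℕ}
    (h : w ≤ (run N R m L β j).2.1.length) (hk : k ≤ w) :
    (run N R m L β k).2.1.length = k := by
  rcases (run_spec (N := N) (R := R) m L β k).2 with h1 | h1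
  · exact h1
  · exfalso
    by_cases hj : k ≤ j
    · rw [run_stuck h1.1 j hj] at h
      omega
    · have h2 := (run_spec (N := N) (R := R) m L β j).2
      rcases h2 with h3 | h3
      · omega
      · omega

lemma run_prefix {m : Bool} {L : List Bool} {β : List ℕ} {k j : ℕ} (h : k ≤ j) :
    (run N R m L β k).2.1 <+: (run N R m L β j).2.1 ∧
    (run N R m L β k).2.2 <+: (run N R m L β j).2.2 := by
  induction j, h using Nat.le_induction with
  | base => exact ⟨List.prefix_rfl, List.prefix_rfl⟩
  | succ j _ ih =>
    rw [run_succ]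
    cases h1 : stp N R m L β (run N R m L β j) with
    | none => exact ih
    | some c' =>
      obtain ⟨x, a, y, _, _, _, rfl⟩ := stp_some h1
      rw [Option.getD_some]
      exact ⟨ih.1.trans (List.prefix_append _ _), ih.2.trans (List.prefix_append _ _)⟩

lemma run_compare {m : Bool} {L L' : List Bool} {β β' : List ℕ} {e : ℕ}
    (h : ∀ c c', c.2.1.length < e → stp N R m L β c = some c' → stp N R m L' β' c = some c')
    (k : ℕ) (hk : k ≤ e) (hf : (run N R m L β k).2.1.length = k) :
    run N R m L' β' k = run N R m L β k := by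
  induction k with
  | zero => rfl
  | succ k ih =>
    have hk' : (run N R m L β k).2.1.length = k :=
      run_full (j := k + 1) (w := k + 1) (by omega) (by omega)
    have h1 := ih (by omega) hk'
    rw [run_succ, run_succ, h1]
    cases h2 : stp N R m L β (run N R m L β k) with
    | none =>
      rw [run_succ, h2, Option.getD_none] at hf
      omega
    | some c' =>
      rw [h _ _ (by omega) h2]

end mach

section thm

variable {N : List ℕ → ℕ → Ds → Option (ℕ × Ds)} {R : List ℕ → Ds → Option (Bool × Ds)}

noncomputable def wbits (β : List ℕ) : List Bool :=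
  (List.range β.length).map (fun e => decide (e ∈ ws β))

variable (N R) in
/-- the approximations of the halting problem -/
noncomputable def App (β : List ℕ) : List Bool :=
  (run N R false (wbits β) β β.length).2.1

lemma App_length (β : List ℕ) : (App N R β).length ≤ β.length := by
  rcases (run_spec (N := N) (R := R) false (wbits β) β β.length).2 with h | h
  · exact h.le
  · exact h.1.le

lemma App_take {β : List ℕ} {w : ℕ} (h : w ≤ (App N R β).length) :
    (App N R β).take w = (run N R false (wbits β) β w).2.1 := by
  have h1 := run_full (N := N) (R := R) (k := w) (w := w) (j := β.length) h (le_refl _)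
  have h2 : w ≤ β.length := le_trans h (App_length β)
  have h3 := (run_prefix (N := N) (R := R) (m := false) (L := wbits β) (β := β) h2).1
  obtain ⟨t, ht⟩ := h3
  unfold App
  rw [← ht, List.take_append_of_le_length (by omega), List.take_of_length_le (by omega)]

/-- monotonicity of the decoding procedures -/
def Mono (N : List ℕ → ℕ → Ds → Option (ℕ × Ds)) (R : List ℕ → Ds → Option (Bool × Ds)) : Prop :=
  (∀ β β' e d x, β <+: β' → N β e d = some x → N β' e d = some x) ∧
  (∀ β β' d y, β <+: β' → R β d = some y → R β' d = some y)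

lemma App_local (hm : Mono N R) (β : List ℕ) (a w : ℕ) (hw : w ≤ (App N R β).length)
    (h : ∀ e ∈ ws (β ++ [a]), e ∈ ws β ∨ w ≤ e) :
    (App N R (β ++ [a])).take w = (App N R β).take w := by
  have hf := run_full (N := N) (R := R) (k := w) (w := w) (j := β.length) hw (le_refl _)
  have h2 : w ≤ β.length := le_trans hw (App_length β)
  have hp : β <+: β ++ [a] := List.prefix_append _ _
  have hc : run N R false (wbits (β ++ [a])) (β ++ [a]) w = run N R false (wbits β) β w := by
    refine run_compare (e := w) ?_ w (le_refl _) hf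
    intro c c' hlen hs
    obtain ⟨x, b, y, h3, h4, h5, rfl⟩ := stp_some hs
    refine stp_of (hm.1 _ _ _ _ _ hp h3) ?_ (hm.2 _ _ _ _ hp h5)
    unfold ans at h4 ⊢
    rw [cond_false] at h4 ⊢
    unfold wbits at h4 ⊢
    rw [List.getElem?_map] at h4 ⊢
    have h6 : c.2.1.length < β.length := by omega
    rw [List.getElem?_range h6] at h4
    rw [List.getElem?_range (by rw [List.length_append]; omega)]
    rw [← h4]
    simp only [Option.map_some, Option.some.injEq, decide_eq_decide]
    constructor
    · intro h7
      rcases h _ h7 with h8 | h8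
      · exact h8
      · omega
    · intro h7
      exact ws_mono hp h7
  rw [App_take hw, ← hc]
  have hw' : w ≤ (App N R (β ++ [a])).length := by
    have h7 := (run_prefix (N := N) (R := R) (m := false) (L := wbits (β ++ [a]))
      (β := β ++ [a]) (k := w) (j := (β ++ [a]).length) (by rw [List.length_append]; omega)).1
    have h8 := h7.length_le
    rw [hc, hf] at h8
    exact h8
  rw [App_take hw']

variable (Y : ℕ → ℕ) (d d1 : ℕ → Ds) (nn : ℕ → ℕ)

/-- the `e`-th bit of the halting problem -/
noncomputable def kb (e : ℕ) : Bool := open Classical in decide (∃ t, hl e t = true)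

noncomputable def wb (e : ℕ) : Bool := decide (chW Y e = 1)

/-- the true configurations -/
noncomputable def conf (e : ℕ) : Cf :=
  (d e, ((List.range e).map kb, (List.range e).map (wb Y)))

/-- the hypotheses on the true decoding -/
structure True_ (N : List ℕ → ℕ → Ds → Option (ℕ × Ds)) (R : List ℕ → Ds → Option (Bool × Ds))
    (Y : ℕ → ℕ) (d d1 : ℕ → Ds) (nn : ℕ → ℕ) : Prop where
  zero : d 0 = []
  hN : ∀ e, ∀ᶠ n in atTop, N (pre Y n) e (d e) = some (nn e, d1 e)
  hW : ∀ e, K (nn e) = chW Y e
  hR : ∀ e, ∀ᶠ n in atTop, R (pre Y n) (nxt e (d1 e) (wb Y e)) = some (kb e, d (e + 1))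

lemma wbits_lim (e : ℕ) : ∀ᶠ n in atTop, (wbits (pre Y n))[e]? = some (wb Y e) := by
  classical
  have h1 : ∀ᶠ n in atTop, (e ∈ ws (pre Y n) ↔ chW Y e = 1) := by
    by_cases h : ∃ n, e ∈ ws (pre Y n)
    · obtain ⟨n0, h0⟩ := h
      filter_upwards [eventually_ge_atTop n0] with n hn
      have h2 : chW Y e = 1 := by unfold chW; rw [if_pos ⟨n0, h0⟩]
      exact ⟨fun _ => h2, fun _ => ws_mono (pre_prefix Y hn) h0⟩
    · refine Filter.Eventually.of_forall (fun n => ?_)
      have h2 : chW Y e = 0 := by unfold chW; rw [if_neg h]
      rw [h2]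
      exact ⟨fun h3 => absurd ⟨n, h3⟩ h, fun h3 => absurd h3 (by norm_num)⟩
  filter_upwards [h1, eventually_gt_atTop e] with n h2 h3
  unfold wbits wb
  rw [pre_length, List.getElem?_map, List.getElem?_range h3]
  simp only [Option.map_some, Option.some.injEq, decide_eq_decide]
  exact h2

variable {Y d d1 nn}

lemma conf_succ (e : ℕ) : conf Y d (e + 1) =
    (d (e + 1), ((conf Y d e).2.1 ++ [kb e], (conf Y d e).2.2 ++ [wb Y e])) := by
  unfold conf
  simp [List.range_succ]

lemma run_lim (h : True_ N R Y d d1 nn) {m : Bool} {L : ℕ → List Bool}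
    (hL : ∀ e, ∀ᶠ n in atTop, ans m (L n) e (nn e) = some (wb Y e)) (k : ℕ) :
    ∀ᶠ n in atTop, run N R m (L n) (pre Y n) k = conf Y d k := by
  induction k with
  | zero =>
    refine Filter.Eventually.of_forall (fun n => ?_)
    show (([], ([], [])) : Cf) = conf Y d 0
    unfold conf
    rw [h.zero]; rfl
  | succ k ih =>
    filter_upwards [ih, h.hN k, hL k, h.hR k] with n h1 h2 h3 h4
    rw [run_succ, h1]
    have hlen : (conf Y d k).2.1.length = k := by unfold conf; simp
    have h5 : stp N R m (L n) (pre Y n) (conf Y d k) = some (conf Y d (k + 1)) := by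
      rw [conf_succ]
      refine stp_of (x := (nn k, d1 k)) (a := wb Y k) (y := (kb k, d (k + 1))) ?_ ?_ ?_
      · rw [hlen]; exact h2
      · rw [hlen]; exact h3
      · rw [hlen]; exact h4
    rw [h5, Option.getD_some]

lemma kstr_eq_kb (n : ℕ) : kstr n = (List.range n).map kb := rfl

lemma App_lim (h : True_ N R Y d d1 nn) (k : ℕ) :
    ∀ᶠ n in atTop, (App N R (pre Y n)).take (kstr k).length = kstr k := by
  have h1 := run_lim (m := false) (L := fun n => wbits (pre Y n)) h (fun e => by
    simp only [ans, cond_false]
    exact wbits_lim Y e) k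
  filter_upwards [h1, eventually_ge_atTop k] with n h2 h3
  have hlen : (conf Y d k).2.1.length = k := by unfold conf; simp
  have h4 : k ≤ (App N R (pre Y n)).length := by
    have h5 := (run_prefix (N := N) (R := R) (m := false) (L := wbits (pre Y n))
      (β := pre Y n) (k := k) (j := (pre Y n).length) (by rw [pre_length]; exact h3)).1.length_le
    rw [h2, hlen] at h5
    exact h5
  have h6 : (kstr k).length = k := by rw [kstr_eq_kb]; simp
  rw [h6, App_take h4, h2]
  rfl

end thm

end Pool.Agent.H651.AP
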