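import Pool.Agent.H651.AP.Mach

set_option autoImplicit false

/-! If the machine decodes correctly from `Y`, then the halting problem is K-trivial relative to `Y`
and not computable from `Y`. -/

namespace Pool.Agent.H651.AP

open Filter
open Pool.Agent.Helper743
open Pool.Agent.Helper743.AC (hl kstr)
open Pool.Agent.Helper743.KT (KG triv_KG)

variable {N : List ℕ → ℕ → Ds → Option (ℕ × Ds)} {R : List ℕ → Ds → Option (Bool × Ds)}

lemma nxt_p : Primrec (fun q : (ℕ × Ds) × Bool => nxt q.1.1 q.1.2 q.2) :=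
  Primrec.cond Primrec.snd (Primrec.snd.comp Primrec.fst)
    (Primrec.list_cons.comp ((Primrec.fst.comp Primrec.fst).pair (Primrec.const 2))
      (Primrec.snd.comp Primrec.fst))

lemma ans_p : Primrec (fun q : (Bool × List Bool) × (ℕ × ℕ) => ans q.1.1 q.1.2 q.2.1 q.2.2) :=
  Primrec.cond (Primrec.fst.comp Primrec.fst)
    (Primrec.list_getElem?.comp (Primrec.snd.comp Primrec.fst) (Primrec.snd.comp Primrec.snd))
    (Primrec.list_getElem?.comp (Primrec.snd.comp Primrec.fst) (Primrec.fst.comp Primrec.snd))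

lemma stp_p (hN : Primrec (fun q : (List ℕ × ℕ) × Ds => N q.1.1 q.1.2 q.2))
    (hR : Primrec₂ R) :
    Primrec (fun q : ((Bool × List Bool) × List ℕ) × Cf => stp N R q.1.1.1 q.1.1.2 q.1.2 q.2) := by
  have m : Primrec (fun q : ((Bool × List Bool) × List ℕ) × Cf => q.1.1) :=
    Primrec.fst.comp Primrec.fst
  have b : Primrec (fun q : ((Bool × List Bool) × List ℕ) × Cf => q.1.2) :=
    Primrec.snd.comp Primrec.fst
  have e : Primrec (fun q : ((Bool × List Bool) × List ℕ) × Cf => q.2.2.1.length) :=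
    Primrec.list_length.comp (Primrec.fst.comp (Primrec.snd.comp Primrec.snd))
  have d : Primrec (fun q : ((Bool × List Bool) × List ℕ) × Cf => q.2.1) :=
    Primrec.fst.comp Primrec.snd
  have h1 := hN.comp ((b.pair e).pair d)
  -- the second bind
  have f1 : Primrec (fun z : ((((Bool × List Bool) × List ℕ) × Cf) × (ℕ × Ds)) => z.1) :=
    Primrec.fst
  have h2 := ans_p.comp ((m.comp f1).pair ((e.comp f1).pair (Primrec.fst.comp Primrec.snd)))
  have f2 : Primrec (fun z : (((((Bool × List Bool) × List ℕ) × Cf) × (ℕ × Ds)) × Bool) =>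
      z.1.1) := Primrec.fst.comp Primrec.fst
  have h3 := hR.comp (b.comp f2) (nxt_p.comp (((e.comp f2).pair
    (Primrec.snd.comp (Primrec.snd.comp Primrec.fst))).pair Primrec.snd))
  have f3 : Primrec (fun z : ((((((Bool × List Bool) × List ℕ) × Cf) × (ℕ × Ds)) × Bool) ×
      (Bool × Ds)) => z.1.1.1) := Primrec.fst.comp (Primrec.fst.comp Primrec.fst)
  have c1 : Primrec (fun q : ((Bool × List Bool) × List ℕ) × Cf => q.2.2.1) :=
    Primrec.fst.comp (Primrec.snd.comp Primrec.snd)
  have c2 : Primrec (fun q : ((Bool × List Bool) × List ℕ) × Cf => q.2.2.2) :=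
    Primrec.snd.comp (Primrec.snd.comp Primrec.snd)
  have h4 : Primrec (fun z : ((((((Bool × List Bool) × List ℕ) × Cf) × (ℕ × Ds)) × Bool) ×
      (Bool × Ds)) => (z.2.2, (z.1.1.1.2.2.1 ++ [z.2.1], z.1.1.1.2.2.2 ++ [z.1.2]))) :=
    (Primrec.snd.comp Primrec.snd).pair
      ((Primrec.list_concat.comp (c1.comp f3) (Primrec.fst.comp Primrec.snd)).pair
        (Primrec.list_concat.comp (c2.comp f3) (Primrec.snd.comp Primrec.fst)))
  have h5 := Primrec.option_map h3 h4.to₂
  have h6 := Primrec.option_bind h2 h5.to₂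
  exact Primrec.option_bind h1 h6.to₂

lemma run_p (hN : Primrec (fun q : (List ℕ × ℕ) × Ds => N q.1.1 q.1.2 q.2))
    (hR : Primrec₂ R) :
    Primrec (fun q : ((Bool × List Bool) × List ℕ) × ℕ => run N R q.1.1.1 q.1.1.2 q.1.2 q.2) := by
  have h1 := stp_p hN hR
  have h2 : Primrec₂ (fun (q : ((Bool × List Bool) × List ℕ) × ℕ) (z : ℕ × Cf) =>
      (stp N R q.1.1.1 q.1.1.2 q.1.2 z.2).getD z.2) :=
    Primrec.option_getD.comp (h1.comp ((Primrec.fst.comp Primrec.fst).pair
      (Primrec.snd.comp Primrec.snd))) (Primrec.snd.comp Primrec.snd)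
  exact Primrec.nat_rec' Primrec.snd (Primrec.const (([], ([], [])) : Cf)) h2

attribute [local irreducible] ws

lemma wbits_p : Primrec wbits := by
  have h1 : PrimrecPred (fun z : List ℕ × ℕ => z.2 ∈ ws z.1) := by
    have r : PrimrecRel (fun (e' e : ℕ) => e' = e) := Primrec.eq
    have h2 := r.exists_mem_list.comp (ws_p.comp (Primrec.fst (α := List ℕ) (β := ℕ)))
      (Primrec.snd (α := List ℕ) (β := ℕ))
    refine h2.of_eq (fun z => ?_)
    simp
  have h3 : Primrec₂ (fun (β : List ℕ) (e : ℕ) => decide (e ∈ ws β)) := h1.decide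
  exact Primrec.list_map (Primrec.list_range.comp Primrec.list_length) h3

attribute [local irreducible] run

lemma App_p (hN : Primrec (fun q : (List ℕ × ℕ) × Ds => N q.1.1 q.1.2 q.2))
    (hR : Primrec₂ R) : Primrec (App N R) :=
  Primrec.fst.comp (Primrec.snd.comp ((run_p hN hR).comp
    ((((Primrec.const false).pair wbits_p).pair Primrec.id).pair Primrec.list_length)))

variable {Y : ℕ → ℕ} {d d1 : ℕ → Ds} {nn : ℕ → ℕ}

/-- the halting problem is K-trivial relative to `Y` -/
theorem mach_triv (hN : Primrec (fun q : (List ℕ × ℕ) × Ds => N q.1.1 q.1.2 q.2))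
    (hR : Primrec₂ R) (hm : Mono N R) (h : True_ N R Y d d1 nn) :
    ∃ c, ∀ n, KG Y (Encodable.encode (kstr n)) ≤ KG Y n + c := by
  refine triv_KG (fun f φ h1 h2 h3 => trivial_rel (App N R) Y (App_p hN hR) App_length
    (fun i => ⟨i + 2, fun n => tot_le (fun β a w hw h4 => App_local hm β a w hw h4) Y i n⟩)
    kstr (App_lim h) (fun n => by rw [kstr_eq_kb]; simp) f φ h1 h2 h3)

/-- decoding of `W` from `Y` and the halting problem -/
def pW (N : List ℕ → ℕ → Ds → Option (ℕ × Ds)) (R : List ℕ → Ds → Option (Bool × Ds))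
    (δ : List ℕ) (x : ℕ) (_w : ℕ) : Option ℕ :=
  ((run N R true (δ.map (fun z => decide (z.unpair.2 = 1))) (δ.map (fun z => z.unpair.1))
    δ.length).2.2[x]?).map Bool.toNat

lemma toNat_p : Primrec Bool.toNat := by
  have h1 := Primrec.cond Primrec.id (Primrec.const 1) (Primrec.const 0)
  refine h1.of_eq (fun b => ?_)
  cases b <;> rfl

lemma pW_p (hN : Primrec (fun q : (List ℕ × ℕ) × Ds => N q.1.1 q.1.2 q.2))
    (hR : Primrec₂ R) : Primrec (fun q : (List ℕ × ℕ) × ℕ => pW N R q.1.1 q.1.2 q.2) := by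
  have b : Primrec (fun q : (List ℕ × ℕ) × ℕ => q.1.1) := Primrec.fst.comp Primrec.fst
  have h1 : Primrec₂ (fun (_ : (List ℕ × ℕ) × ℕ) (z : ℕ) => decide (z.unpair.2 = 1)) :=
    (Primrec.eq.comp (Primrec.snd.comp (Primrec.unpair.comp Primrec.snd))
      (Primrec.const 1)).decide
  have h2 : Primrec₂ (fun (_ : (List ℕ × ℕ) × ℕ) (z : ℕ) => z.unpair.1) :=
    Primrec.fst.comp (Primrec.unpair.comp Primrec.snd)
  have h3 := (run_p hN hR).comp ((((Primrec.const true).pair (Primrec.list_map b h1)).pair
    (Primrec.list_map b h2)).pair (Primrec.list_length.comp b))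
  have h4 := Primrec.list_getElem?.comp (Primrec.snd.comp (Primrec.snd.comp h3))
    (Primrec.snd.comp (Primrec.fst (α := List ℕ × ℕ) (β := ℕ)))
  exact Primrec.option_map h4 ((toNat_p.comp Primrec.snd).to₂)

lemma pre_map_fst (n : ℕ) : (pre (Helper743.join Y K) n).map (fun z => z.unpair.1) = pre Y n := by
  unfold pre
  rw [List.map_map]
  apply List.map_congr_left
  intro i _
  simp [Helper743.join]

noncomputable def kbits (n : ℕ) : List Bool := (List.range n).map (fun i => decide (K i = 1))

lemma pre_map_snd (n : ℕ) :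
    (pre (Helper743.join Y K) n).map (fun z => decide (z.unpair.2 = 1)) = kbits n := by
  unfold pre kbits
  rw [List.map_map]
  apply List.map_congr_left
  intro i _
  simp [Helper743.join]

lemma chW_01 (Y : ℕ → ℕ) (e : ℕ) : chW Y e = 0 ∨ chW Y e = 1 := by
  unfold chW
  split_ifs
  · exact Or.inr rfl
  · exact Or.inl rfl

lemma wb_toNat (e : ℕ) : (wb Y e).toNat = chW Y e := by
  unfold wb
  rcases chW_01 Y e with h | h <;> rw [h] <;> decide

theorem chW_TR (hN : Primrec (fun q : (List ℕ × ℕ) × Ds => N q.1.1 q.1.2 q.2))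
    (hR : Primrec₂ R) (hm : Mono N R) (h : True_ N R Y d d1 nn) :
    TR (chW Y) (Helper743.join Y K) := by
  -- limits
  have hlim : ∀ k, ∀ᶠ n in atTop, run N R true (kbits n) (pre Y n) k = conf Y d k := by
    intro k
    refine run_lim (m := true) (L := kbits) h (fun e => ?_) k
    filter_upwards [eventually_gt_atTop (nn e)] with n hn
    unfold ans kbits wb
    rw [cond_true, List.getElem?_map, List.getElem?_range hn, Option.map_some, h.hW e]
  have hmono : ∀ n n', n ≤ n' → ∀ c c', stp N R true (kbits n) (pre Y n) c = some c' →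
      stp N R true (kbits n') (pre Y n') c = some c' := by
    intro n n' hn c c' hs
    obtain ⟨x, b, y, h3, h4, h5, rfl⟩ := stp_some hs
    refine stp_of (hm.1 _ _ _ _ _ (pre_prefix Y hn) h3) ?_ (hm.2 _ _ _ _ (pre_prefix Y hn) h5)
    unfold ans at h4 ⊢
    rw [cond_true] at h4 ⊢
    unfold kbits at h4 ⊢
    rw [List.getElem?_map] at h4 ⊢
    by_cases h6 : x.1 < n
    · rw [List.getElem?_range h6] at h4
      rw [List.getElem?_range (by omega)]
      exact h4
    · rw [List.getElem?_eq_none (by rw [List.length_range]; omega)] at h4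
      simp at h4
  have hconf : ∀ k x, x < k → (conf Y d k).2.2[x]? = some (wb Y x) := by
    intro k x hx
    unfold conf
    simp only
    rw [List.getElem?_map, List.getElem?_range hx]
    rfl
  refine cert (TR.refl (Helper743.join Y K)) (pW N R) (pW_p hN hR).to_comp (chW Y) ?_ ?_
  · intro x
    obtain ⟨n, h1, h2⟩ := ((hlim (x + 1)).and (eventually_ge_atTop (x + 1))).exists
    refine ⟨n, 0, ?_⟩
    unfold pW
    rw [pre_map_fst, pre_map_snd, pre_length]
    obtain ⟨t, ht⟩ := (run_prefix (N := N) (R := R) (m := true) (L := kbits n) (β := pre Y n) h2).2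
    rw [← ht, h1]
    have h3 : (conf Y d (x + 1)).2.2.length = x + 1 := by unfold conf; simp
    rw [List.getElem?_append_left (by omega), hconf _ _ (Nat.lt_succ_self x)]
    rfl
  · intro x n w y hy
    unfold pW at hy
    rw [pre_map_fst, pre_map_snd, pre_length] at hy
    rw [Option.map_eq_some_iff] at hy
    obtain ⟨b, hb, rfl⟩ := hy
    have hlen : x < (run N R true (kbits n) (pre Y n) n).2.2.length :=
      (List.getElem?_eq_some_iff.1 hb).1
    have hsp := (run_spec (N := N) (R := R) true (kbits n) (pre Y n) n).1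
    rw [hsp] at hlen
    have hf := run_full (N := N) (R := R) (k := x + 1) (w := x + 1) (j := n) hlen (le_refl _)
    obtain ⟨n', h1, h2⟩ := ((hlim (x + 1)).and (eventually_ge_atTop n)).exists
    have h3 := run_compare (e := x + 1) (fun c c' _ hs => hmono n n' h2 c c' hs) (x + 1)
      (le_refl _) hf
    have hxn : x + 1 ≤ n := by
      have h4 := (run_spec (N := N) (R := R) true (kbits n) (pre Y n) n).2
      rcases h4 with h5 | h5
      · omega
      · omega
    obtain ⟨t, ht⟩ := (run_prefix (N := N) (R := R) (m := true) (L := kbits n)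
      (β := pre Y n) hxn).2
    rw [← ht, ← h3, h1] at hb
    have h6 : (conf Y d (x + 1)).2.2.length = x + 1 := by unfold conf; simp
    rw [List.getElem?_append_left (by omega), hconf _ _ (Nat.lt_succ_self x)] at hb
    rw [Option.some.injEq] at hb
    rw [← hb]
    exact wb_toNat x

/-- the halting problem is not computable from `Y` -/
theorem mach_not (hN : Primrec (fun q : (List ℕ × ℕ) × Ds => N q.1.1 q.1.2 q.2))
    (hR : Primrec₂ R) (hm : Mono N R) (h : True_ N R Y d d1 nn) : ¬ TR K Y := by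
  intro hK
  exact chW_not_TR Y ((chW_TR hN hR hm h).trans (TR_join (TR.refl Y) hK))

end Pool.Agent.H651.AP
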