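import Pool.Agent.H651.AP.Cls

set_option autoImplicit false

/-! Effectively closed classes (relative to `B`) of extensions of a universal function, with
coding locations. -/

namespace Pool.Agent.H651.AP.PA

open Nat.Partrec (Code)
open Filter
open Pool.Agent.Helper743
open Pool.Agent.H651.AP

/-- the universal `{0,1}`-valued function -/
def uv (t x : ℕ) : Option Bool :=
  (Code.evaln t (Denumerable.ofNat Code x.unpair.1) x.unpair.2).map (fun v => decide (v = 1))

lemma uv_p : Primrec₂ uv := by
  have h1 : Primrec (fun q : ℕ × ℕ =>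
      Code.evaln q.1 (Denumerable.ofNat Code q.2.unpair.1) q.2.unpair.2) :=
    Code.primrec_evaln.comp ((Primrec.fst.pair ((Primrec.ofNat Code).comp
      (Primrec.fst.comp (Primrec.unpair.comp Primrec.snd)))).pair
      (Primrec.snd.comp (Primrec.unpair.comp Primrec.snd)))
  have h2 : Primrec₂ (fun (_ : ℕ × ℕ) (v : ℕ) => decide (v = 1)) :=
    (Primrec.eq.comp Primrec.snd (Primrec.const 1)).decide
  exact Primrec.option_map h1 h2

lemma uv_mono {s t x : ℕ} {v : Bool} (h : s ≤ t) (hs : uv s x = some v) : uv t x = some v := by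
  unfold uv at *
  rw [Option.map_eq_some_iff] at *
  obtain ⟨a, ha, h1⟩ := hs
  exact ⟨a, Code.evaln_mono h ha, h1⟩

/-- strings compatible with the table `F` -/
def okF (F : List (Option Bool)) (ξ : List Bool) : Prop :=
  ∀ k ∈ List.range ξ.length, (F[k]? = some (some true) → ξ[k]? ≠ some false) ∧
    (F[k]? = some (some false) → ξ[k]? ≠ some true)

def mem (F : List (Option Bool)) (b : List ℕ) (d : Ds) (ξ : List Bool) : Prop :=
  okF F ξ ∧ okD b ξ d

/-- the description with number `k / 2` -/
def dd (k : ℕ) : Ds := (Encodable.decode (α := Ds) (k / 2)).getD []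

/-- the coding location -/
def loc (d : Ds) : ℕ := 2 * Encodable.encode d + 1

lemma dd_loc (d : Ds) : dd (loc d) = d := by
  unfold dd loc
  have : (2 * Encodable.encode d + 1) / 2 = Encodable.encode d := by omega
  rw [this, Encodable.encodek]
  rfl

/-- no string of the class has bit `k` equal to `v` -/
def noBit (b : List ℕ) (t : ℕ) (F : List (Option Bool)) (d : Ds) (k : ℕ) (v : Bool) : Prop :=
  ∀ ξ ∈ allb t, mem F b d ξ → ξ[k]? ≠ some v

noncomputable def rule (b : List ℕ) (t : ℕ) (F : List (Option Bool)) (k : ℕ) : Option Bool :=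
  open Classical in
  if k < t then
    if noBit b t F (dd k) k false then some false
    else if noBit b t F (dd k) k true then some true else none
  else none

noncomputable def newv (b : List ℕ) (t : ℕ) (F : List (Option Bool)) (k : ℕ) : Option Bool :=
  if ((F[k]?).getD none).isSome then (F[k]?).getD none
  else if k % 2 = 0 then uv t (k / 2) else rule b t F k

noncomputable def tab (b : List ℕ) (t : ℕ) : List (Option Bool) :=
  Nat.rec [] (fun t F => (List.range (t + 1)).map (fun k => newv b t F k)) t

lemma tab_succ (b : List ℕ) (t : ℕ) :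
    tab b (t + 1) = (List.range (t + 1)).map (fun k => newv b t (tab b t) k) := rfl

lemma tab_get {b : List ℕ} {t k : ℕ} (h : k < t + 1) :
    (tab b (t + 1))[k]? = some (newv b t (tab b t) k) := by
  rw [tab_succ, List.getElem?_map, List.getElem?_range h]
  rfl

lemma tab_length (b : List ℕ) (t : ℕ) : (tab b t).length = t := by
  cases t with
  | zero => rfl
  | succ t => rw [tab_succ]; simp

/-! ### primitive recursiveness -/

lemma okF_p : PrimrecRel okF := by
  have x : Primrec (fun z : ℕ × (List (Option Bool) × List Bool) => z.2.2[z.1]?) :=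
    Primrec.list_getElem?.comp (Primrec.snd.comp Primrec.snd) Primrec.fst
  have f : Primrec (fun z : ℕ × (List (Option Bool) × List Bool) => z.2.1[z.1]?) :=
    Primrec.list_getElem?.comp (Primrec.fst.comp Primrec.snd) Primrec.fst
  have a1 := Primrec.eq.comp f (Primrec.const (some (some true)))
  have a2 := Primrec.eq.comp x (Primrec.const (some false))
  have a3 := Primrec.eq.comp f (Primrec.const (some (some false)))
  have a4 := Primrec.eq.comp x (Primrec.const (some true))
  have r : PrimrecRel (fun (k : ℕ) (q : List (Option Bool) × List Bool) =>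
      (q.1[k]? = some (some true) → q.2[k]? ≠ some false) ∧
        (q.1[k]? = some (some false) → q.2[k]? ≠ some true)) := by
    refine (PrimrecPred.and (PrimrecPred.or a1.not a2.not)
      (PrimrecPred.or a3.not a4.not)).of_eq ?_
    intro z
    simp only [imp_iff_not_or, ne_eq]
  exact r.forall_mem_list.comp (Primrec.list_range.comp (Primrec.list_length.comp Primrec.snd))
    Primrec.id

attribute [local irreducible] okF okD

lemma mem_p : PrimrecPred (fun q : ((List (Option Bool) × List ℕ) × Ds) × List Bool =>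
    mem q.1.1.1 q.1.1.2 q.1.2 q.2) :=
  PrimrecPred.and (okF_p.comp (Primrec.fst.comp (Primrec.fst.comp Primrec.fst)) Primrec.snd)
    (okD_p.comp (((Primrec.snd.comp (Primrec.fst.comp Primrec.fst)).pair Primrec.snd).pair
      (Primrec.snd.comp Primrec.fst)))

attribute [local irreducible] mem

lemma noBit_p : PrimrecPred (fun q : ((List ℕ × ℕ) × List (Option Bool)) × ((Ds × ℕ) × Bool) =>
    noBit q.1.1.1 q.1.1.2 q.1.2 q.2.1.1 q.2.1.2 q.2.2) := by
  have p2 : Primrec (fun z : List Bool × (((List ℕ × ℕ) × List (Option Bool)) ×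
      ((Ds × ℕ) × Bool)) => z.2) := Primrec.snd
  have b := Primrec.fst.comp (Primrec.fst.comp (Primrec.fst.comp p2))
  have F := Primrec.snd.comp (Primrec.fst.comp p2)
  have d := Primrec.fst.comp (Primrec.fst.comp (Primrec.snd.comp p2))
  have k := Primrec.snd.comp (Primrec.fst.comp (Primrec.snd.comp p2))
  have v := Primrec.snd.comp (Primrec.snd.comp p2)
  have x : Primrec (fun z : List Bool × (((List ℕ × ℕ) × List (Option Bool)) ×
      ((Ds × ℕ) × Bool)) => z.1) := Primrec.fst
  have h1 := mem_p.comp (((F.pair b).pair d).pair x)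
  have h2 := Primrec.eq.comp (Primrec.list_getElem?.comp x k) (Primrec.option_some.comp v)
  have r : PrimrecRel (fun (ξ : List Bool) (q : ((List ℕ × ℕ) × List (Option Bool)) ×
      ((Ds × ℕ) × Bool)) => mem q.1.2 q.1.1.1 q.2.1.1 ξ → ξ[q.2.1.2]? ≠ some q.2.2) := by
    refine (PrimrecPred.or h1.not h2.not).of_eq ?_
    intro z
    simp only [imp_iff_not_or, ne_eq]
  exact r.forall_mem_list.comp (allb_p.comp (Primrec.snd.comp (Primrec.fst.comp Primrec.fst)))
    Primrec.id

attribute [local irreducible] noBit

lemma half_p : Primrec (fun k : ℕ => k / 2) := Primrec.nat_div.comp Primrec.id (Primrec.const 2)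

lemma dd_p : Primrec dd :=
  Primrec.option_getD.comp (Primrec.decode.comp half_p) (Primrec.const [])

lemma rule_p : Primrec (fun q : ((List ℕ × ℕ) × List (Option Bool)) × ℕ =>
    rule q.1.1.1 q.1.1.2 q.1.2 q.2) := by
  classical
  have k : Primrec (fun q : ((List ℕ × ℕ) × List (Option Bool)) × ℕ => q.2) := Primrec.snd
  have h0 : PrimrecPred (fun q : ((List ℕ × ℕ) × List (Option Bool)) × ℕ => q.2 < q.1.1.2) :=
    Primrec.nat_lt.comp k (Primrec.snd.comp (Primrec.fst.comp Primrec.fst))
  have h1 := noBit_p.comp (Primrec.fst.pair (((dd_p.comp k).pair k).pair (Primrec.const false)))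
  have h2 := noBit_p.comp (Primrec.fst.pair (((dd_p.comp k).pair k).pair (Primrec.const true)))
  have h3 := Primrec.ite h0 (Primrec.ite h1 (Primrec.const (some false))
    (Primrec.ite h2 (Primrec.const (some true)) (Primrec.const none))) (Primrec.const none)
  refine h3.of_eq ?_
  intro q
  unfold rule
  rfl

attribute [local irreducible] rule uv

lemma newv_p : Primrec (fun q : ((List ℕ × ℕ) × List (Option Bool)) × ℕ =>
    newv q.1.1.1 q.1.1.2 q.1.2 q.2) := by
  have k : Primrec (fun q : ((List ℕ × ℕ) × List (Option Bool)) × ℕ => q.2) := Primrec.snd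
  have g : Primrec (fun q : ((List ℕ × ℕ) × List (Option Bool)) × ℕ => (q.1.2[q.2]?).getD none) :=
    Primrec.option_getD.comp (Primrec.list_getElem?.comp (Primrec.snd.comp Primrec.fst) k)
      (Primrec.const none)
  have h1 : PrimrecPred (fun q : ((List ℕ × ℕ) × List (Option Bool)) × ℕ =>
      ((q.1.2[q.2]?).getD none).isSome = true) :=
    Primrec.eq.comp (Primrec.option_isSome.comp g) (Primrec.const true)
  have h2 : PrimrecPred (fun q : ((List ℕ × ℕ) × List (Option Bool)) × ℕ => q.2 % 2 = 0) :=
    Primrec.eq.comp (Primrec.nat_mod.comp k (Primrec.const 2)) (Primrec.const 0)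
  have h3 := uv_p.comp (Primrec.snd.comp (Primrec.fst.comp (Primrec.fst (α := (List ℕ × ℕ) ×
    List (Option Bool)) (β := ℕ)))) (half_p.comp k)
  exact Primrec.ite h1 g (Primrec.ite h2 h3 rule_p)

attribute [local irreducible] newv

lemma tab_p : Primrec₂ tab := by
  have n1 : Primrec₂ (fun (z : (List ℕ × ℕ) × (ℕ × List (Option Bool))) (k : ℕ) =>
      newv z.1.1 z.2.1 z.2.2 k) :=
    newv_p.comp (((((Primrec.fst.comp (Primrec.fst.comp Primrec.fst)).pair
      (Primrec.fst.comp (Primrec.snd.comp Primrec.fst)))).pair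
      (Primrec.snd.comp (Primrec.snd.comp Primrec.fst))).pair Primrec.snd)
  have h1 : Primrec₂ (fun (q : List ℕ × ℕ) (z : ℕ × List (Option Bool)) =>
      (List.range (z.1 + 1)).map (fun k => newv q.1 z.1 z.2 k)) :=
    Primrec.list_map (Primrec.list_range.comp (Primrec.succ.comp (Primrec.fst.comp Primrec.snd))) n1
  exact Primrec.nat_rec' Primrec.snd (Primrec.const []) h1

/-- the class is empty at stage `t` -/
def emp (b : List ℕ) (t : ℕ) (d : Ds) : Prop := ∀ ξ ∈ allb t, ¬ mem (tab b t) b d ξ

attribute [local irreducible] tab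

lemma emp_p : PrimrecPred (fun q : (List ℕ × ℕ) × Ds => emp q.1.1 q.1.2 q.2) := by
  have r : PrimrecRel (fun (ξ : List Bool) (q : (List ℕ × ℕ) × Ds) =>
      ¬ mem (tab q.1.1 q.1.2) q.1.1 q.2 ξ) := by
    have b : Primrec (fun z : List Bool × ((List ℕ × ℕ) × Ds) => z.2.1.1) :=
      Primrec.fst.comp (Primrec.fst.comp Primrec.snd)
    have t : Primrec (fun z : List Bool × ((List ℕ × ℕ) × Ds) => z.2.1.2) :=
      Primrec.snd.comp (Primrec.fst.comp Primrec.snd)
    exact (mem_p.comp ((((tab_p.comp b t).pair b).pair (Primrec.snd.comp Primrec.snd)).pair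
      Primrec.fst)).not
  exact r.forall_mem_list.comp (allb_p.comp (Primrec.snd.comp Primrec.fst)) Primrec.id

end Pool.Agent.H651.AP.PA
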