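import Pool.Agent.H651.AP.PAprop

set_option autoImplicit false

/-! Above every oracle `B` which does not compute the halting problem there is one which has PA
degree, does not compute the halting problem, and relative to which the halting problem is
K-trivial. -/

namespace Pool.Agent.H651.AP.PA

open Nat.Partrec (Code)
open Filter
open Pool.Agent.Helper743
open Pool.Agent.Helper743.AC (hl kstr)
open Pool.Agent.Helper743.PR (findIdx_range)
open Pool.Agent.Helper743.KT (KG)
open Pool.Agent.H651.AP

/-! ### decoding -/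

def xb (β : List ℕ) (k : ℕ) : Option Bool := (β[k]?).map (fun z => decide (z.unpair.2 = 1))

def idx (β : List ℕ) (d : Ds) : ℕ :=
  (List.range (β.length + 1)).findIdx (fun i => decide (xb β (loc (zs d i)) ≠ some false))

def NN (β : List ℕ) (_e : ℕ) (d : Ds) : Option (ℕ × Ds) :=
  if xb β (loc (zs d (idx β d))) = some true ∧ idx β d ≤ β.length then
    some (idx β d, cd d (idx β d)) else none

def RD (β : List ℕ) (d : Ds) : Option (Bool × Ds) :=
  (xb β (loc d)).map (fun v => (v, (loc d, v.toNat) :: d))

lemma xb_p : Primrec₂ xb := by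
  have h2 : Primrec₂ (fun (_ : List ℕ × ℕ) (z : ℕ) => decide (z.unpair.2 = 1)) :=
    (Primrec.eq.comp (Primrec.snd.comp (Primrec.unpair.comp Primrec.snd))
      (Primrec.const 1)).decide
  exact Primrec.option_map (Primrec.list_getElem?.comp Primrec.fst Primrec.snd) h2

attribute [local irreducible] loc zs cd

lemma idx_p : Primrec₂ idx := by
  have h1 : PrimrecPred (fun z : (List ℕ × Ds) × ℕ => xb z.1.1 (loc (zs z.1.2 z.2)) ≠ some false) :=
    (Primrec.eq.comp (xb_p.comp (Primrec.fst.comp Primrec.fst) (loc_p.comp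
      (zs_p.comp (Primrec.snd.comp Primrec.fst) Primrec.snd))) (Primrec.const (some false))).not
  have h2 : Primrec₂ (fun (q : List ℕ × Ds) (i : ℕ) =>
      decide (xb q.1 (loc (zs q.2 i)) ≠ some false)) := h1.decide
  exact Primrec.list_findIdx (Primrec.list_range.comp (Primrec.succ.comp
    (Primrec.list_length.comp Primrec.fst))) h2

lemma NN_p : Primrec (fun q : (List ℕ × ℕ) × Ds => NN q.1.1 q.1.2 q.2) := by
  have b : Primrec (fun q : (List ℕ × ℕ) × Ds => q.1.1) := Primrec.fst.comp Primrec.fst
  have d : Primrec (fun q : (List ℕ × ℕ) × Ds => q.2) := Primrec.snd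
  have i := idx_p.comp b d
  have h1 : PrimrecPred (fun q : (List ℕ × ℕ) × Ds =>
      xb q.1.1 (loc (zs q.2 (idx q.1.1 q.2))) = some true ∧ idx q.1.1 q.2 ≤ q.1.1.length) :=
    PrimrecPred.and (Primrec.eq.comp (xb_p.comp b (loc_p.comp (zs_p.comp d i)))
      (Primrec.const (some true))) (Primrec.nat_le.comp i (Primrec.list_length.comp b))
  exact Primrec.ite h1 (Primrec.option_some.comp (i.pair (cd_p.comp d i))) (Primrec.const none)

lemma RD_p : Primrec₂ RD := by
  have h1 : Primrec₂ (fun (q : List ℕ × Ds) (v : Bool) =>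
      (v, (loc q.2, v.toNat) :: q.2)) :=
    Primrec.snd.pair (Primrec.list_cons.comp ((loc_p.comp (Primrec.snd.comp Primrec.fst)).pair
      (toNat_p.comp Primrec.snd)) (Primrec.snd.comp Primrec.fst))
  exact Primrec.option_map (xb_p.comp Primrec.fst (loc_p.comp Primrec.snd)) h1

lemma xb_mono {β β' : List ℕ} {k : ℕ} {v : Bool} (h : β <+: β') (hx : xb β k = some v) :
    xb β' k = some v := by
  unfold xb at *
  rw [Option.map_eq_some_iff] at *
  obtain ⟨z, hz, h1⟩ := hx
  refine ⟨z, ?_, h1⟩
  obtain ⟨t, rfl⟩ := h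
  rw [List.getElem?_append_left (List.getElem?_eq_some_iff.1 hz).1]
  exact hz

lemma NN_some {β : List ℕ} {e : ℕ} {d : Ds} {n : ℕ} (hn : n ≤ β.length)
    (h0 : ∀ j, j < n → xb β (loc (zs d j)) = some false)
    (h1 : xb β (loc (zs d n)) = some true) : NN β e d = some (n, cd d n) := by
  have hi : idx β d = n := by
    unfold idx
    refine findIdx_range (by omega) ?_ ?_
    · rw [h1]; decide
    · intro j hj
      rw [h0 j hj]; decide
  unfold NN
  rw [hi, if_pos ⟨h1, hn⟩]

lemma NN_spec {β : List ℕ} {e : ℕ} {d : Ds} {x : ℕ × Ds} (h : NN β e d = some x) :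
    x = (x.1, cd d x.1) ∧ x.1 ≤ β.length ∧ (∀ j, j < x.1 → xb β (loc (zs d j)) = some false) ∧
      xb β (loc (zs d x.1)) = some true := by
  unfold NN at h
  split_ifs at h with h1
  have h2 := Option.some.inj h
  subst h2
  refine ⟨rfl, h1.2, ?_, h1.1⟩
  intro j hj
  simp only at hj
  unfold idx at hj
  have h3 := List.not_of_lt_findIdx hj
  rw [List.getElem_range] at h3
  simpa using h3

lemma mono : Mono NN RD := by
  constructor
  · intro β β' e d x h hx
    obtain ⟨h1, h2, h3, h4⟩ := NN_spec hx
    rw [h1]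
    exact NN_some (le_trans h2 h.length_le) (fun j hj => xb_mono h (h3 j hj)) (xb_mono h h4)
  · intro β β' d y h hy
    unfold RD at *
    rw [Option.map_eq_some_iff] at *
    obtain ⟨v, hv, h1⟩ := hy
    exact ⟨v, xb_mono h hv, h1⟩

/-! ### the construction -/

section con

variable {B : ℕ → ℕ} (hK : ¬ TR K B)

noncomputable def nch (e : ℕ) (d : Ds) : ℕ := (pr hK e d).choose

lemma nch_spec (e : ℕ) (d : Ds) :
    (K (nch hK e d) = 1 ∧ ∃ t, ∀ ξ, ¬ PP B ((e, 2) :: cd d (nch hK e d)) t ξ) ∨
      (K (nch hK e d) = 0 ∧ NE B ((e, 2) :: cd d (nch hK e d))) := (pr hK e d).choose_spec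

noncomputable def mid (e : ℕ) (d : Ds) : Ds :=
  nxt e (cd d (nch hK e d)) (decide (K (nch hK e d) = 1))

noncomputable def dst (e : ℕ) (d : Ds) : Ds :=
  (loc (mid hK e d), (kb e).toNat) :: mid hK e d

noncomputable def dq (e : ℕ) : Ds := Nat.rec [] (fun e d => dst hK e d) e

lemma NE_nil : NE B [] := by
  intro t
  -- a string compatible with the table
  refine ⟨(List.range t).map (fun k => (((TB B t)[k]?).getD none).getD false), by simp, ?_, ?_⟩
  · intro k hk
    rw [List.length_map, List.length_range, List.mem_range] at hk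
    rw [List.getElem?_map, List.getElem?_range hk, Option.map_some]
    constructor
    · intro h; rw [h]; simp
    · intro h; rw [h]; simp
  · intro c hc
    exact absurd hc (by simp)

lemma NE_mid {e : ℕ} {d : Ds} (h : NE B d) : NE B (mid hK e d) := by
  unfold mid nxt
  rcases nch_spec hK e d with ⟨h1, h2⟩ | ⟨h1, h2⟩
  · rw [h1]
    exact NE_cd h _
  · rw [h1]
    exact h2

lemma NE_dq (e : ℕ) : NE B (dq hK e) := by
  induction e with
  | zero => exact NE_nil
  | succ e ih => exact coding (NE_mid hK ih) (kb e)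

lemma dq_succ (e : ℕ) : dq hK (e + 1) = dst hK e (dq hK e) := rfl

attribute [local semireducible] zs cd in
lemma sub_zs (d : Ds) (i : ℕ) : ∀ c ∈ d, c ∈ zs d i := by
  induction i with
  | zero => exact fun c hc => hc
  | succ i ih => exact fun c hc => List.mem_cons_of_mem _ (ih c hc)

attribute [local semireducible] zs cd in
lemma sub_zs' (d : Ds) {i j : ℕ} (h : i ≤ j) : ∀ c ∈ zs d i, c ∈ zs d j := by
  induction j, h using Nat.le_induction with
  | base => exact fun c hc => hc
  | succ j _ ih => exact fun c hc => List.mem_cons_of_mem _ (ih c hc)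

attribute [local semireducible] zs cd in
lemma cd_zero (d : Ds) {j n : ℕ} (h : j < n) : (loc (zs d j), 0) ∈ cd d n := by
  have h1 : (loc (zs d j), 0) ∈ zs d (j + 1) := List.mem_cons_self
  exact List.mem_cons_of_mem _ (sub_zs' d (show j + 1 ≤ n by omega) _ h1)

attribute [local semireducible] zs cd in
lemma cd_one (d : Ds) (n : ℕ) : (loc (zs d n), 1) ∈ cd d n := List.mem_cons_self

attribute [local semireducible] zs cd in
lemma sub_cd (d : Ds) (n : ℕ) : ∀ c ∈ d, c ∈ cd d n :=
  fun c hc => List.mem_cons_of_mem _ (sub_zs d n c hc)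

lemma sub_mid (e : ℕ) (d : Ds) : ∀ c ∈ cd d (nch hK e d), c ∈ mid hK e d := by
  intro c hc
  unfold mid nxt
  cases decide (K (nch hK e d) = 1)
  · exact List.mem_cons_of_mem _ hc
  · exact hc

lemma sub_dq (e : ℕ) : ∀ c ∈ mid hK e (dq hK e), c ∈ dq hK (e + 1) :=
  fun _ hc => List.mem_cons_of_mem _ hc

lemma dq_mono {e f : ℕ} (h : e ≤ f) : ∀ c ∈ dq hK e, c ∈ dq hK f := by
  induction f, h using Nat.le_induction with
  | base => exact fun c hc => hc
  | succ f _ ih => exact fun c hc => sub_dq hK f c (sub_mid hK f _ c (sub_cd _ _ c (ih c hc)))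

/-- a point of the intersection -/
lemma exists_X : ∃ X : ℕ → Bool, ∀ e t, PP B (dq hK e) t (px X t) := by
  let C : ℕ → Set (ℕ → Bool) := fun m => {X | PP B (dq hK m) m (px X m)}
  have hclosed : ∀ m, IsClosed (C m) := by
    intro m
    have h1 : Continuous (fun X : ℕ → Bool => (fun i : Fin m => X i)) := by fun_prop
    have h2 : C m = (fun X : ℕ → Bool => (fun i : Fin m => X i)) ⁻¹'
        {g : Fin m → Bool | PP B (dq hK m) m (List.ofFn g)} := by
      ext X
      have h3 : px X m = List.ofFn (fun i : Fin m => X i) := by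
        unfold px
        apply List.ext_getElem
        · simp
        · intro i h1 h2
          simp
      show PP B (dq hK m) m (px X m) ↔ PP B (dq hK m) m (List.ofFn (fun i : Fin m => X i))
      rw [h3]
    rw [h2]
    exact (isClosed_discrete _).preimage h1
  have hne : ∀ m, (C m).Nonempty := by
    intro m
    obtain ⟨ξ, hξ⟩ := NE_dq hK m m
    refine ⟨fun k => (ξ[k]?).getD false, ?_⟩
    have h1 : px (fun k => (ξ[k]?).getD false) m = ξ := by
      unfold px
      apply List.ext_getElem
      · simp [hξ.1]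
      · intro i h1 h2
        simp [List.getElem?_eq_getElem h2]
    show PP B (dq hK m) m (px _ m)
    rw [h1]
    exact hξ
  have hsub : ∀ m, C (m + 1) ⊆ C m := by
    intro m X hX
    have h1 : PP B (dq hK (m + 1)) (m + 1) (px X (m + 1)) := hX
    have h2 := PP_step h1
    rw [px_take (Nat.le_succ m)] at h2
    exact PP_sub (dq_mono hK (Nat.le_succ m)) h2
  obtain ⟨X, hX⟩ := IsCompact.nonempty_iInter_of_sequence_nonempty_isCompact_isClosed C hsub hne
    (hclosed 0).isCompact hclosed
  refine ⟨X, fun e t => ?_⟩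
  have h1 : PP B (dq hK (max e t)) (max e t) (px X (max e t)) := Set.mem_iInter.1 hX (max e t)
  have h2 := PP_take (le_max_right e t) h1
  rw [px_take (le_max_right e t)] at h2
  exact PP_sub (dq_mono hK (le_max_left e t)) h2

variable {hK}

lemma xb_pre {X : ℕ → Bool} {n k : ℕ} (h : k < n) : xb (pre (YY B X) n) k = some (X k) := by
  unfold xb YY
  rw [pre_getElem?, if_pos h]
  simp only [Option.map_some, Option.some.injEq, Nat.unpair_pair]
  cases X k <;> decide

lemma bit0 {X : ℕ → Bool} {d : Ds} (hX : ∀ t, PP B d t (px X t)) {k : ℕ} (h : (k, 0) ∈ d) :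
    X k = false := by
  have h1 := ((hX (k + 1)).2.2 _ h).2.1 rfl
  rw [px_get (Nat.lt_succ_self k)] at h1
  cases h2 : X k
  · rfl
  · rw [h2] at h1; exact absurd rfl h1

lemma bit1 {X : ℕ → Bool} {d : Ds} (hX : ∀ t, PP B d t (px X t)) {k : ℕ} (h : (k, 1) ∈ d) :
    X k = true := by
  have h1 := ((hX (k + 1)).2.2 _ h).2.2 rfl
  rw [px_get (Nat.lt_succ_self k)] at h1
  cases h2 : X k
  · rw [h2] at h1; exact absurd rfl h1
  · rfl

lemma true_ {X : ℕ → Bool} (hX : ∀ e t, PP B (dq hK e) t (px X t)) :
    True_ NN RD (YY B X) (dq hK) (fun e => cd (dq hK e) (nch hK e (dq hK e)))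
      (fun e => nch hK e (dq hK e)) := by
  have hmid : ∀ e t, PP B (mid hK e (dq hK e)) t (px X t) := fun e t =>
    PP_sub (sub_dq hK e) (hX (e + 1) t)
  have hcd : ∀ e t, PP B (cd (dq hK e) (nch hK e (dq hK e))) t (px X t) := fun e t =>
    PP_sub (sub_mid hK e _) (hmid e t)
  have hW : ∀ e, K (nch hK e (dq hK e)) = chW (YY B X) e := by
    intro e
    rcases nch_spec hK e (dq hK e) with ⟨h1, t, ht⟩ | ⟨h1, _⟩
    · rw [h1]
      have h2 : e ∈ ws (pre (YY B X) t) := by
        by_contra h3
        apply ht (px X t)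
        refine ⟨(hcd e t).1, (hcd e t).2.1, ?_⟩
        intro c hc
        rw [List.mem_cons] at hc
        rcases hc with rfl | hc
        · refine ⟨fun _ => ?_, fun h => absurd h (by norm_num), fun h => absurd h (by norm_num)⟩
          rw [← pre_YY]
          exact h3
        · exact (hcd e t).2.2 c hc
      unfold chW
      rw [if_pos ⟨t, h2⟩]
    · rw [h1]
      have h2 : (e, 2) ∈ mid hK e (dq hK e) := by
        unfold mid nxt
        rw [h1]
        exact List.mem_cons_self
      unfold chW
      rw [if_neg]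
      rintro ⟨t, ht⟩
      have h3 := ((hmid e t).2.2 _ h2).1 rfl
      rw [← pre_YY] at h3
      exact h3 ht
  refine ⟨rfl, fun e => ?_, hW, fun e => ?_⟩
  · set n0 := nch hK e (dq hK e) with hn0
    have hall : ∀ᶠ n in atTop, ∀ j ∈ Finset.range (n0 + 1), loc (zs (dq hK e) j) < n :=
      (Filter.eventually_all_finset _).2 (fun j _ => eventually_gt_atTop _)
    filter_upwards [hall, eventually_ge_atTop n0] with n h1 h2
    refine NN_some (by rw [pre_length]; exact h2) (fun j hj => ?_) ?_
    · rw [xb_pre (h1 j (Finset.mem_range.2 (by omega)))]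
      rw [bit0 (hcd e) (cd_zero _ hj)]
    · rw [xb_pre (h1 n0 (Finset.mem_range.2 (by omega)))]
      rw [bit1 (hcd e) (cd_one _ _)]
  · have h1 : nxt e (cd (dq hK e) (nch hK e (dq hK e))) (wb (YY B X) e) = mid hK e (dq hK e) := by
      unfold mid wb
      rw [← hW e]
    rw [h1]
    filter_upwards [eventually_gt_atTop (loc (mid hK e (dq hK e)))] with n hn
    unfold RD
    rw [xb_pre hn]
    have h2 : (loc (mid hK e (dq hK e)), (kb e).toNat) ∈ dq hK (e + 1) := List.mem_cons_self
    have h3 : X (loc (mid hK e (dq hK e))) = kb e := by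
      cases h4 : kb e
      · rw [h4] at h2
        exact bit0 (hX (e + 1)) h2
      · rw [h4] at h2
        exact bit1 (hX (e + 1)) h2
    rw [h3]
    rfl

lemma table {X : ℕ → Bool} (hX : ∀ e t, PP B (dq hK e) t (px X t)) {t x : ℕ} {v : Bool}
    (h : uv t x = some v) : X (2 * x) = v := by
  set s := max t (2 * x) with hs
  have h1 : uv s x = some v := uv_mono (le_max_left _ _) h
  have hk : 2 * x < s + 1 := by omega
  have h3 := (hX 0 (s + 1)).2.1 (2 * x) (List.mem_range.2 (by rw [px_length]; exact hk))
  rw [px_get hk] at h3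
  -- the entry of the table
  have hF : ∃ v', (TB B (s + 1))[2 * x]? = some (some v') ∧ v' = v := by
    have hgen : ∀ r, ∀ v', (TB B r)[2 * x]? = some (some v') → v' = v := by
      intro r
      induction r with
      | zero =>
        intro v' hv'
        have := (List.getElem?_eq_some_iff.1 hv').1
        rw [TB_length] at this
        omega
      | succ r ih =>
        intro v' hv'
        have hk' : 2 * x < r + 1 := by
          have := (List.getElem?_eq_some_iff.1 hv').1
          rw [TB_length] at this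
          exact this
        rw [TB_get hk', Option.some.injEq] at hv'
        unfold newv at hv'
        by_cases h4 : (((TB B r)[2 * x]?).getD none).isSome
        · rw [if_pos h4] at hv'
          apply ih
          cases h5 : (TB B r)[2 * x]? with
          | none => rw [h5] at hv'; simp at hv'
          | some o => rw [h5] at hv'; simp only [Option.getD_some] at hv'; rw [hv']
        · rw [if_neg h4, if_pos (by omega)] at hv'
          have h6 : 2 * x / 2 = x := by omega
          rw [h6] at hv'
          have h7 := uv_mono (le_max_left r t) hv'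
          have h8 := uv_mono (le_max_right r t) h
          rw [h7] at h8
          exact Option.some.inj h8
    have hdef : ∃ v', (TB B (s + 1))[2 * x]? = some (some v') := by
      rw [TB_get hk]
      unfold newv
      by_cases h4 : (((TB B s)[2 * x]?).getD none).isSome
      · rw [if_pos h4]
        obtain ⟨v', hv'⟩ := Option.isSome_iff_exists.1 h4
        exact ⟨v', by rw [hv']⟩
      · rw [if_neg h4, if_pos (by omega)]
        have h6 : 2 * x / 2 = x := by omega
        rw [h6, h1]
        exact ⟨v, rfl⟩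
    obtain ⟨v', hv'⟩ := hdef
    exact ⟨v', hv', hgen _ _ hv'⟩
  obtain ⟨v', hv', rfl⟩ := hF
  rw [hv'] at h3
  cases h5 : X (2 * x) <;> cases h6 : v' <;> rw [h5, h6] at h3 <;> simp at h3 ⊢

end con

/-- the main theorem of this file -/
theorem pa_exists (B : ℕ → ℕ) (hK : ¬ TR K B) : ∃ X : ℕ → Bool,
    (∃ c, ∀ n, KG (YY B X) (Encodable.encode (kstr n)) ≤ KG (YY B X) n + c) ∧
    ¬ TR K (YY B X) ∧ ∀ t x v, uv t x = some v → X (2 * x) = v := by
  obtain ⟨X, hX⟩ := exists_X hK
  exact ⟨X, mach_triv NN_p RD_p mono (true_ hX), mach_not NN_p RD_p mono (true_ hX),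
    fun t x v h => table hX h⟩

end Pool.Agent.H651.AP.PA
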