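import Pool.Agent.H651.AP.PAcls

set_option autoImplicit false

/-! Coding locations and the choice of the coded numbers. -/

namespace Pool.Agent.H651.AP.PA

open Nat.Partrec (Code)
open Filter
open Pool.Agent.Helper743
open Pool.Agent.H651.AP

lemma pre_get?_congr {B : ℕ → ℕ} {t n k : ℕ} (h : t ≤ n) (hk : k < t) :
    (pre B n)[k]? = (pre B t)[k]? := by
  rw [pre_getElem?, pre_getElem?, if_pos (by omega), if_pos hk]

lemma mem_congr {b b' : List ℕ} {F : List (Option Bool)} {d : Ds} {ξ : List Bool}
    (h : ∀ k, k < ξ.length → b[k]? = b'[k]?) : mem F b d ξ ↔ mem F b' d ξ := by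
  unfold mem
  rw [okD_congr h]

lemma noBit_congr {b b' : List ℕ} {t : ℕ} {F : List (Option Bool)} {d : Ds} {k : ℕ} {v : Bool}
    (h : ∀ k, k < t → b[k]? = b'[k]?) : noBit b t F d k v ↔ noBit b' t F d k v := by
  unfold noBit
  refine forall_congr' (fun ξ => imp_congr_right (fun hξ => ?_))
  have hl := mem_allb.1 hξ
  rw [mem_congr (b := b) (b' := b') (fun k hk => h k (by omega))]

lemma newv_congr {b b' : List ℕ} {t : ℕ} {F : List (Option Bool)} {k : ℕ}
    (h : ∀ k, k < t → b[k]? = b'[k]?) : newv b t F k = newv b' t F k := by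
  classical
  have : rule b t F k = rule b' t F k := by
    unfold rule
    simp only [noBit_congr h]
  unfold newv
  rw [this]

lemma tab_congr {b b' : List ℕ} {t : ℕ} (h : ∀ k, k < t → b[k]? = b'[k]?) :
    tab b t = tab b' t := by
  induction t with
  | zero => rfl
  | succ t ih =>
    rw [tab_succ, tab_succ, ih (fun k hk => h k (by omega))]
    apply List.map_congr_left
    intro k _
    exact newv_congr (fun k hk => h k (by omega))

lemma tab_mono {b : List ℕ} {t k : ℕ} {v : Bool} (h : (tab b t)[k]? = some (some v)) :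
    (tab b (t + 1))[k]? = some (some v) := by
  have hk : k < t := by
    have := (List.getElem?_eq_some_iff.1 h).1
    rw [tab_length] at this
    exact this
  rw [tab_get (by omega)]
  unfold newv
  rw [h]
  rfl

/-- the table of stage `t` -/
noncomputable def TB (B : ℕ → ℕ) (t : ℕ) : List (Option Bool) := tab (pre B t) t

lemma TB_eq {B : ℕ → ℕ} {t n : ℕ} (h : t ≤ n) : tab (pre B n) t = TB B t :=
  tab_congr (fun _ hk => pre_get?_congr h hk)

lemma TB_length (B : ℕ → ℕ) (t : ℕ) : (TB B t).length = t := tab_length _ _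

lemma TB_mono {B : ℕ → ℕ} {t k : ℕ} {v : Bool} (h : (TB B t)[k]? = some (some v)) :
    (TB B (t + 1))[k]? = some (some v) := by
  rw [← TB_eq (Nat.le_succ t)] at h
  exact tab_mono h

lemma TB_get {B : ℕ → ℕ} {t k : ℕ} (h : k < t + 1) :
    (TB B (t + 1))[k]? = some (newv (pre B t) t (TB B t) k) := by
  unfold TB
  rw [tab_get h, TB_eq (Nat.le_succ t)]
  rw [newv_congr (b := pre B (t + 1)) (b' := pre B t)
    (fun k hk => pre_get?_congr (Nat.le_succ t) hk)]
  rfl

/-- the strings of length `t` in the class at stage `t` -/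
def PP (B : ℕ → ℕ) (d : Ds) (t : ℕ) (ξ : List Bool) : Prop :=
  ξ.length = t ∧ mem (TB B t) (pre B t) d ξ

lemma emp_iff {B : ℕ → ℕ} {t : ℕ} {d : Ds} : emp (pre B t) t d ↔ ∀ ξ, ¬ PP B d t ξ := by
  unfold emp PP TB
  constructor
  · intro h ξ hξ
    exact h ξ (mem_allb.2 hξ.1) hξ.2
  · intro h ξ hξ hm
    exact h ξ ⟨mem_allb.1 hξ, hm⟩

lemma PP_step {B : ℕ → ℕ} {d : Ds} {t : ℕ} {ξ : List Bool} (h : PP B d (t + 1) ξ) :
    PP B d t (ξ.take t) := by
  obtain ⟨h1, h2, h3⟩ := h
  have hl : (ξ.take t).length = t := by rw [List.length_take]; omega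
  refine ⟨hl, ?_, ?_⟩
  · intro k hk
    rw [hl, List.mem_range] at hk
    have hg : (ξ.take t)[k]? = ξ[k]? := List.getElem?_take_of_lt hk
    rw [hg]
    have h4 := h2 k (by rw [List.mem_range]; omega)
    exact ⟨fun h5 => h4.1 (TB_mono h5), fun h5 => h4.2 (TB_mono h5)⟩
  · have h4 := okD_mono (List.take_prefix t ξ) h3
    refine (okD_congr (fun k hk => ?_)).1 h4
    exact pre_get?_congr (Nat.le_succ t) (by omega)

lemma PP_take {B : ℕ → ℕ} {d : Ds} {s t : ℕ} {ξ : List Bool} (hst : s ≤ t) (h : PP B d t ξ) :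
    PP B d s (ξ.take s) := by
  induction t, hst using Nat.le_induction generalizing ξ with
  | base => rw [← h.1, List.take_length, h.1]; exact h
  | succ t hs ih =>
    have h1 := ih (PP_step h)
    rw [List.take_take, min_eq_left hs] at h1
    exact h1

lemma PP_sub {B : ℕ → ℕ} {d d' : Ds} {t : ℕ} {ξ : List Bool} (hd : ∀ c ∈ d, c ∈ d')
    (h : PP B d' t ξ) : PP B d t ξ :=
  ⟨h.1, h.2.1, fun c hc => h.2.2 c (hd c hc)⟩

/-- the class is not empty -/
def NE (B : ℕ → ℕ) (d : Ds) : Prop := ∀ t, ∃ ξ, PP B d t ξ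

lemma tab_origin {B : ℕ → ℕ} {d : Ds} {v : Bool} (t : ℕ)
    (h : (TB B t)[loc d]? = some (some v)) :
    ∃ s, loc d < s ∧ noBit (pre B s) s (TB B s) d (loc d) v ∧
      (TB B (s + 1))[loc d]? = some (some v) := by
  classical
  induction t with
  | zero =>
    have := (List.getElem?_eq_some_iff.1 h).1
    rw [TB_length] at this
    omega
  | succ t ih =>
    have hk : loc d < t + 1 := by
      have := (List.getElem?_eq_some_iff.1 h).1
      rw [TB_length] at this
      exact this
    have h0 := h
    rw [TB_get hk, Option.some.injEq] at h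
    unfold newv at h
    by_cases h1 : (((TB B t)[loc d]?).getD none).isSome
    · rw [if_pos h1] at h
      apply ih
      cases h2 : (TB B t)[loc d]? with
      | none => rw [h2] at h; simp at h
      | some o => rw [h2] at h; simp only [Option.getD_some] at h; rw [h]
    · rw [if_neg h1, if_neg (by unfold loc; omega)] at h
      unfold rule at h
      by_cases h2 : loc d < t
      · rw [if_pos h2, dd_loc] at h
        refine ⟨t, h2, ?_, h0⟩
        by_cases h3 : noBit (pre B t) t (TB B t) d (loc d) false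
        · rw [if_pos h3] at h
          have hv : false = v := Option.some.inj h
          rw [← hv]; exact h3
        · rw [if_neg h3] at h
          by_cases h4 : noBit (pre B t) t (TB B t) d (loc d) true
          · rw [if_pos h4] at h
            have hv : true = v := Option.some.inj h
            rw [← hv]; exact h4
          · rw [if_neg h4] at h; exact absurd h (by simp)
      · rw [if_neg h2] at h; exact absurd h (by simp)

/-- the coding location of a nonempty class is free -/
theorem coding {B : ℕ → ℕ} {d : Ds} (h : NE B d) (v : Bool) : NE B ((loc d, v.toNat) :: d) := by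
  classical
  by_contra hne
  unfold NE at hne
  push Not at hne
  obtain ⟨t0, ht0⟩ := hne
  set t := max t0 (loc d + 1) with ht
  have hno : ∀ ξ, ¬ PP B ((loc d, v.toNat) :: d) t ξ := fun ξ hξ =>
    ht0 _ (PP_take (le_max_left _ _) hξ)
  have hnb : noBit (pre B t) t (TB B t) d (loc d) v := by
    intro ξ hξ hm hb
    apply hno ξ
    refine ⟨mem_allb.1 hξ, hm.1, ?_⟩
    intro c hc
    rw [List.mem_cons] at hc
    rcases hc with rfl | hc
    · refine ⟨fun h1 => ?_, fun h1 => ?_, fun h1 => ?_⟩
      · cases v <;> simp at h1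
      · simp only at h1 ⊢
        rw [hb]
        cases v
        · simp
        · simp at h1
      · simp only at h1 ⊢
        rw [hb]
        cases v
        · simp at h1
        · simp
    · exact hm.2 c hc
  have hlt : loc d < t := by omega
  obtain ⟨v', hv'⟩ : ∃ v', (TB B (t + 1))[loc d]? = some (some v') := by
    rw [TB_get (by omega)]
    unfold newv
    by_cases h1 : (((TB B t)[loc d]?).getD none).isSome
    · rw [if_pos h1]
      obtain ⟨v', hv'⟩ := Option.isSome_iff_exists.1 h1
      exact ⟨v', by rw [hv']⟩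
    · rw [if_neg h1, if_neg (by unfold loc; omega)]
      unfold rule
      rw [if_pos hlt, dd_loc]
      by_cases h3 : noBit (pre B t) t (TB B t) d (loc d) false
      · rw [if_pos h3]; exact ⟨false, rfl⟩
      · rw [if_neg h3]
        have h4 : noBit (pre B t) t (TB B t) d (loc d) true := by
          cases v
          · exact absurd hnb h3
          · exact hnb
        rw [if_pos h4]; exact ⟨true, rfl⟩
  obtain ⟨s, hs1, hs2, hs3⟩ := tab_origin (t + 1) hv'
  obtain ⟨ξ, hξ⟩ := h (s + 1)
  have hb : ξ[loc d]? = some v' := by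
    have hlen : loc d < ξ.length := by rw [hξ.1]; omega
    have h5 := hξ.2.1 (loc d) (List.mem_range.2 hlen)
    rw [hs3] at h5
    obtain ⟨u, hu⟩ : ∃ u, ξ[loc d]? = some u := ⟨_, List.getElem?_eq_getElem hlen⟩
    rw [hu] at h5 ⊢
    cases v' <;> cases u <;> simp at h5 ⊢
  have h6 := PP_step hξ
  apply hs2 (ξ.take s) (mem_allb.2 h6.1) h6.2
  rw [List.getElem?_take_of_lt hs1]
  exact hb

/-! ### numbers -/

def zs (d : Ds) (i : ℕ) : Ds := Nat.rec d (fun _ c => (loc c, 0) :: c) i

def cd (d : Ds) (n : ℕ) : Ds := (loc (zs d n), 1) :: zs d n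

lemma loc_p : Primrec loc :=
  Primrec.succ.comp (Primrec.nat_mul.comp (Primrec.const 2) Primrec.encode)

attribute [local irreducible] loc in
lemma zs_p : Primrec₂ zs := by
  have h1 : Primrec₂ (fun (_ : Ds × ℕ) (z : ℕ × Ds) => (loc z.2, 0) :: z.2) :=
    Primrec.list_cons.comp ((loc_p.comp (Primrec.snd.comp Primrec.snd)).pair (Primrec.const 0))
      (Primrec.snd.comp Primrec.snd)
  exact Primrec.nat_rec' Primrec.snd Primrec.fst h1

attribute [local irreducible] loc zs in
lemma cd_p : Primrec₂ cd :=
  Primrec.list_cons.comp ((loc_p.comp zs_p).pair (Primrec.const 1)) zs_p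

lemma NE_zs {B : ℕ → ℕ} {d : Ds} (h : NE B d) (i : ℕ) : NE B (zs d i) := by
  induction i with
  | zero => exact h
  | succ i ih => exact coding ih false

lemma NE_cd {B : ℕ → ℕ} {d : Ds} (h : NE B d) (n : ℕ) : NE B (cd d n) := coding (NE_zs h n) true

lemma K_01 (n : ℕ) : K n = 0 ∨ K n = 1 := by
  classical
  unfold K
  split_ifs
  · exact Or.inr rfl
  · exact Or.inl rfl

attribute [local irreducible] cd emp hlt' in
/-- the choice of the coded number -/
theorem pr {B : ℕ → ℕ} (hK : ¬ TR K B) (e : ℕ) (d : Ds) :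
    ∃ n, (K n = 1 ∧ ∃ t, ∀ ξ, ¬ PP B ((e, 2) :: cd d n) t ξ) ∨
      (K n = 0 ∧ NE B ((e, 2) :: cd d n)) := by
  classical
  by_contra hno
  push Not at hno
  apply hK
  have h1 : PrimrecPred (fun q : (List ℕ × ℕ) × ℕ => hlt' q.1.2 q.2 = true) :=
    Primrec.eq.comp (hlt'_primrec.comp (Primrec.snd.comp Primrec.fst) Primrec.snd)
      (Primrec.const true)
  have h2 : PrimrecPred (fun q : (List ℕ × ℕ) × ℕ =>
      emp q.1.1 q.1.1.length ((e, 2) :: cd d q.1.2)) :=
    emp_p.comp (((Primrec.fst.comp Primrec.fst).pair (Primrec.list_length.comp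
      (Primrec.fst.comp Primrec.fst))).pair (Primrec.list_cons.comp (Primrec.const (e, 2))
        (cd_p.comp (Primrec.const d) (Primrec.snd.comp Primrec.fst))))
  have h3 := Primrec.ite h1 (Primrec.const (some 1))
    (Primrec.ite h2 (Primrec.const (some 0)) (Primrec.const (none : Option ℕ)))
  refine cert (TR.refl B) (fun β x w => if hlt' x w = true then some 1 else
    if emp β β.length ((e, 2) :: cd d x) then some 0 else none) h3.to_comp K ?_ ?_
  · intro x
    rcases K_01 x with hx | hx
    · have h4 := (hno x).2 hx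
      unfold NE at h4
      push Not at h4
      obtain ⟨t, ht⟩ := h4
      refine ⟨t, 0, ?_⟩
      have h5 : ¬ hlt' x 0 = true := by
        intro h6
        have := PR.K_one.2 ⟨0, h6⟩
        omega
      rw [if_neg h5, pre_length, if_pos (emp_iff.2 ht)]
      rfl
    · obtain ⟨w, hw⟩ := PR.K_one.1 hx
      refine ⟨0, w, ?_⟩
      rw [if_pos hw]
      rfl
  · intro x n w y hy
    by_cases h6 : hlt' x w = true
    · rw [if_pos h6] at hy
      have := PR.K_one.2 ⟨w, h6⟩
      have := Option.some.inj hy
      omega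
    · rw [if_neg h6] at hy
      by_cases h7 : emp (pre B n) (pre B n).length ((e, 2) :: cd d x)
      · rw [if_pos h7] at hy
        rw [pre_length, emp_iff] at h7
        rcases K_01 x with hx | hx
        · have := Option.some.inj hy
          omega
        · obtain ⟨ξ, hξ⟩ := (hno x).1 hx n
          exact absurd hξ (h7 ξ)
      · rw [if_neg h7] at hy
        exact absurd hy (by simp)

end Pool.Agent.H651.AP.PA
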