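import Pool.Agent.H651.AP.RNcnt

set_option autoImplicit false

/-! Effectively closed classes of random sets, all of positive measure: definitions and
effectiveness. -/

namespace Pool.Agent.H651.AP.RN

open Nat.Partrec (Code)
open Filter
open Pool.Agent.Helper743
open Pool.Agent.H651.AP

/-- a prefix of `ξ` has been enumerated into the `(c+3)`-th component of the test `c` -/
def VV (c t : ℕ) (ξ : List Bool) : Prop :=
  ∃ i ∈ List.range (ξ.length + 1), (Code.evaln t (Denumerable.ofNat Code c)
    (Encodable.encode (c + 3, ξ.take i))).isSome = true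

noncomputable def cV (c t : ℕ) : ℕ :=
  open Classical in ((allb t).filter (fun ξ => decide (VV c t ξ))).length

def tk (c t : ℕ) (ξ : List Bool) : Prop := VV c t ξ ∧ cV c t * 2 ^ (c + 3) ≤ 2 ^ t

def dC (c : ℕ) : Ds := (Encodable.decode (α := Ds) c).getD []

noncomputable def cD (c : ℕ) (L : List (List Bool)) : ℕ :=
  open Classical in (L.filter (fun ξ => decide (okD [] ξ (dC c)))).length

def dk (c t : ℕ) (L : List (List Bool)) (ξ : List Bool) : Prop :=
  okD [] ξ (dC c) ∧ cD c L * 2 ^ (c + 3) ≤ 2 ^ t

def kill (t : ℕ) (L : List (List Bool)) (ξ : List Bool) : Prop :=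
  ∃ c ∈ List.range t, tk c t ξ ∨ dk c t L ξ

noncomputable def stepA (t : ℕ) (L : List (List Bool)) : List (List Bool) :=
  open Classical in
  (allb (t + 1)).filter (fun η => decide (η.take t ∈ L ∧ ¬ kill t L (η.take t)))

/-- the strings of length `t` which are alive -/
noncomputable def al (t : ℕ) : List (List Bool) := Nat.rec [[]] (fun t L => stepA t L) t

lemma al_succ (t : ℕ) : al (t + 1) = stepA t (al t) := rfl

/-! ### primitive recursiveness -/

lemma VV_p : PrimrecPred (fun q : (ℕ × ℕ) × List Bool => VV q.1.1 q.1.2 q.2) := by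
  have c : Primrec (fun z : ℕ × ((ℕ × ℕ) × List Bool) => z.2.1.1) :=
    Primrec.fst.comp (Primrec.fst.comp Primrec.snd)
  have t : Primrec (fun z : ℕ × ((ℕ × ℕ) × List Bool) => z.2.1.2) :=
    Primrec.snd.comp (Primrec.fst.comp Primrec.snd)
  have x : Primrec (fun z : ℕ × ((ℕ × ℕ) × List Bool) => z.2.2.take z.1) :=
    Primrec.list_take.comp Primrec.fst (Primrec.snd.comp Primrec.snd)
  have e : Primrec (fun z : ℕ × ((ℕ × ℕ) × List Bool) =>
      Encodable.encode (z.2.1.1 + 3, z.2.2.take z.1)) :=
    Primrec.encode.comp ((Primrec.nat_add.comp c (Primrec.const 3)).pair x)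
  have h1 : PrimrecRel (fun (i : ℕ) (q : (ℕ × ℕ) × List Bool) =>
      (Code.evaln q.1.2 (Denumerable.ofNat Code q.1.1)
        (Encodable.encode (q.1.1 + 3, q.2.take i))).isSome = true) :=
    Primrec.eq.comp (Primrec.option_isSome.comp (Code.primrec_evaln.comp
      ((t.pair ((Primrec.ofNat Code).comp c)).pair e))) (Primrec.const true)
  exact h1.exists_mem_list.comp (Primrec.list_range.comp (Primrec.succ.comp
    (Primrec.list_length.comp Primrec.snd))) Primrec.id

attribute [local irreducible] VV

lemma cV_p : Primrec₂ cV := by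
  classical
  have h1 : PrimrecRel (fun (ξ : List Bool) (q : ℕ × ℕ) => VV q.1 q.2 ξ) :=
    VV_p.comp (Primrec.snd.pair Primrec.fst)
  have h2 := (PrimrecRel.listFilter h1).comp (allb_p.comp (Primrec.snd (α := ℕ) (β := ℕ)))
    Primrec.id
  refine (Primrec.list_length.comp h2).of_eq ?_
  intro q
  unfold cV
  rfl

attribute [local irreducible] cV

lemma pow2_p : Primrec (fun n : ℕ => 2 ^ n) := AC.pow_p

lemma tk_p : PrimrecPred (fun q : (ℕ × ℕ) × List Bool => tk q.1.1 q.1.2 q.2) := by
  have c : Primrec (fun q : (ℕ × ℕ) × List Bool => q.1.1) := Primrec.fst.comp Primrec.fst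
  have t : Primrec (fun q : (ℕ × ℕ) × List Bool => q.1.2) := Primrec.snd.comp Primrec.fst
  have h1 := Primrec.nat_le.comp (Primrec.nat_mul.comp (cV_p.comp c t)
    (pow2_p.comp (Primrec.nat_add.comp c (Primrec.const 3)))) (pow2_p.comp t)
  exact PrimrecPred.and VV_p h1

attribute [local irreducible] tk okD

lemma dC_p : Primrec dC := Primrec.option_getD.comp Primrec.decode (Primrec.const [])

attribute [local irreducible] dC

lemma okDC_p : PrimrecRel (fun (ξ : List Bool) (c : ℕ) => okD [] ξ (dC c)) :=
  okD_p.comp (((Primrec.const []).pair Primrec.fst).pair (dC_p.comp Primrec.snd))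

lemma cD_p : Primrec₂ cD := by
  classical
  have h2 := (PrimrecRel.listFilter okDC_p).comp (Primrec.snd (α := ℕ) (β := List (List Bool)))
    (Primrec.fst (α := ℕ) (β := List (List Bool)))
  refine (Primrec.list_length.comp h2).of_eq ?_
  intro q
  unfold cD
  rfl

attribute [local irreducible] cD

lemma dk_p : PrimrecPred (fun q : (ℕ × ℕ) × (List (List Bool) × List Bool) =>
    dk q.1.1 q.1.2 q.2.1 q.2.2) := by
  have c : Primrec (fun q : (ℕ × ℕ) × (List (List Bool) × List Bool) => q.1.1) :=
    Primrec.fst.comp Primrec.fst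
  have t : Primrec (fun q : (ℕ × ℕ) × (List (List Bool) × List Bool) => q.1.2) :=
    Primrec.snd.comp Primrec.fst
  have h1 := Primrec.nat_le.comp (Primrec.nat_mul.comp (cD_p.comp c (Primrec.fst.comp Primrec.snd))
    (pow2_p.comp (Primrec.nat_add.comp c (Primrec.const 3)))) (pow2_p.comp t)
  exact PrimrecPred.and (okDC_p.comp (Primrec.snd.comp Primrec.snd) c) h1

attribute [local irreducible] dk

lemma kill_p : PrimrecPred (fun q : (ℕ × List (List Bool)) × List Bool =>
    kill q.1.1 q.1.2 q.2) := by
  have c : Primrec (fun z : ℕ × ((ℕ × List (List Bool)) × List Bool) => z.1) := Primrec.fst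
  have t : Primrec (fun z : ℕ × ((ℕ × List (List Bool)) × List Bool) => z.2.1.1) :=
    Primrec.fst.comp (Primrec.fst.comp Primrec.snd)
  have L : Primrec (fun z : ℕ × ((ℕ × List (List Bool)) × List Bool) => z.2.1.2) :=
    Primrec.snd.comp (Primrec.fst.comp Primrec.snd)
  have x : Primrec (fun z : ℕ × ((ℕ × List (List Bool)) × List Bool) => z.2.2) :=
    Primrec.snd.comp Primrec.snd
  have h1 : PrimrecRel (fun (c : ℕ) (q : (ℕ × List (List Bool)) × List Bool) =>
      tk c q.1.1 q.2 ∨ dk c q.1.1 q.1.2 q.2) :=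
    PrimrecPred.or (tk_p.comp ((c.pair t).pair x)) (dk_p.comp ((c.pair t).pair (L.pair x)))
  exact h1.exists_mem_list.comp (Primrec.list_range.comp (Primrec.fst.comp Primrec.fst))
    Primrec.id

attribute [local irreducible] kill

lemma stepA_p : Primrec₂ stepA := by
  classical
  have h0 : PrimrecRel (fun (x : List Bool) (L : List (List Bool)) => x ∈ L) := by
    have r : PrimrecRel (fun (y x : List Bool) => y = x) := Primrec.eq
    have h2 := r.exists_mem_list.comp (Primrec.snd (α := List Bool) (β := List (List Bool)))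
      (Primrec.fst (α := List Bool) (β := List (List Bool)))
    refine h2.of_eq (fun z => ?_)
    simp
  have x : Primrec (fun z : List Bool × (ℕ × List (List Bool)) => z.1.take z.2.1) :=
    Primrec.list_take.comp (Primrec.fst.comp Primrec.snd) Primrec.fst
  have h1 : PrimrecRel (fun (η : List Bool) (q : ℕ × List (List Bool)) =>
      η.take q.1 ∈ q.2 ∧ ¬ kill q.1 q.2 (η.take q.1)) :=
    PrimrecPred.and (h0.comp x (Primrec.snd.comp Primrec.snd))
      (kill_p.comp (Primrec.snd.pair x)).not
  have h2 := (PrimrecRel.listFilter h1).comp (allb_p.comp (Primrec.succ.comp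
    (Primrec.fst (α := ℕ) (β := List (List Bool))))) Primrec.id
  refine h2.of_eq ?_
  intro q
  unfold stepA
  rfl

attribute [local irreducible] stepA

lemma al_p : Primrec al := Primrec.nat_rec₁ [[]] stepA_p

end Pool.Agent.H651.AP.RN
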