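import Pool.Agent.H651.AP.Cls

set_option autoImplicit false

/-! Counting binary strings. -/

namespace Pool.Agent.H651.AP.RN

open Pool.Agent.H651.AP

/-- the number of strings of length `t` with the property `p` -/
noncomputable def cN (t : ℕ) (p : List Bool → Prop) : ℕ :=
  open Classical in (allb t).countP (fun ξ => decide (p ξ))

lemma cN_zero (p : List Bool → Prop) [Decidable (p [])] : cN 0 p = if p [] then 1 else 0 := by
  classical
  unfold cN allb
  by_cases h : p [] <;> simp [h]

lemma cN_succ (t : ℕ) (p : List Bool → Prop) :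
    cN (t + 1) p = cN t (fun ξ => p (ξ ++ [false])) + cN t (fun ξ => p (ξ ++ [true])) := by
  classical
  unfold cN
  rw [allb_succ, List.countP_append, List.countP_map, List.countP_map]
  rfl

lemma cN_mono {t : ℕ} {p q : List Bool → Prop} (h : ∀ ξ, ξ.length = t → p ξ → q ξ) :
    cN t p ≤ cN t q := by
  classical
  unfold cN
  apply List.countP_mono_left
  intro ξ hξ hp
  simp only [decide_eq_true_eq] at hp ⊢
  exact h ξ (mem_allb.1 hξ) hp

lemma cN_congr {t : ℕ} {p q : List Bool → Prop} (h : ∀ ξ, ξ.length = t → (p ξ ↔ q ξ)) :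
    cN t p = cN t q :=
  le_antisymm (cN_mono (fun ξ hl hp => (h ξ hl).1 hp)) (cN_mono (fun ξ hl hp => (h ξ hl).2 hp))

lemma cN_true (t : ℕ) : cN t (fun _ => True) = 2 ^ t := by
  classical
  induction t with
  | zero => rw [cN_zero]; simp
  | succ t ih => rw [cN_succ, ih, pow_succ]; ring

lemma cN_or (t : ℕ) (p q : List Bool → Prop) :
    cN t (fun ξ => p ξ ∨ q ξ) ≤ cN t p + cN t q := by
  classical
  unfold cN
  induction allb t with
  | nil => simp
  | cons ξ l ih =>
    beta_reduce at ih ⊢
    simp only [List.countP_cons, decide_eq_true_eq]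
    by_cases hp : p ξ <;> by_cases hq : q ξ <;> simp only [hp, hq, if_true, if_false, or_true,
      true_or, or_false] <;> omega

lemma cN_not (t : ℕ) (p : List Bool → Prop) :
    cN t p + cN t (fun ξ => ¬ p ξ) = 2 ^ t := by
  classical
  rw [← cN_true]
  unfold cN
  induction allb t with
  | nil => simp
  | cons ξ l ih =>
    beta_reduce at ih ⊢
    simp only [List.countP_cons, decide_eq_true_eq, if_true]
    by_cases hp : p ξ <;> simp only [hp, if_true, if_false, not_true, not_false_iff] <;> omega

lemma cN_false (t : ℕ) {p : List Bool → Prop} (h : ∀ ξ, ξ.length = t → ¬ p ξ) : cN t p = 0 := by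
  have h1 := cN_not t p
  have h2 : cN t (fun ξ => ¬ p ξ) = cN t (fun _ => True) :=
    cN_congr (fun ξ hl => ⟨fun _ => trivial, fun _ => h ξ hl⟩)
  rw [h2, cN_true] at h1
  omega

lemma cN_ex (t : ℕ) (p : ℕ → List Bool → Prop) (n : ℕ) :
    cN t (fun ξ => ∃ c, c < n ∧ p c ξ) ≤ ∑ c ∈ Finset.range n, cN t (p c) := by
  induction n with
  | zero =>
    rw [cN_false t (fun ξ _ h => by obtain ⟨c, hc, _⟩ := h; omega)]
    exact Nat.zero_le _
  | succ n ih =>
    rw [Finset.sum_range_succ]
    refine le_trans (cN_mono (q := fun ξ => (∃ c, c < n ∧ p c ξ) ∨ p n ξ) ?_) (le_trans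
      (cN_or t _ _) (Nat.add_le_add_right ih _))
    rintro ξ _ ⟨c, hc, h⟩
    rcases Nat.lt_succ_iff_lt_or_eq.1 hc with h1 | h1
    · exact Or.inl ⟨c, h1, h⟩
    · subst h1; exact Or.inr h

lemma cN_pos {t : ℕ} {p : List Bool → Prop} (h : 0 < cN t p) : ∃ ξ, ξ.length = t ∧ p ξ := by
  by_contra hne
  push Not at hne
  rw [cN_false t hne] at h
  omega

lemma cN_take_add (s k : ℕ) (p : List Bool → Prop) :
    cN (s + k) (fun η => p (η.take s)) = 2 ^ k * cN s p := by
  induction k with
  | zero =>
    rw [Nat.add_zero, pow_zero, one_mul]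
    exact cN_congr (fun ξ hl => by rw [List.take_of_length_le (by omega)])
  | succ k ih =>
    rw [← Nat.add_assoc, cN_succ]
    have h1 : ∀ b : Bool, cN (s + k) (fun ξ => p ((ξ ++ [b]).take s)) =
        cN (s + k) (fun η => p (η.take s)) := by
      intro b
      exact cN_congr (fun ξ hl => by rw [List.take_append_of_le_length (by omega)])
    rw [h1, h1, ih, pow_succ]
    ring

lemma cN_take {s t : ℕ} (h : s ≤ t) (p : List Bool → Prop) :
    cN t (fun η => p (η.take s)) = 2 ^ (t - s) * cN s p := by
  obtain ⟨k, rfl⟩ := Nat.exists_eq_add_of_le h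
  rw [cN_take_add, Nat.add_sub_cancel_left]

lemma cN_eq (σ : List Bool) : cN σ.length (fun ξ => ξ = σ) = 1 := by
  classical
  induction σ using List.reverseRecOn with
  | nil => rw [List.length_nil, cN_zero]; simp
  | append_singleton σ b ih =>
    rw [List.length_append, List.length_singleton, cN_succ]
    have h1 : ∀ b' : Bool, cN σ.length (fun ξ => ξ ++ [b'] = σ ++ [b]) =
        if b' = b then 1 else 0 := by
      intro b'
      by_cases hb : b' = b
      · subst hb
        rw [if_pos rfl, ← ih]
        exact cN_congr (fun ξ _ => by simp)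
      · rw [if_neg hb]
        apply cN_false
        intro ξ _ h2
        have := List.append_inj_right' h2 rfl
        simp at this
        exact hb this
    rw [h1, h1]
    cases b <;> simp

lemma cN_prefix {σ : List Bool} {t : ℕ} (h : σ.length ≤ t) :
    cN t (fun η => η.take σ.length = σ) = 2 ^ (t - σ.length) := by
  rw [cN_take h (fun ξ => ξ = σ), cN_eq, mul_one]

/-- union bound over a finite set of strings -/
lemma cN_cover {t : ℕ} {p : List Bool → Prop} (S : Finset (List Bool))
    (hS : ∀ σ ∈ S, σ.length ≤ t) (h : ∀ ξ, ξ.length = t → p ξ → ∃ σ ∈ S, ξ.take σ.length = σ) :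
    cN t p ≤ ∑ σ ∈ S, 2 ^ (t - σ.length) := by
  classical
  induction S using Finset.induction_on generalizing p with
  | empty =>
    rw [cN_false t (fun ξ hl hp => by obtain ⟨σ, hσ, _⟩ := h ξ hl hp; simp at hσ)]
    exact Nat.zero_le _
  | insert σ S hσ ih =>
    rw [Finset.sum_insert hσ]
    have h1 : cN t p ≤ cN t (fun η => η.take σ.length = σ) +
        cN t (fun ξ => ∃ τ ∈ S, ξ.take τ.length = τ) := by
      refine le_trans (cN_mono ?_) (cN_or t _ _)
      intro ξ hl hp
      obtain ⟨τ, hτ, h2⟩ := h ξ hl hp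
      rw [Finset.mem_insert] at hτ
      rcases hτ with rfl | hτ
      · exact Or.inl h2
      · exact Or.inr ⟨τ, hτ, h2⟩
    rw [cN_prefix (hS σ (Finset.mem_insert_self _ _))] at h1
    have h2 := ih (p := fun ξ => ∃ τ ∈ S, ξ.take τ.length = τ)
      (fun τ hτ => hS τ (Finset.mem_insert_of_mem hτ)) (fun ξ _ hp => hp)
    omega

end Pool.Agent.H651.AP.RN
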