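import Pool.Agent.H651.AP.RNmeas

set_option autoImplicit false

/-! Coding bits into random sets: the first and the last extendible string. -/

namespace Pool.Agent.H651.AP.RN

open Nat.Partrec (Code)
open Filter
open Pool.Agent.Helper743
open Pool.Agent.Helper743.PR (findIdx_range)
open Pool.Agent.H651.AP

/-- the length of the coding strings -/
def ell (d : Ds) : ℕ := Encodable.encode d + 4

/-- the `i`-th string of length `ell d` -/
def sti (d : Ds) (i : ℕ) : List Bool := ((allb (ell d))[i]?).getD []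

lemma allb_length (s : ℕ) : (allb s).length = 2 ^ s := by
  induction s with
  | zero => rfl
  | succ s ih => rw [allb_succ, List.length_append, List.length_map, List.length_map, ih, pow_succ]
                 ring

lemma allb_nodup (s : ℕ) : (allb s).Nodup := by
  induction s with
  | zero => simp [allb]
  | succ s ih =>
    rw [allb_succ, List.nodup_append']
    have hinj : ∀ b : Bool, Function.Injective (fun β : List Bool => β ++ [b]) :=
      fun b β β' h => List.append_cancel_right h
    refine ⟨ih.map (hinj false), ih.map (hinj true), ?_⟩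
    intro ξ h1 h2
    rw [List.mem_map] at h1 h2
    obtain ⟨β, _, rfl⟩ := h1
    obtain ⟨γ, _, h3⟩ := h2
    have := List.append_inj_right' h3 rfl
    simp at this

lemma sti_length {d : Ds} {i : ℕ} (h : i < 2 ^ ell d) : (sti d i).length = ell d := by
  unfold sti
  have h1 : i < (allb (ell d)).length := by rw [allb_length]; exact h
  rw [List.getElem?_eq_getElem h1]
  exact mem_allb.1 (List.getElem_mem h1)

lemma sti_inj {d : Ds} {i j : ℕ} (hi : i < 2 ^ ell d) (hj : j < 2 ^ ell d)
    (h : sti d i = sti d j) : i = j := by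
  unfold sti at h
  have h1 : i < (allb (ell d)).length := by rw [allb_length]; exact hi
  have h2 : j < (allb (ell d)).length := by rw [allb_length]; exact hj
  rw [List.getElem?_eq_getElem h1, List.getElem?_eq_getElem h2] at h
  exact (List.Nodup.getElem_inj_iff (allb_nodup _)).1 h

lemma exists_sti {d : Ds} {ξ : List Bool} (h : ξ.length = ell d) : ∃ i, i < 2 ^ ell d ∧
    sti d i = ξ := by
  obtain ⟨i, hi, h1⟩ := List.mem_iff_getElem.1 (mem_allb.2 h)
  refine ⟨i, by rw [← allb_length]; exact hi, ?_⟩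
  unfold sti
  rw [List.getElem?_eq_getElem hi, h1]
  rfl

/-- no string of the class at stage `t` extends the `j`-th string -/
def dead (d : Ds) (t j : ℕ) : Prop := ∀ η ∈ al t, okD [] η d → η.take (ell d) ≠ sti d j

def LD (d : Ds) (t i : ℕ) : Prop := ∀ j ∈ List.range i, dead d t j

def RDd (d : Ds) (t i : ℕ) : Prop := ∀ j ∈ List.range (2 ^ ell d), i < j → dead d t j

lemma dead_mono {d : Ds} {s t j : ℕ} (h0 : ell d ≤ s) (hst : s ≤ t) (h : dead d s j) :
    dead d t j := by
  intro η hη ho he
  apply h (η.take s) (al_take hst hη) (okD_mono (List.take_prefix _ _) ho)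
  rw [List.take_take, min_eq_left h0]
  exact he

/-- the `i`-th string is extendible in the class -/
def Ex (d : Ds) (i : ℕ) : Prop := ∀ t, ell d ≤ t → ¬ dead d t i

lemma not_Ex {d : Ds} {i : ℕ} (h : ¬ Ex d i) : ∃ t0, ell d ≤ t0 ∧ ∀ t, t0 ≤ t → dead d t i := by
  unfold Ex at h
  push Not at h
  obtain ⟨t0, h0, h1⟩ := h
  exact ⟨t0, h0, fun t ht => dead_mono h0 ht h1⟩

/-- two extendible strings -/
lemma two {d : Ds} (h : NE d) (i0 : ℕ) : ∃ i, i < 2 ^ ell d ∧ i ≠ i0 ∧ Ex d i := by
  classical
  by_contra hno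
  push Not at hno
  have h1 : ∀ i, ∃ t0, ell d ≤ t0 ∧ (i < 2 ^ ell d → i ≠ i0 → ∀ t, t0 ≤ t → dead d t i) := by
    intro i
    by_cases hi : i < 2 ^ ell d ∧ i ≠ i0
    · obtain ⟨t0, h0, h1⟩ := not_Ex (hno i hi.1 hi.2)
      exact ⟨t0, h0, fun _ _ => h1⟩
    · exact ⟨ell d, le_refl _, fun h2 h3 => absurd ⟨h2, h3⟩ hi⟩
  choose f hf1 hf2 using h1
  set T := max (ell d) ((Finset.range (2 ^ ell d)).sup f) with hT
  have hm := PR_meas h (t := T) (by unfold ell at hT; omega)
  have hle : cN T (PR d T) ≤ 2 ^ (T - ell d) := by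
    by_cases hi0 : i0 < 2 ^ ell d
    · have h2 : cN T (PR d T) ≤ cN T (fun η => η.take (sti d i0).length = sti d i0) := by
        apply cN_mono
        intro η hl hη
        rw [sti_length hi0]
        have h3 : (η.take (ell d)).length = ell d := by
          rw [List.length_take, hl]; exact min_eq_left (le_max_left _ _)
        obtain ⟨i, hi, h4⟩ := exists_sti h3
        by_cases h5 : i = i0
        · rw [← h4, h5]
        · exfalso
          refine hf2 i hi h5 T ?_ η hη.1 hη.2 h4.symm
          exact le_trans (Finset.le_sup (f := f) (Finset.mem_range.2 hi)) (le_max_right _ _)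
      rw [cN_prefix (by rw [sti_length hi0]; exact le_max_left _ _), sti_length hi0] at h2
      exact h2
    · rw [cN_false]
      · exact Nat.zero_le _
      · intro η hl hη
        have h3 : (η.take (ell d)).length = ell d := by
          rw [List.length_take, hl]; exact min_eq_left (le_max_left _ _)
        obtain ⟨i, hi, h4⟩ := exists_sti h3
        refine hf2 i hi (by omega) T ?_ η hη.1 hη.2 h4.symm
        exact le_trans (Finset.le_sup (f := f) (Finset.mem_range.2 hi)) (le_max_right _ _)
  have h3 : 2 ^ T = 2 ^ (T - ell d) * 2 ^ (Encodable.encode d + 3) * 2 := by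
    rw [← pow_add, ← pow_succ]
    congr 1
    unfold ell at hT ⊢
    omega
  have h4 := Nat.mul_le_mul_right (2 ^ (Encodable.encode d + 3)) hle
  have h5 : 0 < 2 ^ (T - ell d) * 2 ^ (Encodable.encode d + 3) := by positivity
  omega

/-- the constraints fixing the first bits -/
def bitc (ξ : List Bool) : Ds := (List.range ξ.length).map (fun k => (k, ((ξ[k]?).getD false).toNat))

lemma okD_append {b : List ℕ} {ξ : List Bool} {d d' : Ds} (h1 : okD b ξ d) (h2 : okD b ξ d') :
    okD b ξ (d ++ d') := by
  intro c hc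
  rw [List.mem_append] at hc
  rcases hc with hc | hc
  · exact h1 c hc
  · exact h2 c hc

lemma okD_bitc {b : List ℕ} {η : List Bool} {ξ : List Bool} (h : η.take ξ.length = ξ) :
    okD b η (bitc ξ) := by
  intro c hc
  unfold bitc at hc
  rw [List.mem_map] at hc
  obtain ⟨k, hk, rfl⟩ := hc
  rw [List.mem_range] at hk
  have h1 : η[k]? = ξ[k]? := by
    rw [← h, List.getElem?_take_of_lt hk]
  refine ⟨fun h2 => ?_, fun h2 => ?_, fun h2 => ?_⟩
  · have h3 : ∀ v : Bool, v.toNat ≠ 2 := by decide
    exact absurd h2 (h3 _)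
  · simp only at h2 ⊢
    rw [h1]
    intro h3
    rw [h3] at h2
    simp at h2
  · simp only at h2 ⊢
    rw [h1]
    intro h3
    rw [h3] at h2
    simp at h2

lemma okD_bitc' {b : List ℕ} {η ξ : List Bool} (hl : η.length ≤ ξ.length) (h : ξ.take η.length = η) :
    okD b η (bitc ξ) := by
  intro c hc
  unfold bitc at hc
  rw [List.mem_map] at hc
  obtain ⟨k, hk, rfl⟩ := hc
  rw [List.mem_range] at hk
  have h1 : ∀ v, η[k]? = some v → ξ[k]? = some v := by
    intro v hv
    have hk' := (List.getElem?_eq_some_iff.1 hv).1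
    rw [← h, List.getElem?_take_of_lt hk'] at hv
    exact hv
  refine ⟨fun h2 => ?_, fun h2 => ?_, fun h2 => ?_⟩
  · have h3 : ∀ v : Bool, v.toNat ≠ 2 := by decide
    exact absurd h2 (h3 _)
  · simp only at h2 ⊢
    intro h3
    rw [h1 _ h3] at h2
    simp at h2
  · simp only at h2 ⊢
    intro h3
    rw [h1 _ h3] at h2
    simp at h2

lemma NE_ext {d : Ds} {i : ℕ} (hi : i < 2 ^ ell d) (h : Ex d i) : NE (bitc (sti d i) ++ d) := by
  have hbig : ∀ t, ell d ≤ t → ∃ ξ, PR (bitc (sti d i) ++ d) t ξ := by
    intro t ht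
    have h1 := h t ht
    unfold dead at h1
    push Not at h1
    obtain ⟨η, hη, ho, he⟩ := h1
    refine ⟨η, hη, okD_append (okD_bitc ?_) ho⟩
    rw [sti_length hi]
    exact he
  intro t
  obtain ⟨ξ, hξ⟩ := hbig (max t (ell d)) (le_max_right _ _)
  exact ⟨_, PR_take (le_max_left _ _) hξ⟩

/-- the first and the last extendible string -/
lemma firstlast {d : Ds} (h : NE d) : ∃ i : Bool → ℕ, (∀ b, i b < 2 ^ ell d ∧ Ex d (i b)) ∧
    i false < i true ∧ (∀ j, j < i false → ¬ Ex d j) ∧
    ∀ j, j < 2 ^ ell d → i true < j → ¬ Ex d j := by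
  classical
  have hex : ∃ i, i < 2 ^ ell d ∧ Ex d i := by
    obtain ⟨i, h1, _, h2⟩ := two h (2 ^ ell d)
    exact ⟨i, h1, h2⟩
  set a := Nat.find hex with ha
  have ha1 := Nat.find_spec hex
  rw [← ha] at ha1
  obtain ⟨b0, hb1, hb2, hb3⟩ := two h a
  set b := Nat.findGreatest (fun i => Ex d i) (2 ^ ell d - 1) with hb
  have hb4 : b0 ≤ b := Nat.le_findGreatest (by omega) hb3
  have hb5 : Ex d b := Nat.findGreatest_spec (P := fun i => Ex d i) (m := b0) (by omega) hb3
  have hb6 : b ≤ 2 ^ ell d - 1 := Nat.findGreatest_le _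
  have hab : a ≤ b0 := Nat.find_min' hex ⟨hb1, hb3⟩
  refine ⟨fun v => bif v then b else a, ?_, ?_, ?_, ?_⟩
  · intro v
    cases v
    · exact ha1
    · exact ⟨by simp only [cond_true]; omega, hb5⟩
  · simp only [cond_true, cond_false]
    omega
  · intro j hj hE
    simp only [cond_false] at hj
    exact Nat.find_min hex hj ⟨by omega, hE⟩
  · intro j hj1 hj2 hE
    simp only [cond_true] at hj2
    have := Nat.le_findGreatest (P := fun i => Ex d i) (n := 2 ^ ell d - 1) (m := j) (by omega) hE
    omega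

end Pool.Agent.H651.AP.RN
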