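import Pool.Agent.H651.AP.RNmain

set_option autoImplicit false

/-! The construction of the random set. -/

namespace Pool.Agent.H651.AP.RN

open Nat.Partrec (Code)
open Filter
open Pool.Agent.Helper743
open Pool.Agent.Helper743.AC (hl kstr)
open Pool.Agent.Helper743.PR (findIdx_range)
open Pool.Agent.Helper743.KT (KG)
open Pool.Agent.H651.AP

lemma bts_prefix {β β' : List ℕ} {l : ℕ} (h : β <+: β') (hl : l ≤ β.length) :
    bts β' l = bts β l := by
  obtain ⟨t, rfl⟩ := h
  unfold bts
  rw [List.take_append_of_le_length hl]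

lemma cnd_prefix {β β' : List ℕ} {d : Ds} (h : β <+: β') (hl : ell d ≤ β.length) :
    ix β' d = ix β d := by
  unfold ix
  rw [bts_prefix h hl]

lemma tt_spec {β : List ℕ} {d : Ds} (h : tt β d ≤ β.length) : cnd β d (tt β d) ∧
    ∀ s, s < tt β d → ¬ cnd β d s := by
  classical
  have h1 : (List.range (β.length + 1)).findIdx (fun t => decide (cnd β d t)) <
      (List.range (β.length + 1)).length := by
    rw [List.length_range]
    exact Nat.lt_succ_of_le h
  have h2 := List.findIdx_getElem (w := h1)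
  rw [List.getElem_range] at h2
  refine ⟨of_decide_eq_true h2, fun s hs => ?_⟩
  unfold tt at hs
  have h3 := List.not_of_lt_findIdx hs
  rw [List.getElem_range] at h3
  simpa using h3

lemma tt_eq {β : List ℕ} {d : Ds} {t : ℕ} (ht : t ≤ β.length) (h : cnd β d t)
    (h1 : ∀ s, s < t → ¬ cnd β d s) : tt β d = t := by
  classical
  unfold tt
  exact findIdx_range (by omega) (decide_eq_true h) (fun s hs => decide_eq_false (h1 s hs))

lemma mono : Mono NR RR := by
  classical
  constructor
  · intro β β' e d x _ hx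
    exact hx
  · intro β β' d y h hy
    unfold RR at hy
    by_cases hc : ell d ≤ β.length ∧ tt β d ≤ β.length
    · rw [if_pos hc] at hy
      have hl := h.length_le
      have hix := cnd_prefix h hc.1
      have hcn : ∀ t, cnd β' d t ↔ cnd β d t := by
        intro t
        unfold cnd
        rw [hix]
      obtain ⟨h1, h2⟩ := tt_spec hc.2
      have ht : tt β' d = tt β d := tt_eq (by omega) ((hcn _).2 h1)
        (fun s hs h3 => h2 s hs ((hcn _).1 h3))
      unfold RR
      rw [if_pos ⟨by omega, by rw [ht]; omega⟩, ht, hix, bts_prefix h hc.1]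
      exact hy
    · rw [if_neg hc] at hy
      exact absurd hy (by simp)

/-! ### the construction -/

noncomputable def mid (e : ℕ) (d : Ds) : Ds :=
  nxt e d (decide (K (Nat.pair c0 (Encodable.encode ((e, 2) :: d))) = 1))

noncomputable def chx (d : Ds) (b : Bool) : ℕ :=
  open Classical in if h : NE d then (firstlast h).choose b else 0

lemma chx_spec {d : Ds} (h : NE d) : (∀ b, chx d b < 2 ^ ell d ∧ Ex d (chx d b)) ∧
    chx d false < chx d true ∧ (∀ j, j < chx d false → ¬ Ex d j) ∧
    ∀ j, j < 2 ^ ell d → chx d true < j → ¬ Ex d j := by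
  have h1 : ∀ b, chx d b = (firstlast h).choose b := fun b => dif_pos h
  simp only [h1]
  exact (firstlast h).choose_spec

noncomputable def dst (e : ℕ) (d : Ds) : Ds :=
  bitc (sti (mid e d) (chx (mid e d) (kb e))) ++ mid e d

noncomputable def dq (e : ℕ) : Ds := Nat.rec [] (fun e d => dst e d) e

lemma dq_succ (e : ℕ) : dq (e + 1) = dst e (dq e) := rfl

lemma NE_mid {e : ℕ} {d : Ds} (h : NE d) : NE (mid e d) := by
  unfold mid nxt
  by_cases h1 : K (Nat.pair c0 (Encodable.encode ((e, 2) :: d))) = 1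
  · rw [decide_eq_true h1, cond_true]
    exact h
  · rw [decide_eq_false h1, cond_false]
    rw [K_c0, EMP_encode, not_not] at h1
    exact h1

lemma NE_dst {e : ℕ} {d : Ds} (h : NE d) : NE (dst e d) := by
  have h1 := NE_mid (e := e) h
  have h2 := (chx_spec h1).1 (kb e)
  exact NE_ext h2.1 h2.2

lemma NE_dq (e : ℕ) : NE (dq e) := by
  induction e with
  | zero => exact NE_nil
  | succ e ih => exact NE_dst ih

lemma sub_mid (e : ℕ) (d : Ds) : ∀ c ∈ d, c ∈ mid e d := by
  intro c hc
  unfold mid nxt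
  cases decide (K (Nat.pair c0 (Encodable.encode ((e, 2) :: d))) = 1)
  · exact List.mem_cons_of_mem _ hc
  · exact hc

lemma sub_dq (e : ℕ) : ∀ c ∈ mid e (dq e), c ∈ dq (e + 1) :=
  fun _ hc => List.mem_append_right _ hc

lemma dq_mono {e f : ℕ} (h : e ≤ f) : ∀ c ∈ dq e, c ∈ dq f := by
  induction f, h using Nat.le_induction with
  | base => exact fun c hc => hc
  | succ f _ ih => exact fun c hc => sub_dq f c (sub_mid f _ c (ih c hc))

lemma exists_X : ∃ X : ℕ → Bool, ∀ e t, PR (dq e) t (px X t) := by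
  let C : ℕ → Set (ℕ → Bool) := fun m => {X | PR (dq m) m (px X m)}
  have hclosed : ∀ m, IsClosed (C m) := by
    intro m
    have h1 : Continuous (fun X : ℕ → Bool => (fun i : Fin m => X i)) := by fun_prop
    have h2 : C m = (fun X : ℕ → Bool => (fun i : Fin m => X i)) ⁻¹'
        {g : Fin m → Bool | PR (dq m) m (List.ofFn g)} := by
      ext X
      have h3 : px X m = List.ofFn (fun i : Fin m => X i) := by
        unfold px
        apply List.ext_getElem
        · simp
        · intro i h1 h2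
          simp
      show PR (dq m) m (px X m) ↔ PR (dq m) m (List.ofFn (fun i : Fin m => X i))
      rw [h3]
    rw [h2]
    exact (isClosed_discrete _).preimage h1
  have hne : ∀ m, (C m).Nonempty := by
    intro m
    obtain ⟨ξ, hξ⟩ := NE_dq m m
    refine ⟨fun k => (ξ[k]?).getD false, ?_⟩
    have h1 : px (fun k => (ξ[k]?).getD false) m = ξ := by
      unfold px
      apply List.ext_getElem
      · simp [al_length hξ.1]
      · intro i h1 h2
        simp [List.getElem?_eq_getElem h2]
    show PR (dq m) m (px _ m)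
    rw [h1]
    exact hξ
  have hsub : ∀ m, C (m + 1) ⊆ C m := by
    intro m X hX
    have h1 : PR (dq (m + 1)) (m + 1) (px X (m + 1)) := hX
    have h2 := PR_take (Nat.le_succ m) h1
    rw [px_take (Nat.le_succ m)] at h2
    exact PR_sub (dq_mono (Nat.le_succ m)) h2
  obtain ⟨X, hX⟩ := IsCompact.nonempty_iInter_of_sequence_nonempty_isCompact_isClosed C hsub hne
    (hclosed 0).isCompact hclosed
  refine ⟨X, fun e t => ?_⟩
  have h1 : PR (dq (max e t)) (max e t) (px X (max e t)) := Set.mem_iInter.1 hX (max e t)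
  have h2 := PR_take (le_max_right e t) h1
  rw [px_take (le_max_right e t)] at h2
  exact PR_sub (dq_mono (le_max_left e t)) h2

/-- the oracle of a set -/
def YX (X : ℕ → Bool) : ℕ → ℕ := YY (fun _ => 0) X

lemma pre_YX (X : ℕ → Bool) (n : ℕ) : pre (YX X) n = zp [] (px X n) := by
  unfold YX
  rw [pre_YY]
  unfold zp
  apply List.map_congr_left
  intro k hk
  rw [List.mem_range, px_length] at hk
  rw [pre_getElem?, if_pos hk]
  rfl

lemma bts_pre {X : ℕ → Bool} {n l : ℕ} (h : l ≤ n) : bts (pre (YX X) n) l = px X l := by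
  unfold bts YX YY
  rw [AC.pre_take _ h]
  unfold pre px
  rw [List.map_map]
  apply List.map_congr_left
  intro k _
  simp only [Function.comp_apply, Nat.unpair_pair]
  cases X k <;> decide

lemma px_of_bitc {X : ℕ → Bool} {d : Ds} (hX : ∀ t, PR d t (px X t)) {ξ : List Bool}
    (h : ∀ c ∈ bitc ξ, c ∈ d) : px X ξ.length = ξ := by
  apply List.ext_getElem
  · simp
  · intro k h1 h2
    have h3 : (k, ((ξ[k]?).getD false).toNat) ∈ d := by
      apply h
      unfold bitc
      rw [List.mem_map]
      exact ⟨k, List.mem_range.2 h2, rfl⟩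
    have h4 := (hX (k + 1)).2 _ h3
    rw [List.getElem?_eq_getElem h2, Option.getD_some] at h4
    unfold okc at h4
    simp only at h4
    rw [px_get (Nat.lt_succ_self k)] at h4
    have h5 : (px X ξ.length)[k] = X k := by simp [px]
    rw [h5]
    cases h6 : X k <;> cases h7 : ξ[k] <;> rw [h6, h7] at h4 <;> simp at h4 ⊢

lemma true_ {X : ℕ → Bool} (hX : ∀ e t, PR (dq e) t (px X t)) :
    True_ NR RR (YX X) dq dq
      (fun e => Nat.pair c0 (Encodable.encode ((e, 2) :: dq e))) := by
  classical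
  have hmid : ∀ e t, PR (mid e (dq e)) t (px X t) := fun e t =>
    PR_sub (sub_dq e) (hX (e + 1) t)
  have hW : ∀ e, K (Nat.pair c0 (Encodable.encode ((e, 2) :: dq e))) = chW (YX X) e := by
    intro e
    by_cases h1 : K (Nat.pair c0 (Encodable.encode ((e, 2) :: dq e))) = 1
    · rw [h1]
      rw [K_c0] at h1
      obtain ⟨t, ht⟩ := h1
      rw [dC_encode] at ht
      have h2 : e ∈ ws (pre (YX X) t) := by
        by_contra h3
        apply ht (px X t) (hX e t).1
        intro c hc
        rw [List.mem_cons] at hc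
        rcases hc with rfl | hc
        · refine ⟨fun _ => ?_, fun h => absurd h (by norm_num), fun h => absurd h (by norm_num)⟩
          rw [← pre_YX]
          exact h3
        · exact (hX e t).2 c hc
      unfold chW
      rw [if_pos ⟨t, h2⟩]
    · have h2 : (e, 2) ∈ mid e (dq e) := by
        unfold mid nxt
        rw [decide_eq_false h1]
        exact List.mem_cons_self
      have h4 : K (Nat.pair c0 (Encodable.encode ((e, 2) :: dq e))) = 0 := by
        unfold K at h1 ⊢
        split_ifs at h1 ⊢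
        · exact absurd rfl h1
        · rfl
      rw [h4]
      unfold chW
      rw [if_neg]
      rintro ⟨t, ht⟩
      have h3 := ((hmid e t).2 _ h2).1 rfl
      rw [← pre_YX] at h3
      exact h3 ht
  refine ⟨rfl, fun e => Filter.Eventually.of_forall (fun n => rfl), hW, fun e => ?_⟩
  have h1 : nxt e (dq e) (wb (YX X) e) = mid e (dq e) := by
    unfold mid wb
    rw [← hW e]
  rw [h1]
  set m := mid e (dq e) with hm
  have hNE : NE m := NE_mid (NE_dq e)
  obtain ⟨c1, c2, c3, c4⟩ := chx_spec hNE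
  set i := chx m (kb e) with hi
  have hil := (c1 (kb e)).1
  -- the string of `X`
  have hst : px X (ell m) = sti m i := by
    have h2 := px_of_bitc (hX (e + 1)) (ξ := sti m i)
      (fun c hc => List.mem_append_left _ hc)
    rw [sti_length hil] at h2
    exact h2
  have hix : ∀ n, ell m ≤ n → ix (pre (YX X) n) m = i := by
    intro n hn
    unfold ix
    rw [bts_pre hn, hst]
    have hlen : i < (allb (ell m)).length := by rw [allb_length]; exact hil
    rw [List.findIdx_eq hlen]
    have hget : ∀ j (hj : j < (allb (ell m)).length), (allb (ell m))[j] = sti m j := by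
      intro j hj
      unfold sti
      rw [List.getElem?_eq_getElem hj]
      rfl
    refine ⟨by rw [hget i hlen]; simp, fun j hj => ?_⟩
    rw [hget j (by omega)]
    apply decide_eq_false
    intro h3
    have := sti_inj (d := m) (by rw [← allb_length]; omega) hil h3
    omega
  -- never both
  have hnotL : kb e = true → ∀ t, ell m ≤ t → ¬ LD m t i := by
    intro hk t ht h3
    refine (c1 false).2 t ht (h3 _ (List.mem_range.2 ?_))
    rw [hi, hk]; exact c2
  have hnotR : kb e = false → ∀ t, ell m ≤ t → ¬ RDd m t i := by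
    intro hk t ht h3
    refine (c1 true).2 t ht (h3 _ (List.mem_range.2 (c1 true).1) ?_)
    rw [hi, hk]; exact c2
  -- a stage
  have hstage : ∃ T, ell m ≤ T ∧ (LD m T i ∨ RDd m T i) := by
    have hbound : ∀ P : ℕ → Prop, (∀ j, P j → ¬ Ex m j) → ∃ T, ell m ≤ T ∧
        ∀ j, j < 2 ^ ell m → P j → dead m T j := by
      intro P hP
      have h3 : ∀ j, ∃ t0, ell m ≤ t0 ∧ (P j → ∀ t, t0 ≤ t → dead m t j) := by
        intro j
        by_cases hj : P j
        · obtain ⟨t0, h4, h5⟩ := not_Ex (hP j hj)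
          exact ⟨t0, h4, fun _ => h5⟩
        · exact ⟨ell m, le_refl _, fun h => absurd h hj⟩
      choose f hf1 hf2 using h3
      refine ⟨max (ell m) ((Finset.range (2 ^ ell m)).sup f), le_max_left _ _, ?_⟩
      intro j hj hPj
      exact hf2 j hPj _ (le_trans (Finset.le_sup (f := f) (Finset.mem_range.2 hj))
        (le_max_right _ _))
    cases hk : kb e with
    | false =>
      obtain ⟨T, h3, h4⟩ := hbound (fun j => j < i) (fun j hj => by
        rw [hi, hk] at hj; exact c3 j hj)
      refine ⟨T, h3, Or.inl (fun j hj => ?_)⟩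
      rw [List.mem_range] at hj
      exact h4 j (by omega) hj
    | true =>
      obtain ⟨T, h3, h4⟩ := hbound (fun j => j < 2 ^ ell m ∧ i < j) (fun j hj => by
        rw [hi, hk] at hj; exact c4 j hj.1 hj.2)
      refine ⟨T, h3, Or.inr (fun j hj hij => ?_)⟩
      rw [List.mem_range] at hj
      exact h4 j hj ⟨hj, hij⟩
  have hcnd : ∀ n, ell m ≤ n → ∀ t, cnd (pre (YX X) n) m t ↔
      (ell m ≤ t ∧ (LD m t i ∨ RDd m t i)) := by
    intro n hn t
    unfold cnd
    rw [hix n hn]
  filter_upwards [eventually_ge_atTop (Nat.find hstage), eventually_ge_atTop (ell m)] with n hn1 hn2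
  have htt : tt (pre (YX X) n) m = Nat.find hstage := by
    apply tt_eq (by rw [pre_length]; exact hn1)
    · rw [hcnd n hn2]; exact Nat.find_spec hstage
    · intro s hs h3
      rw [hcnd n hn2] at h3
      exact Nat.find_min hstage hs h3
  have hsp := Nat.find_spec hstage
  unfold RR
  rw [htt, pre_length, if_pos ⟨hn2, hn1⟩, hix n hn2, bts_pre hn2, hst]
  have hb : (! decide (LD m (Nat.find hstage) i)) = kb e := by
    cases hk : kb e with
    | false =>
      rcases hsp.2 with h3 | h3
      · rw [decide_eq_true h3]; rfl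
      · exact absurd h3 (hnotR hk _ hsp.1)
    | true =>
      rw [decide_eq_false (hnotL hk _ hsp.1)]; rfl
  rw [hb]
  rfl

/-! ### randomness -/

lemma random {X : ℕ → Bool} (hX : ∀ t, px X t ∈ al t) (U : ℕ → Set (List Bool))
    (hre : REPred (fun p : ℕ × List Bool => p.2 ∈ U p.1))
    (hmeas : ∀ n, ∀ S : Finset (List Bool), (∀ σ ∈ S, σ ∈ U n) →
      (∀ σ ∈ S, ∀ τ ∈ S, σ <+: τ → σ = τ) →
      ∑ σ ∈ S, (1 / 2 : ℝ) ^ σ.length ≤ (1 / 2) ^ n) :
    ∃ n, ∀ m : ℕ, px X m ∉ U n := by
  classical
  by_contra hno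
  push Not at hno
  obtain ⟨cc, hcc⟩ := Code.exists_code.1 (show Nat.Partrec _ from hre)
  have hdom : ∀ p : ℕ × List Bool, p.2 ∈ U p.1 ↔ (Code.eval cc (Encodable.encode p)).Dom := by
    intro p
    rw [hcc]
    simp only [Encodable.encodek, Part.coe_some, Part.bind_some, Part.map_Dom]
    constructor
    · intro h; exact ⟨h, trivial⟩
    · intro h; exact h.1
  set c := Encodable.encode cc with hc
  obtain ⟨m, hm⟩ := hno (c + 3)
  have hm1 := (hdom (c + 3, px X m)).1 hm
  obtain ⟨v, hv⟩ := Part.dom_iff_mem.1 hm1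
  obtain ⟨k, hk⟩ := Code.evaln_complete.1 hv
  set s := max k (max (c + 1) m) with hs
  have hks : k ≤ s := le_max_left _ _
  have hcs : c < s := lt_of_lt_of_le (Nat.lt_succ_self c) (le_trans (le_max_left _ _) (le_max_right _ _))
  have hms : m ≤ s := le_trans (le_max_right _ _) (le_max_right _ _)
  have hVX : VV c s (px X s) := by
    refine ⟨m, List.mem_range.2 (by rw [px_length]; omega), ?_⟩
    rw [px_take hms, hc, Denumerable.ofNat_encode]
    rw [Option.isSome_iff_exists]
    exact ⟨v, Code.evaln_mono hks hk⟩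
  have hVU : ∀ σ : List Bool, (Code.evaln s (Denumerable.ofNat Code c)
      (Encodable.encode (c + 3, σ))).isSome = true → σ ∈ U (c + 3) := by
    intro σ h
    rw [Option.isSome_iff_exists] at h
    obtain ⟨w, hw⟩ := h
    rw [hc, Denumerable.ofNat_encode] at hw
    exact (hdom (c + 3, σ)).2 (Part.dom_iff_mem.2 ⟨w, Code.evaln_sound hw⟩)
  -- minimal enumerated prefixes
  have hsmall : cV c s * 2 ^ (c + 3) ≤ 2 ^ s := by
    let E : List Bool → Prop := fun σ => (Code.evaln s (Denumerable.ofNat Code c)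
      (Encodable.encode (c + 3, σ))).isSome = true
    let S : Finset (List Bool) := ((Finset.range (s + 1)).biUnion
      (fun l => (allb l).toFinset)).filter (fun σ => E σ ∧ ∀ j, j < σ.length → ¬ E (σ.take j))
    have hS : ∀ σ ∈ S, σ.length ≤ s ∧ E σ ∧ ∀ j, j < σ.length → ¬ E (σ.take j) := by
      intro σ hσ
      rw [Finset.mem_filter, Finset.mem_biUnion] at hσ
      obtain ⟨⟨l, hl, h1⟩, h2⟩ := hσ
      rw [List.mem_toFinset, mem_allb] at h1
      rw [Finset.mem_range] at hl
      exact ⟨by omega, h2⟩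
    have hcov : cN s (VV c s) ≤ ∑ σ ∈ S, 2 ^ (s - σ.length) := by
      apply cN_cover S (fun σ hσ => (hS σ hσ).1)
      intro ξ hl hξ
      have hex : ∃ i, i ≤ s ∧ E (ξ.take i) := by
        obtain ⟨i, hi, h1⟩ := hξ
        rw [List.mem_range] at hi
        exact ⟨i, by omega, h1⟩
      have h1 := Nat.find_spec hex
      have hlen : (ξ.take (Nat.find hex)).length = Nat.find hex := by
        rw [List.length_take]; omega
      refine ⟨ξ.take (Nat.find hex), ?_, by rw [hlen]⟩
      rw [Finset.mem_filter, Finset.mem_biUnion]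
      refine ⟨⟨Nat.find hex, Finset.mem_range.2 (by omega), ?_⟩, h1.2, ?_⟩
      · rw [List.mem_toFinset, mem_allb]; exact hlen
      · intro j hj hE
        rw [hlen] at hj
        rw [List.take_take, min_eq_left hj.le] at hE
        exact Nat.find_min hex hj ⟨by omega, hE⟩
    have hpf : ∑ σ ∈ S, (1 / 2 : ℝ) ^ σ.length ≤ (1 / 2) ^ (c + 3) := by
      apply hmeas (c + 3) S (fun σ hσ => hVU σ (hS σ hσ).2.1)
      intro σ hσ τ hτ hp
      by_contra hne
      have hlt : σ.length < τ.length := by
        rcases lt_or_eq_of_le hp.length_le with h | h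
        · exact h
        · exact absurd (hp.eq_of_length h) hne
      apply (hS τ hτ).2.2 σ.length hlt
      rw [← List.prefix_iff_eq_take.1 hp]
      exact (hS σ hσ).2.1
    rw [cV_eq]
    have h1 : ((∑ σ ∈ S, 2 ^ (s - σ.length) : ℕ) : ℝ) =
        2 ^ s * ∑ σ ∈ S, (1 / 2 : ℝ) ^ σ.length := by
      push_cast
      rw [Finset.mul_sum]
      refine Finset.sum_congr rfl (fun σ hσ => ?_)
      have h2 := (hS σ hσ).1
      have h3 : (2 : ℝ) ^ s = 2 ^ (s - σ.length) * 2 ^ σ.length := by
        rw [← pow_add]; congr 1; omega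
      rw [h3, mul_assoc, ← mul_pow]
      norm_num
    have h2 : ((cN s (VV c s) : ℕ) : ℝ) ≤ 2 ^ s * (1 / 2) ^ (c + 3) := by
      calc ((cN s (VV c s) : ℕ) : ℝ) ≤ ((∑ σ ∈ S, 2 ^ (s - σ.length) : ℕ) : ℝ) := by
            exact_mod_cast hcov
        _ = 2 ^ s * ∑ σ ∈ S, (1 / 2 : ℝ) ^ σ.length := h1
        _ ≤ _ := mul_le_mul_of_nonneg_left hpf (by positivity)
    have h3 : (((cN s (VV c s)) * 2 ^ (c + 3) : ℕ) : ℝ) ≤ ((2 ^ s : ℕ) : ℝ) := by
      push_cast
      calc ((cN s (VV c s) : ℕ) : ℝ) * 2 ^ (c + 3) ≤ 2 ^ s * (1 / 2) ^ (c + 3) * 2 ^ (c + 3) :=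
            mul_le_mul_of_nonneg_right h2 (by positivity)
        _ = 2 ^ s := by rw [mul_assoc, ← mul_pow]; norm_num
    exact_mod_cast h3
  have hk1 := al_not_kill (Nat.lt_succ_self s) (hX (s + 1))
  rw [px_take (Nat.le_succ s)] at hk1
  exact hk1 ⟨c, List.mem_range.2 hcs, Or.inl ⟨hVX, hsmall⟩⟩

/-- the main theorem of this file -/
theorem rn_exists : ∃ X : ℕ → Bool,
    (∃ c, ∀ n, KG (YX X) (Encodable.encode (kstr n)) ≤ KG (YX X) n + c) ∧ ¬ TR K (YX X) ∧
    ∀ U : ℕ → Set (List Bool), REPred (fun p : ℕ × List Bool => p.2 ∈ U p.1) →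
      (∀ n, ∀ S : Finset (List Bool), (∀ σ ∈ S, σ ∈ U n) →
        (∀ σ ∈ S, ∀ τ ∈ S, σ <+: τ → σ = τ) →
        ∑ σ ∈ S, (1 / 2 : ℝ) ^ σ.length ≤ (1 / 2) ^ n) →
      ∃ n, ∀ m : ℕ, px X m ∉ U n := by
  obtain ⟨X, hX⟩ := exists_X
  exact ⟨X, mach_triv NR_p RR_p mono (true_ hX), mach_not NR_p RR_p mono (true_ hX),
    fun U h1 h2 => random (fun t => (hX 0 t).1) U h1 h2⟩

end Pool.Agent.H651.AP.RN
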