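import Pool.Agent.H651.AP.RNcode

set_option autoImplicit false

/-! A Martin-Löf random set which does not compute the halting problem, and relative to which the
halting problem is K-trivial. -/

namespace Pool.Agent.H651.AP.RN

open Nat.Partrec (Code)
open Filter
open Pool.Agent.Helper743
open Pool.Agent.Helper743.AC (hl kstr)
open Pool.Agent.Helper743.PR (findIdx_range)
open Pool.Agent.Helper743.KT (KG)
open Pool.Agent.H651.AP

/-! ### the predicate of emptiness -/

def EMP (z : ℕ) : Prop := ∃ t, ∀ ξ ∈ al t, ¬ okD [] ξ (dC z)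

attribute [local irreducible] al okD dC in
lemma EMP_re : REPred EMP := by
  classical
  have r : PrimrecRel (fun (ξ : List Bool) (z : ℕ) => ¬ okD [] ξ (dC z)) := okDC_p.not
  have h1 : PrimrecPred (fun q : ℕ × ℕ => ∀ ξ ∈ al q.2, ¬ okD [] ξ (dC q.1)) :=
    r.forall_mem_list.comp (al_p.comp Primrec.snd) Primrec.fst
  have h2 : Computable₂ (fun z t : ℕ => decide (∀ ξ ∈ al t, ¬ okD [] ξ (dC z))) :=
    h1.decide.to_comp
  refine (Partrec.rfind h2.partrec₂).dom_re.of_eq ?_
  intro z
  unfold EMP
  refine Iff.trans (Nat.rfind_dom (p := fun t => (Part.some (decide (∀ ξ ∈ al t,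
    ¬ okD [] ξ (dC z))) : Part Bool))) ?_
  constructor
  · rintro ⟨t, ht, _⟩
    rw [Part.mem_some_iff] at ht
    exact ⟨t, of_decide_eq_true ht.symm⟩
  · rintro ⟨t, ht⟩
    refine ⟨t, ?_, fun {m} _ => trivial⟩
    rw [Part.mem_some_iff]
    exact (decide_eq_true ht).symm

noncomputable def c0 : ℕ := Encodable.encode (re_code EMP_re).choose

lemma K_c0 (z : ℕ) : K (Nat.pair c0 z) = 1 ↔ EMP z := by
  classical
  have h := (re_code EMP_re).choose_spec z
  unfold K
  rw [Nat.unpair_pair]
  simp only
  unfold c0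
  rw [Denumerable.ofNat_encode]
  rw [h]
  split_ifs with h1
  · simp [h1]
  · simp [h1]

lemma EMP_encode (d : Ds) : EMP (Encodable.encode d) ↔ ¬ NE d := by
  unfold EMP NE PR
  rw [dC_encode]
  push Not
  rfl

/-! ### decoding -/

noncomputable def NR (_β : List ℕ) (e : ℕ) (d : Ds) : Option (ℕ × Ds) :=
  some (Nat.pair c0 (Encodable.encode ((e, 2) :: d)), d)

def bts (β : List ℕ) (l : ℕ) : List Bool := (β.take l).map (fun z => decide (z.unpair.2 = 1))

def ix (β : List ℕ) (d : Ds) : ℕ :=
  (allb (ell d)).findIdx (fun x => decide (x = bts β (ell d)))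

def cnd (β : List ℕ) (d : Ds) (t : ℕ) : Prop :=
  ell d ≤ t ∧ (LD d t (ix β d) ∨ RDd d t (ix β d))

noncomputable def tt (β : List ℕ) (d : Ds) : ℕ :=
  open Classical in (List.range (β.length + 1)).findIdx (fun t => decide (cnd β d t))

noncomputable def RR (β : List ℕ) (d : Ds) : Option (Bool × Ds) :=
  open Classical in
  if ell d ≤ β.length ∧ tt β d ≤ β.length then
    some (! decide (LD d (tt β d) (ix β d)), bitc (bts β (ell d)) ++ d) else none

lemma NR_p : Primrec (fun q : (List ℕ × ℕ) × Ds => NR q.1.1 q.1.2 q.2) :=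
  Primrec.option_some.comp ((Primrec₂.natPair.comp (Primrec.const c0) (Primrec.encode.comp
    (Primrec.list_cons.comp ((Primrec.snd.comp Primrec.fst).pair (Primrec.const 2))
      Primrec.snd))).pair Primrec.snd)

lemma ell_p : Primrec ell := Primrec.nat_add.comp Primrec.encode (Primrec.const 4)

attribute [local irreducible] ell al allb

lemma sti_p : Primrec₂ sti :=
  Primrec.option_getD.comp (Primrec.list_getElem?.comp (allb_p.comp (ell_p.comp Primrec.fst))
    Primrec.snd) (Primrec.const [])

attribute [local irreducible] sti okD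

lemma dead_p : PrimrecPred (fun q : (Ds × ℕ) × ℕ => dead q.1.1 q.1.2 q.2) := by
  have d : Primrec (fun z : List Bool × ((Ds × ℕ) × ℕ) => z.2.1.1) :=
    Primrec.fst.comp (Primrec.fst.comp Primrec.snd)
  have j : Primrec (fun z : List Bool × ((Ds × ℕ) × ℕ) => z.2.2) := Primrec.snd.comp Primrec.snd
  have x : Primrec (fun z : List Bool × ((Ds × ℕ) × ℕ) => z.1) := Primrec.fst
  have h1 := okD_p.comp (((Primrec.const []).pair x).pair d)
  have h2 := Primrec.eq.comp (Primrec.list_take.comp (ell_p.comp d) x) (sti_p.comp d j)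
  have r : PrimrecRel (fun (η : List Bool) (q : (Ds × ℕ) × ℕ) =>
      okD [] η q.1.1 → η.take (ell q.1.1) ≠ sti q.1.1 q.2) := by
    refine (PrimrecPred.or h1.not h2.not).of_eq ?_
    intro z
    simp only [imp_iff_not_or, ne_eq]
  exact r.forall_mem_list.comp (al_p.comp (Primrec.snd.comp Primrec.fst)) Primrec.id

attribute [local irreducible] dead

lemma LD_p : PrimrecPred (fun q : (Ds × ℕ) × ℕ => LD q.1.1 q.1.2 q.2) := by
  have r : PrimrecRel (fun (j : ℕ) (q : (Ds × ℕ) × ℕ) => dead q.1.1 q.1.2 j) :=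
    dead_p.comp ((Primrec.fst.comp Primrec.snd).pair Primrec.fst)
  exact r.forall_mem_list.comp (Primrec.list_range.comp Primrec.snd) Primrec.id

lemma RDd_p : PrimrecPred (fun q : (Ds × ℕ) × ℕ => RDd q.1.1 q.1.2 q.2) := by
  have h1 : PrimrecPred (fun z : ℕ × ((Ds × ℕ) × ℕ) => z.2.2 < z.1) :=
    Primrec.nat_lt.comp (Primrec.snd.comp Primrec.snd) Primrec.fst
  have h2 : PrimrecPred (fun z : ℕ × ((Ds × ℕ) × ℕ) => dead z.2.1.1 z.2.1.2 z.1) :=
    dead_p.comp ((Primrec.fst.comp Primrec.snd).pair Primrec.fst)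
  have r : PrimrecRel (fun (j : ℕ) (q : (Ds × ℕ) × ℕ) => q.2 < j → dead q.1.1 q.1.2 j) := by
    refine (PrimrecPred.or h1.not h2).of_eq ?_
    intro z
    simp only [imp_iff_not_or]
  exact r.forall_mem_list.comp (Primrec.list_range.comp (pow2_p.comp (ell_p.comp
    (Primrec.fst.comp Primrec.fst)))) Primrec.id

attribute [local irreducible] LD RDd

lemma bts_p : Primrec₂ bts := by
  have h2 : Primrec₂ (fun (_ : List ℕ × ℕ) (z : ℕ) => decide (z.unpair.2 = 1)) :=
    (Primrec.eq.comp (Primrec.snd.comp (Primrec.unpair.comp Primrec.snd))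
      (Primrec.const 1)).decide
  exact Primrec.list_map (Primrec.list_take.comp Primrec.snd Primrec.fst) h2

attribute [local irreducible] bts

lemma ix_p : Primrec₂ ix := by
  have h1 : Primrec₂ (fun (q : List ℕ × Ds) (x : List Bool) =>
      decide (x = bts q.1 (ell q.2))) :=
    (Primrec.eq.comp Primrec.snd (bts_p.comp (Primrec.fst.comp Primrec.fst)
      (ell_p.comp (Primrec.snd.comp Primrec.fst)))).decide
  exact Primrec.list_findIdx (allb_p.comp (ell_p.comp Primrec.snd)) h1

attribute [local irreducible] ix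

lemma cnd_p : PrimrecPred (fun q : (List ℕ × Ds) × ℕ => cnd q.1.1 q.1.2 q.2) := by
  have b : Primrec (fun q : (List ℕ × Ds) × ℕ => q.1.1) := Primrec.fst.comp Primrec.fst
  have d : Primrec (fun q : (List ℕ × Ds) × ℕ => q.1.2) := Primrec.snd.comp Primrec.fst
  have t : Primrec (fun q : (List ℕ × Ds) × ℕ => q.2) := Primrec.snd
  have i := ix_p.comp b d
  exact PrimrecPred.and (Primrec.nat_le.comp (ell_p.comp d) t)
    (PrimrecPred.or (LD_p.comp ((d.pair t).pair i)) (RDd_p.comp ((d.pair t).pair i)))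

attribute [local irreducible] cnd

lemma tt_p : Primrec₂ tt := by
  classical
  have h1 : Primrec₂ (fun (q : List ℕ × Ds) (t : ℕ) => decide (cnd q.1 q.2 t)) := cnd_p.decide
  exact Primrec.list_findIdx (Primrec.list_range.comp (Primrec.succ.comp
    (Primrec.list_length.comp Primrec.fst))) h1

attribute [local irreducible] tt

lemma bitc_p : Primrec bitc := by
  have h1 : Primrec₂ (fun (ξ : List Bool) (k : ℕ) => (k, ((ξ[k]?).getD false).toNat)) :=
    Primrec.snd.pair (toNat_p.comp (Primrec.option_getD.comp (Primrec.list_getElem?.comp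
      Primrec.fst Primrec.snd) (Primrec.const false)))
  exact Primrec.list_map (Primrec.list_range.comp Primrec.list_length) h1

attribute [local irreducible] bitc

lemma RR_p : Primrec₂ RR := by
  classical
  have b : Primrec (fun q : List ℕ × Ds => q.1) := Primrec.fst
  have d : Primrec (fun q : List ℕ × Ds => q.2) := Primrec.snd
  have l := Primrec.list_length.comp b
  have t := tt_p.comp b d
  have i := ix_p.comp b d
  have h1 := PrimrecPred.and (Primrec.nat_le.comp (ell_p.comp d) l) (Primrec.nat_le.comp t l)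
  have h2 : Primrec (fun q : List ℕ × Ds => ! decide (LD q.2 (tt q.1 q.2) (ix q.1 q.2))) :=
    Primrec.not.comp (LD_p.comp ((d.pair t).pair i)).decide
  exact Primrec.ite h1 (Primrec.option_some.comp (h2.pair (Primrec.list_append.comp
    (bitc_p.comp (bts_p.comp b (ell_p.comp d))) d))) (Primrec.const none)

end Pool.Agent.H651.AP.RN
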