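import Pool.Agent.H651.AP.RNcls

set_option autoImplicit false

/-! The classes have large measure. -/

namespace Pool.Agent.H651.AP.RN

open Nat.Partrec (Code)
open Filter
open Pool.Agent.Helper743
open Pool.Agent.H651.AP

lemma mem_al_zero {ξ : List Bool} : ξ ∈ al 0 ↔ ξ = [] := by simp [al]

lemma mem_al_succ {t : ℕ} {η : List Bool} : η ∈ al (t + 1) ↔
    η.length = t + 1 ∧ η.take t ∈ al t ∧ ¬ kill t (al t) (η.take t) := by
  classical
  rw [al_succ]
  unfold stepA
  rw [List.mem_filter, mem_allb, decide_eq_true_eq]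

lemma al_length {t : ℕ} {ξ : List Bool} (h : ξ ∈ al t) : ξ.length = t := by
  cases t with
  | zero => rw [mem_al_zero.1 h]; rfl
  | succ t => exact (mem_al_succ.1 h).1

lemma al_take {s t : ℕ} (hst : s ≤ t) {ξ : List Bool} (h : ξ ∈ al t) : ξ.take s ∈ al s := by
  induction t, hst using Nat.le_induction generalizing ξ with
  | base => rw [List.take_of_length_le (al_length h).le]; exact h
  | succ t hs ih =>
    have h1 := ih (mem_al_succ.1 h).2.1
    rw [List.take_take, min_eq_left hs] at h1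
    exact h1

lemma al_not_kill {s t : ℕ} (hst : s < t) {ξ : List Bool} (h : ξ ∈ al t) :
    ¬ kill s (al s) (ξ.take s) := by
  have h1 := al_take (show s + 1 ≤ t by omega) h
  have h2 := (mem_al_succ.1 h1).2.2
  rw [List.take_take, min_eq_left (Nat.le_succ s)] at h2
  exact h2

lemma al_of {t : ℕ} {ξ : List Bool} (hl : ξ.length = t)
    (h : ∀ s, s < t → ¬ kill s (al s) (ξ.take s)) : ξ ∈ al t := by
  have key : ∀ r, r ≤ t → ξ.take r ∈ al r := by
    intro r
    induction r with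
    | zero => intro _; rw [List.take_zero]; exact mem_al_zero.2 rfl
    | succ r ih =>
      intro hr
      rw [mem_al_succ, List.take_take, min_eq_left (Nat.le_succ r), List.length_take]
      exact ⟨by omega, ih (by omega), h r (by omega)⟩
  have := key t (le_refl _)
  rw [List.take_of_length_le hl.le] at this
  exact this

lemma cV_eq (c t : ℕ) : cV c t = cN t (VV c t) := by
  classical
  unfold cV cN
  rw [List.countP_eq_length_filter]

lemma al_filter (t : ℕ) : al t =
    (open Classical in (allb t).filter (fun ξ => decide (ξ ∈ al t))) := by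
  classical
  cases t with
  | zero =>
    have h1 : al 0 = [[]] := rfl
    have h2 : allb 0 = [[]] := rfl
    rw [h1, h2]
    simp
  | succ t =>
    have h1 : al (t + 1) = stepA t (al t) := rfl
    conv_lhs => rw [h1]; unfold stepA
    apply List.filter_congr
    intro η hη
    rw [decide_eq_decide, mem_al_succ]
    have := mem_allb.1 hη
    tauto

lemma cD_eq (c t : ℕ) : cD c (al t) = cN t (fun ξ => ξ ∈ al t ∧ okD [] ξ (dC c)) := by
  classical
  unfold cD cN
  conv_lhs => rw [al_filter t]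
  rw [List.filter_filter, List.countP_eq_length_filter]
  congr 1
  apply List.filter_congr
  intro ξ _
  by_cases h1 : ξ ∈ al t <;> by_cases h2 : okD [] ξ (dC c) <;> simp [h1, h2]

lemma VV_mono {c s t : ℕ} {η : List Bool} (hst : s ≤ t) (h : VV c s (η.take s)) : VV c t η := by
  obtain ⟨i, hi, h1⟩ := h
  rw [List.mem_range, List.length_take] at hi
  refine ⟨i, List.mem_range.2 (by omega), ?_⟩
  rw [List.take_take, min_eq_left (by omega)] at h1
  rw [Option.isSome_iff_exists] at *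
  obtain ⟨a, ha⟩ := h1
  exact ⟨a, Code.evaln_mono hst ha⟩

def TK (c t : ℕ) (η : List Bool) : Prop := ∃ s, s < t ∧ c < s ∧ tk c s (η.take s)

def DK (c t : ℕ) (η : List Bool) : Prop :=
  ∃ s, s < t ∧ c < s ∧ η.take s ∈ al s ∧ dk c s (al s) (η.take s)

lemma TK_bound (c t : ℕ) : cN t (TK c t) * 2 ^ (c + 3) ≤ 2 ^ t := by
  induction t with
  | zero =>
    rw [cN_false 0 (fun ξ _ h => by obtain ⟨s, hs, _⟩ := h; omega)]
    simp
  | succ t ih =>
    by_cases hc : c < t ∧ cV c t * 2 ^ (c + 3) ≤ 2 ^ t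
    · have h1 : cN (t + 1) (TK c (t + 1)) ≤ cN (t + 1) (fun η => VV c t (η.take t)) := by
        apply cN_mono
        rintro η hl ⟨s, hs, _, h2⟩
        refine VV_mono (show s ≤ t by omega) ?_
        rw [List.take_take, min_eq_left (by omega)]
        exact h2.1
      rw [cN_take (Nat.le_succ t), ← cV_eq] at h1
      have h2 : t + 1 - t = 1 := by omega
      rw [Nat.succ_eq_add_one, h2, pow_one] at h1
      calc cN (t + 1) (TK c (t + 1)) * 2 ^ (c + 3) ≤ 2 * cV c t * 2 ^ (c + 3) :=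
            Nat.mul_le_mul_right _ h1
        _ = 2 * (cV c t * 2 ^ (c + 3)) := by ring
        _ ≤ 2 * 2 ^ t := Nat.mul_le_mul_left _ hc.2
        _ = _ := by rw [pow_succ]; ring
    · have h1 : cN (t + 1) (TK c (t + 1)) ≤ cN (t + 1) (fun η => TK c t (η.take t)) := by
        apply cN_mono
        rintro η hl ⟨s, hs, hcs, h2⟩
        rcases Nat.lt_succ_iff_lt_or_eq.1 hs with h3 | h3
        · refine ⟨s, h3, hcs, ?_⟩
          rw [List.take_take, min_eq_left (by omega)]
          exact h2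
        · subst h3
          exact absurd ⟨hcs, h2.2⟩ hc
      rw [cN_take (Nat.le_succ t)] at h1
      have h2 : t + 1 - t = 1 := by omega
      rw [Nat.succ_eq_add_one, h2, pow_one] at h1
      calc cN (t + 1) (TK c (t + 1)) * 2 ^ (c + 3) ≤ 2 * cN t (TK c t) * 2 ^ (c + 3) :=
            Nat.mul_le_mul_right _ h1
        _ = 2 * (cN t (TK c t) * 2 ^ (c + 3)) := by ring
        _ ≤ 2 * 2 ^ t := Nat.mul_le_mul_left _ ih
        _ = _ := by rw [pow_succ]; ring

lemma killedD {c s t : ℕ} (hst : s < t) (hc : c < s)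
    (hs : cD c (al s) * 2 ^ (c + 3) ≤ 2 ^ s) {ξ : List Bool} (hξ : ξ ∈ al t) :
    ¬ okD [] ξ (dC c) := by
  intro h
  apply al_not_kill hst hξ
  exact ⟨c, List.mem_range.2 hc, Or.inr ⟨okD_mono (List.take_prefix _ _) h, hs⟩⟩

lemma DK_bound (c t : ℕ) : cN t (DK c t) * 2 ^ (c + 3) ≤ 2 ^ t := by
  induction t with
  | zero =>
    rw [cN_false 0 (fun ξ _ h => by obtain ⟨s, hs, _⟩ := h; omega)]
    simp
  | succ t ih =>
    have h2 : t + 1 - t = 1 := by omega
    by_cases hc : ∃ s, s < t ∧ c < s ∧ cD c (al s) * 2 ^ (c + 3) ≤ 2 ^ s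
    · obtain ⟨s0, h01, h02, h03⟩ := hc
      have h1 : cN (t + 1) (DK c (t + 1)) ≤ cN (t + 1) (fun η => DK c t (η.take t)) := by
        apply cN_mono
        rintro η hl ⟨s, hs, hcs, h4, h5⟩
        rcases Nat.lt_succ_iff_lt_or_eq.1 hs with h3 | h3
        · refine ⟨s, h3, hcs, ?_⟩
          rw [List.take_take, min_eq_left (by omega)]
          exact ⟨h4, h5⟩
        · subst h3
          exact absurd h5.1 (killedD h01 h02 h03 h4)
      rw [cN_take (Nat.le_succ t)] at h1
      rw [Nat.succ_eq_add_one, h2, pow_one] at h1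
      calc cN (t + 1) (DK c (t + 1)) * 2 ^ (c + 3) ≤ 2 * cN t (DK c t) * 2 ^ (c + 3) :=
            Nat.mul_le_mul_right _ h1
        _ = 2 * (cN t (DK c t) * 2 ^ (c + 3)) := by ring
        _ ≤ 2 * 2 ^ t := Nat.mul_le_mul_left _ ih
        _ = _ := by rw [pow_succ]; ring
    · by_cases hd : cD c (al t) * 2 ^ (c + 3) ≤ 2 ^ t
      · have h1 : cN (t + 1) (DK c (t + 1)) ≤
            cN (t + 1) (fun η => η.take t ∈ al t ∧ okD [] (η.take t) (dC c)) := by
          apply cN_mono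
          rintro η hl ⟨s, hs, hcs, h4, h5⟩
          rcases Nat.lt_succ_iff_lt_or_eq.1 hs with h3 | h3
          · exact absurd ⟨s, h3, hcs, h5.2⟩ hc
          · subst h3
            exact ⟨h4, h5.1⟩
        rw [cN_take (Nat.le_succ t) (fun ξ => ξ ∈ al t ∧ okD [] ξ (dC c)), ← cD_eq] at h1
        rw [Nat.succ_eq_add_one, h2, pow_one] at h1
        calc cN (t + 1) (DK c (t + 1)) * 2 ^ (c + 3) ≤ 2 * cD c (al t) * 2 ^ (c + 3) :=
              Nat.mul_le_mul_right _ h1
          _ = 2 * (cD c (al t) * 2 ^ (c + 3)) := by ring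
          _ ≤ 2 * 2 ^ t := Nat.mul_le_mul_left _ hd
          _ = _ := by rw [pow_succ]; ring
      · rw [cN_false (t + 1)]
        · simp
        · rintro η hl ⟨s, hs, hcs, h4, h5⟩
          rcases Nat.lt_succ_iff_lt_or_eq.1 hs with h3 | h3
          · exact hc ⟨s, h3, hcs, h5.2⟩
          · subst h3
            exact hd h5.2

lemma dead_cover {t : ℕ} {η : List Bool} (hl : η.length = t) (h : η ∉ al t) :
    ∃ c, c < t ∧ (TK c t η ∨ DK c t η) := by
  classical
  have hex : ∃ s, s < t ∧ kill s (al s) (η.take s) := by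
    by_contra hno
    push Not at hno
    exact h (al_of hl hno)
  set s := Nat.find hex with hs
  have h1 := Nat.find_spec hex
  rw [← hs] at h1
  have h2 : η.take s ∈ al s := by
    apply al_of (by rw [List.length_take]; omega)
    intro r hr hk
    rw [List.take_take, min_eq_left hr.le] at hk
    exact Nat.find_min hex hr ⟨by omega, hk⟩
  obtain ⟨c, hc, h3⟩ := h1.2
  rw [List.mem_range] at hc
  refine ⟨c, by omega, ?_⟩
  rcases h3 with h3 | h3
  · exact Or.inl ⟨s, h1.1, hc, h3⟩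
  · exact Or.inr ⟨s, h1.1, hc, h2, h3⟩

lemma al_meas (t : ℕ) : 2 ^ t ≤ 2 * cN t (fun ξ => ξ ∈ al t) := by
  have h1 : cN t (fun ξ => ¬ ξ ∈ al t) ≤
      ∑ c ∈ Finset.range t, (cN t (TK c t) + cN t (DK c t)) := by
    refine le_trans (cN_mono (q := fun ξ => ∃ c, c < t ∧ (TK c t ξ ∨ DK c t ξ)) ?_)
      (le_trans (cN_ex t _ t) (Finset.sum_le_sum (fun c _ => cN_or t _ _)))
    intro ξ hl hp
    exact dead_cover hl hp
  have h2 := cN_not t (fun ξ => ξ ∈ al t)
  have h3 : ((∑ c ∈ Finset.range t, (cN t (TK c t) + cN t (DK c t)) : ℕ) : ℝ) ≤ 2 ^ t / 2 := by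
    push_cast
    have h4 : ∀ c ∈ Finset.range t, ((cN t (TK c t) : ℝ) + cN t (DK c t)) ≤
        2 ^ t / 4 * (1 / 2) ^ c := by
      intro c _
      have e1 : ((cN t (TK c t) * 2 ^ (c + 3) : ℕ) : ℝ) ≤ ((2 ^ t : ℕ) : ℝ) := by
        exact_mod_cast TK_bound c t
      have e2 : ((cN t (DK c t) * 2 ^ (c + 3) : ℕ) : ℝ) ≤ ((2 ^ t : ℕ) : ℝ) := by
        exact_mod_cast DK_bound c t
      push_cast at e1 e2
      rw [pow_add] at e1 e2
      have e3 : (0 : ℝ) < 2 ^ c := by positivity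
      have e4 : ((1 : ℝ) / 2) ^ c * 2 ^ c = 1 := by rw [← mul_pow]; norm_num
      have e5 : ((1 : ℝ) / 2) ^ c = 1 / 2 ^ c := by field_simp at e4 ⊢; linarith
      rw [e5]
      rw [show (2 : ℝ) ^ t / 4 * (1 / 2 ^ c) = (2 ^ t / 4) / 2 ^ c by ring, le_div_iff₀ e3]
      nlinarith
    refine le_trans (Finset.sum_le_sum h4) ?_
    rw [← Finset.mul_sum]
    have h5 := AC.geo_le (Finset.range t)
    have h6 : (0 : ℝ) ≤ 2 ^ t / 4 := by positivity
    calc (2 : ℝ) ^ t / 4 * ∑ c ∈ Finset.range t, (1 / 2 : ℝ) ^ c ≤ 2 ^ t / 4 * 2 :=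
          mul_le_mul_of_nonneg_left h5 h6
      _ = _ := by ring
  have h5 : ((cN t (fun ξ => ¬ ξ ∈ al t) : ℕ) : ℝ) ≤ 2 ^ t / 2 :=
    le_trans (by exact_mod_cast h1) h3
  have h6 : ((cN t (fun ξ => ξ ∈ al t) : ℕ) : ℝ) + ((cN t (fun ξ => ¬ ξ ∈ al t) : ℕ) : ℝ) =
      2 ^ t := by exact_mod_cast h2
  have h7 : ((2 : ℝ) ^ t) ≤ 2 * ((cN t (fun ξ => ξ ∈ al t) : ℕ) : ℝ) := by linarith
  exact_mod_cast h7

/-- the class of the description `d` at stage `t` -/
def PR (d : Ds) (t : ℕ) (ξ : List Bool) : Prop := ξ ∈ al t ∧ okD [] ξ d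

def NE (d : Ds) : Prop := ∀ t, ∃ ξ, PR d t ξ

lemma NE_nil : NE [] := by
  intro t
  have h1 := al_meas t
  have h2 : 0 < cN t (fun ξ => ξ ∈ al t) := by
    have : 0 < 2 ^ t := by positivity
    omega
  obtain ⟨ξ, _, h3⟩ := cN_pos h2
  exact ⟨ξ, h3, fun c hc => absurd hc (by simp)⟩

lemma PR_take {d : Ds} {s t : ℕ} {ξ : List Bool} (hst : s ≤ t) (h : PR d t ξ) :
    PR d s (ξ.take s) :=
  ⟨al_take hst h.1, okD_mono (List.take_prefix _ _) h.2⟩

lemma PR_sub {d d' : Ds} {t : ℕ} {ξ : List Bool} (hd : ∀ c ∈ d, c ∈ d') (h : PR d' t ξ) :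
    PR d t ξ := ⟨h.1, fun c hc => h.2 c (hd c hc)⟩

lemma dC_encode (d : Ds) : dC (Encodable.encode d) = d := by
  unfold dC
  rw [Encodable.encodek]
  rfl

/-- a nonempty class has measure larger than `2 ^ (-(c+3))` -/
lemma PR_meas {d : Ds} (h : NE d) {t : ℕ} (ht : Encodable.encode d < t) :
    2 ^ t < cN t (PR d t) * 2 ^ (Encodable.encode d + 3) := by
  by_contra hle
  push Not at hle
  obtain ⟨ξ, hξ⟩ := h (t + 1)
  have h1 : cD (Encodable.encode d) (al t) * 2 ^ (Encodable.encode d + 3) ≤ 2 ^ t := by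
    rw [cD_eq, dC_encode]
    exact hle
  have h2 := killedD (Nat.lt_succ_self t) ht h1 hξ.1
  rw [dC_encode] at h2
  exact h2 hξ.2

end Pool.Agent.H651.AP.RN
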