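import Pool.Graph.R_seed8.Helper743.KTHalt

set_option autoImplicit false

/-! K-triviality relative to an oracle, for approximations `A β` read off from the prefixes `β` of
the oracle, if the total cost of the changes is finite. -/

namespace Pool.Agent.H651.AP

open Filter
open Pool.Agent.Helper743
open Pool.Agent.Helper743.AC (kk wR massR kk_p kk_le_iff wR_nonneg wR_mono conv conv_pre pre_conv
  ev_code DBl DBl_p DBl_encode geo_le)
open Pool.Agent.Helper743.PR (LS)

section gen

variable (A : List ℕ → List Bool)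

/-- requests along a string -/
def HitA (i c : ℕ) (β : List ℕ) (ρ : List Bool) (k : ℕ) : Prop :=
  Encodable.encode ρ + 2 ≤ k ∨ ((A β).take ρ.length = ρ ∧
    (kk i β ρ.length ≤ β.length ∧ kk i β ρ.length + c ≤ k))

lemma HitA_p (hA : Primrec A) (i c : ℕ) : PrimrecPred (fun q : (List ℕ × List Bool) × ℕ =>
    HitA A i c q.1.1 q.1.2 q.2) := by
  have b : Primrec (fun q : (List ℕ × List Bool) × ℕ => q.1.1) := Primrec.fst.comp Primrec.fst
  have r : Primrec (fun q : (List ℕ × List Bool) × ℕ => q.1.2) := Primrec.snd.comp Primrec.fst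
  have k : Primrec (fun q : (List ℕ × List Bool) × ℕ => q.2) := Primrec.snd
  have rl := Primrec.list_length.comp r
  have bl := Primrec.list_length.comp b
  have h1 := Primrec.nat_le.comp (Primrec.nat_add.comp (Primrec.encode.comp r)
    (Primrec.const 2)) k
  have h3 := Primrec.eq.comp (Primrec.list_take.comp rl (hA.comp b)) r
  have hk := kk_p.comp (((Primrec.const i).pair b).pair rl)
  have h4 := Primrec.nat_le.comp hk bl
  have h5 := Primrec.nat_le.comp (Primrec.nat_add.comp hk (Primrec.const c)) k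
  exact PrimrecPred.or h1 (PrimrecPred.and h3 (PrimrecPred.and h4 h5))

lemma HitA_mono {i c : ℕ} {β : List ℕ} {ρ : List Bool} {k k' : ℕ} (h : k ≤ k')
    (hh : HitA A i c β ρ k) : HitA A i c β ρ k' := by
  rcases hh with h1 | ⟨h1, h2, h3⟩
  · exact Or.inl (le_trans h1 h)
  · exact Or.inr ⟨h1, h2, le_trans h3 h⟩

/-- the cost of a change -/
noncomputable def cA (i : ℕ) (β β' : List ℕ) : ℝ :=
  open Classical in
  if massR i β ≤ 1 then
    ∑ w ∈ Finset.range (β.length + 1),
      if w ≤ (A β).length ∧ (A β').take w ≠ (A β).take w then wR i β w else 0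
  else 0

variable (G : ℕ → ℕ) (i : ℕ)

noncomputable def totA (n : ℕ) : ℝ := ∑ j ∈ Finset.range n, cA A i (pre G j) (pre G (j + 1))

lemma cA_nonneg (β β' : List ℕ) : 0 ≤ cA A i β β' := by
  unfold cA
  split_ifs
  · apply Finset.sum_nonneg
    intro w _
    split_ifs
    · exact wR_nonneg _ _ _
    · exact le_refl _
  · exact le_refl _

lemma totA_nonneg (n : ℕ) : 0 ≤ totA A G i n :=
  Finset.sum_nonneg (fun j _ => cA_nonneg _ _ _ _)

lemma totA_succ (n : ℕ) :
    totA A G i (n + 1) = totA A G i n + cA A i (pre G n) (pre G (n + 1)) := by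
  unfold totA
  rw [Finset.sum_range_succ]

def Cur (n : ℕ) (ρ : List Bool) : Prop := (A (pre G n)).take ρ.length = ρ

noncomputable def cur (n : ℕ) (ρ : List Bool) : ℝ :=
  open Classical in if Cur A G n ρ then wR i (pre G n) ρ.length else 0

noncomputable def RR : ℕ → List Bool → ℝ
  | 0, ρ => cur A G i 0 ρ
  | n + 1, ρ => max (RR n ρ) (cur A G i (n + 1) ρ)

lemma cur_nonneg (n : ℕ) (ρ : List Bool) : 0 ≤ cur A G i n ρ := by
  unfold cur
  split_ifs
  · exact wR_nonneg _ _ _
  · exact le_refl _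

lemma cur_le (n : ℕ) (ρ : List Bool) : cur A G i n ρ ≤ wR i (pre G n) ρ.length := by
  unfold cur
  split_ifs
  · exact le_refl _
  · exact wR_nonneg _ _ _

lemma RR_nonneg (n : ℕ) (ρ : List Bool) : 0 ≤ RR A G i n ρ := by
  induction n with
  | zero => exact cur_nonneg A G i 0 ρ
  | succ n ih => exact le_trans ih (le_max_left _ _)

lemma RR_le (n : ℕ) (ρ : List Bool) : RR A G i n ρ ≤ wR i (pre G n) ρ.length := by
  induction n with
  | zero => exact cur_le A G i 0 ρ
  | succ n ih =>
    apply max_le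
    · exact le_trans ih (wR_mono (pre_prefix G (Nat.le_succ n)) _)
    · exact cur_le A G i (n + 1) ρ

lemma RR_mono {n m : ℕ} (h : n ≤ m) (ρ : List Bool) : RR A G i n ρ ≤ RR A G i m ρ := by
  induction m, h using Nat.le_induction with
  | base => exact le_refl _
  | succ m _ ih => exact le_trans ih (le_max_left _ _)

lemma cur_le_RR {n m : ℕ} (h : n ≤ m) (ρ : List Bool) : cur A G i n ρ ≤ RR A G i m ρ := by
  refine le_trans ?_ (RR_mono A G i h ρ)
  cases n with
  | zero => exact le_refl _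
  | succ n => exact le_max_right _ _

open Classical in
lemma sum_cur (hA : ∀ β, (A β).length ≤ β.length) (n : ℕ) (T : Finset (List Bool))
    (hT : ∀ ρ ∈ T, Cur A G n ρ) :
    ∑ ρ ∈ T, wR i (pre G n) ρ.length ≤
    ∑ w ∈ Finset.range (n + 1),
      if w ≤ (A (pre G n)).length ∧ (A (pre G n)).take w ∈ T then wR i (pre G n) w else 0 := by
  have hinj : Set.InjOn (fun ρ : List Bool => ρ.length) T := by
    intro ρ hρ ρ' hρ' he
    simp only at he
    rw [← hT ρ hρ, ← hT ρ' hρ', he]
  calc ∑ ρ ∈ T, wR i (pre G n) ρ.length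
      = ∑ w ∈ T.image (fun ρ : List Bool => ρ.length), wR i (pre G n) w :=
        (Finset.sum_image hinj).symm
    _ ≤ ∑ w ∈ (Finset.range (n + 1)).filter (fun w => w ≤ (A (pre G n)).length ∧
          (A (pre G n)).take w ∈ T), wR i (pre G n) w := by
        apply Finset.sum_le_sum_of_subset_of_nonneg
        · intro w hw
          rw [Finset.mem_image] at hw
          obtain ⟨ρ, hρ, rfl⟩ := hw
          have h1 : ρ.length ≤ (A (pre G n)).length := by
            have := congrArg List.length (hT ρ hρ)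
            rw [List.length_take] at this
            omega
          have h2 := hA (pre G n)
          rw [pre_length] at h2
          rw [Finset.mem_filter, Finset.mem_range]
          refine ⟨by omega, h1, ?_⟩
          rw [hT ρ hρ]; exact hρ
        · intro w _ _
          exact wR_nonneg _ _ _
    _ = _ := Finset.sum_filter _ _

open Classical in
lemma key_sum (hA : ∀ β, (A β).length ≤ β.length) (hm : ∀ n, massR i (pre G n) ≤ 1)
    (S : Finset (List Bool)) (n : ℕ) :
    ∑ ρ ∈ S.filter (fun ρ => ¬ Cur A G n ρ), RR A G i n ρ ≤ totA A G i n := by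
  induction n with
  | zero =>
    have : ∑ ρ ∈ S.filter (fun ρ => ¬ Cur A G 0 ρ), RR A G i 0 ρ = 0 := by
      apply Finset.sum_eq_zero
      intro ρ hρ
      rw [Finset.mem_filter] at hρ
      show cur A G i 0 ρ = 0
      unfold cur
      rw [if_neg hρ.2]
    rw [this]
    exact totA_nonneg _ _ _ _
  | succ n ih =>
    have h1 : ∑ ρ ∈ S.filter (fun ρ => ¬ Cur A G (n + 1) ρ), RR A G i (n + 1) ρ =
        ∑ ρ ∈ S.filter (fun ρ => ¬ Cur A G (n + 1) ρ), RR A G i n ρ := by
      refine Finset.sum_congr rfl (fun ρ hρ => ?_)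
      rw [Finset.mem_filter] at hρ
      show max (RR A G i n ρ) (cur A G i (n + 1) ρ) = _
      have : cur A G i (n + 1) ρ = 0 := by unfold cur; rw [if_neg hρ.2]
      rw [this]
      exact max_eq_left (RR_nonneg A G i n ρ)
    have h2 : ∑ ρ ∈ S.filter (fun ρ => ¬ Cur A G (n + 1) ρ), RR A G i n ρ ≤
        ∑ ρ ∈ S.filter (fun ρ => ¬ Cur A G n ρ), RR A G i n ρ +
        ∑ ρ ∈ S.filter (fun ρ => Cur A G n ρ ∧ ¬ Cur A G (n + 1) ρ), RR A G i n ρ := by
      rw [← Finset.sum_union]
      · apply Finset.sum_le_sum_of_subset_of_nonneg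
        · intro ρ hρ
          rw [Finset.mem_filter] at hρ
          rw [Finset.mem_union, Finset.mem_filter, Finset.mem_filter]
          by_cases h3 : Cur A G n ρ
          · exact Or.inr ⟨hρ.1, h3, hρ.2⟩
          · exact Or.inl ⟨hρ.1, h3⟩
        · intro ρ _ _
          exact RR_nonneg _ _ _ _ _
      · rw [Finset.disjoint_left]
        intro ρ h3 h4
        rw [Finset.mem_filter] at h3 h4
        exact h3.2 h4.2.1
    have h3 : ∑ ρ ∈ S.filter (fun ρ => Cur A G n ρ ∧ ¬ Cur A G (n + 1) ρ), RR A G i n ρ ≤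
        cA A i (pre G n) (pre G (n + 1)) := by
      set T := S.filter (fun ρ => Cur A G n ρ ∧ ¬ Cur A G (n + 1) ρ) with hTd
      have hT : ∀ ρ ∈ T, Cur A G n ρ := by
        intro ρ hρ
        rw [hTd, Finset.mem_filter] at hρ
        exact hρ.2.1
      calc ∑ ρ ∈ T, RR A G i n ρ ≤ ∑ ρ ∈ T, wR i (pre G n) ρ.length :=
            Finset.sum_le_sum (fun ρ _ => RR_le A G i n ρ)
        _ ≤ _ := sum_cur A G i hA n T hT
        _ ≤ cA A i (pre G n) (pre G (n + 1)) := by
            unfold cA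
            rw [if_pos (hm n), pre_length]
            refine Finset.sum_le_sum (fun w hw => ?_)
            by_cases h4 : w ≤ (A (pre G n)).length ∧ (A (pre G n)).take w ∈ T
            · rw [if_pos h4, if_pos]
              refine ⟨h4.1, fun h5 => ?_⟩
              have h6 := h4.2
              rw [hTd, Finset.mem_filter] at h6
              apply h6.2.2
              unfold Cur
              have h7 : ((A (pre G n)).take w).length = w := by
                rw [List.length_take]; omega
              rw [h7]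
              exact h5
            · rw [if_neg h4]
              split_ifs
              · exact wR_nonneg _ _ _
              · exact le_refl _
    rw [h1, totA_succ]
    linarith

open Classical in
lemma total_sum (hA : ∀ β, (A β).length ≤ β.length) (hm : ∀ n, massR i (pre G n) ≤ 1)
    (S : Finset (List Bool)) (n : ℕ) :
    ∑ ρ ∈ S, RR A G i n ρ ≤ totA A G i n + 1 := by
  have h1 := key_sum A G i hA hm S n
  have h2 : ∑ ρ ∈ S.filter (fun ρ => Cur A G n ρ), RR A G i n ρ ≤ 1 := by
    set T := S.filter (fun ρ => Cur A G n ρ) with hTd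
    have hT : ∀ ρ ∈ T, Cur A G n ρ := by
      intro ρ hρ
      rw [hTd, Finset.mem_filter] at hρ
      exact hρ.2
    calc ∑ ρ ∈ T, RR A G i n ρ ≤ ∑ ρ ∈ T, wR i (pre G n) ρ.length :=
          Finset.sum_le_sum (fun ρ _ => RR_le A G i n ρ)
      _ ≤ _ := sum_cur A G i hA n T hT
      _ ≤ massR i (pre G n) := by
          unfold massR
          rw [pre_length]
          refine Finset.sum_le_sum (fun w _ => ?_)
          split_ifs
          · exact le_refl _
          · exact wR_nonneg _ _ _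
      _ ≤ 1 := hm n
  have h3 := Finset.sum_filter_add_sum_filter_not S (fun ρ => Cur A G n ρ)
    (fun ρ => RR A G i n ρ)
  linarith

attribute [local irreducible] DBl HitA

noncomputable def tst (i c z : ℕ) : ℕ :=
  open Classical in
  if HitA A i c (pre G z.unpair.2) (DBl z.unpair.1.unpair.1) z.unpair.1.unpair.2 then 0 else 1

lemma tst_TR (hA : Primrec A) (i c : ℕ) : TR (tst A G i c) G := by
  classical
  have b : Primrec (fun z : ℕ => LS z.unpair.2) :=
    PR.LS_p.comp (Primrec.snd.comp Primrec.unpair)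
  have z1 : Primrec (fun z : ℕ => z.unpair.1.unpair.1.unpair.1) :=
    Primrec.fst.comp (Primrec.unpair.comp (Primrec.fst.comp (Primrec.unpair.comp
      (Primrec.fst.comp Primrec.unpair))))
  have z2 : Primrec (fun z : ℕ => z.unpair.1.unpair.1.unpair.2) :=
    Primrec.snd.comp (Primrec.unpair.comp (Primrec.fst.comp (Primrec.unpair.comp
      (Primrec.fst.comp Primrec.unpair))))
  have h1 := (HitA_p A hA i c).comp ((b.pair (DBl_p.comp z1)).pair z2)
  have h2 : Primrec (fun z : ℕ => if HitA A i c (LS z.unpair.2)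
      (DBl z.unpair.1.unpair.1.unpair.1) z.unpair.1.unpair.1.unpair.2 then 0 else 1) :=
    Primrec.ite h1 (Primrec.const 0) (Primrec.const 1)
  have h3 : TR (fun z => Nat.pair z (Encodable.encode (pre G z.unpair.2))) G :=
    RecT.pair (Computable.recT Computable.id) ((recT_pre (TR.refl G)).comp
      (Computable.recT (Computable.snd.comp Computable.unpair)))
  have h4 := (Computable.recT (O := {(G : ℕ →. ℕ)}) h2.to_comp).comp h3
  refine Nat.RecursiveIn.of_eq h4 ?_
  intro z
  congr 1
  simp only [Nat.unpair_pair]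
  rw [PR.LS_encode]
  rfl

theorem trivial_rel (hAp : Primrec A) (hA : ∀ β, (A β).length ≤ β.length)
    (hbdd : ∀ i, ∃ C : ℝ, ∀ n, totA A G i n ≤ C)
    (X : ℕ → List Bool) (hX : ∀ n, ∀ᶠ N in atTop, (A (pre G N)).take (X n).length = X n)
    (hXl : ∀ n, (X n).length = n)
    (f : ℕ → ℕ) (φ : ℕ →. ℕ) (hφ : Nat.RecursiveIn {(G : ℕ →. ℕ)} φ)
    (hdom : ∀ n k : ℕ, (φ (Nat.pair n k)).Dom ↔ f n ≤ k)
    (hsum : ∀ s : Finset ℕ, ∑ n ∈ s, (1/2 : ℝ) ^ (f n) ≤ 1) :
    ∃ h : List Bool → ℕ,
      (∃ ψ : ℕ →. ℕ, Nat.RecursiveIn {(G : ℕ →. ℕ)} ψ ∧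
        ∀ σ : List Bool, ∀ k : ℕ, (ψ (Nat.pair (Encodable.encode σ) k)).Dom ↔ h σ ≤ k) ∧
      (∀ s : Finset (List Bool), ∑ σ ∈ s, (1/2 : ℝ) ^ (h σ) ≤ 1) ∧
      ∃ c : ℕ, ∀ n : ℕ, h (X n) ≤ f n + c := by
  classical
  obtain ⟨ev, hev, hmono, hcor⟩ := use_principle G _ hφ
  obtain ⟨i, he⟩ := ev_code hev
  have hc1 : ∀ {n w k}, conv i (pre G n) (Nat.pair w k) → f w ≤ k := by
    intro n w k h
    obtain ⟨j, y, hy⟩ := conv_pre he h
    have h1 : y ∈ φ (Nat.pair w k) := (hcor _ _).2 ⟨j, hy⟩
    exact (hdom w k).1 (Part.dom_iff_mem.2 ⟨y, h1⟩)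
  have hc2 : ∀ w, ∀ᶠ n in atTop, conv i (pre G n) (Nat.pair w (f w)) := by
    intro w
    obtain ⟨y, hy⟩ := Part.dom_iff_mem.1 ((hdom w (f w)).2 (le_refl _))
    obtain ⟨j, hj⟩ := (hcor _ _).1 hy
    exact pre_conv he hj
  have hk1 : ∀ {n w}, kk i (pre G n) w ≤ n → f w ≤ kk i (pre G n) w := by
    intro n w h
    obtain ⟨k, hk, hc⟩ := (kk_le_iff (i := i) (w := w) (by rw [pre_length]; exact h)).1 (le_refl _)
    exact le_trans (hc1 hc) hk
  have hk2 : ∀ w, ∀ᶠ n in atTop, kk i (pre G n) w = f w ∧ f w ≤ n := by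
    intro w
    filter_upwards [hc2 w, eventually_ge_atTop (f w)] with n h1 h2
    have h3 : kk i (pre G n) w ≤ f w :=
      (kk_le_iff (by rw [pre_length]; exact h2)).2 ⟨f w, le_refl _, h1⟩
    exact ⟨le_antisymm h3 (hk1 (le_trans h3 h2)), h2⟩
  have hm : ∀ n, massR i (pre G n) ≤ 1 := by
    intro n
    refine le_trans ?_ (hsum (Finset.range ((pre G n).length + 1)))
    unfold massR
    refine Finset.sum_le_sum (fun w _ => ?_)
    unfold wR
    by_cases h1 : kk i (pre G n) w ≤ (pre G n).length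
    · rw [if_pos h1]
      apply pow_le_pow_of_le_one (by norm_num) (by norm_num)
      rw [pre_length] at h1
      exact hk1 h1
    · rw [if_neg h1]; positivity
  obtain ⟨C, hC⟩ := hbdd i
  have hC0 : 0 ≤ C := le_trans (totA_nonneg _ _ _ _) (hC 0)
  obtain ⟨c, hc⟩ := exists_pow_lt_of_lt_one (show (0 : ℝ) < 1 / (2 * (C + 1)) by positivity)
    (show ((1 : ℝ) / 2) < 1 by norm_num)
  have hc' : ((1 : ℝ) / 2) ^ c * (C + 1) ≤ 1 / 2 := by
    have h1 : (0 : ℝ) < C + 1 := by linarith
    calc ((1 : ℝ) / 2) ^ c * (C + 1) ≤ (1 / (2 * (C + 1))) * (C + 1) :=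
          mul_le_mul_of_nonneg_right hc.le h1.le
      _ = 1 / 2 := by field_simp
  have hex : ∀ ρ : List Bool, ∃ k, ∃ n, HitA A i c (pre G n) ρ k := fun ρ =>
    ⟨Encodable.encode ρ + 2, 0, by unfold HitA; exact Or.inl (le_refl _)⟩
  have hle : ∀ ρ k, Nat.find (hex ρ) ≤ k ↔ ∃ n, HitA A i c (pre G n) ρ k := by
    intro ρ k
    constructor
    · intro h
      obtain ⟨n, hn⟩ := Nat.find_spec (hex ρ)
      exact ⟨n, HitA_mono A h hn⟩
    · intro h
      exact Nat.find_min' (hex ρ) h
  refine ⟨fun ρ => Nat.find (hex ρ), ?_, ?_, c, ?_⟩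
  · refine ⟨_, Nat.RecursiveIn.rfind (tst_TR A G hAp i c), fun σ k => ?_⟩
    rw [hle]
    rw [Part.dom_iff_mem]
    constructor
    · rintro ⟨n, hn⟩
      have hn' := Nat.mem_rfind.1 hn
      refine ⟨n, ?_⟩
      have h1 := hn'.1
      simp only [Part.map_eq_map, Part.map_some, Part.mem_some_iff] at h1
      by_contra hne
      unfold tst at h1
      simp only [Nat.unpair_pair] at h1
      rw [DBl_encode, if_neg hne] at h1
      simp at h1
    · intro hn
      have h2 := Nat.find_spec hn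
      refine ⟨Nat.find hn, Nat.mem_rfind.2 ⟨?_, ?_⟩⟩
      · simp only [Part.map_eq_map, Part.map_some, Part.mem_some_iff]
        unfold tst
        simp only [Nat.unpair_pair]
        rw [DBl_encode, if_pos h2]
        simp
      · intro m hm'
        have h3 := Nat.find_min hn hm'
        simp only [Part.map_eq_map, Part.map_some, Part.mem_some_iff]
        unfold tst
        simp only [Nat.unpair_pair]
        rw [DBl_encode, if_neg h3]
        simp
  · intro S
    -- a common stage
    have hstg : ∀ ρ : List Bool, ∀ᶠ N in atTop, ((1 : ℝ) / 2) ^ (Nat.find (hex ρ)) ≤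
        (1 / 2) ^ (Encodable.encode ρ + 2) + (1 / 2) ^ c * RR A G i N ρ := by
      intro ρ
      obtain ⟨n, hn⟩ := Nat.find_spec (hex ρ)
      generalize Nat.find (hex ρ) = H at hn ⊢
      unfold HitA at hn
      filter_upwards [eventually_ge_atTop n] with N hN
      have h0 : 0 ≤ (1 / 2 : ℝ) ^ c * RR A G i N ρ :=
        mul_nonneg (by positivity) (RR_nonneg _ _ _ _ _)
      rcases hn with h1 | ⟨h2, h3, h4⟩
      · have h5 : ((1 : ℝ) / 2) ^ H ≤ (1 / 2) ^ (Encodable.encode ρ + 2) :=
          pow_le_pow_of_le_one (by norm_num) (by norm_num) h1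
        linarith
      · rw [pre_length] at h3
        have h5 : cur A G i n ρ = (1 / 2) ^ (kk i (pre G n) ρ.length) := by
          unfold cur
          rw [if_pos (show Cur A G n ρ from h2)]
          unfold wR
          rw [if_pos (by rw [pre_length]; exact h3)]
        have h6 := cur_le_RR A G i hN ρ
        rw [h5] at h6
        have h7 : ((1 : ℝ) / 2) ^ H ≤
            (1 / 2) ^ (kk i (pre G n) ρ.length + c) :=
          pow_le_pow_of_le_one (by norm_num) (by norm_num) h4
        rw [pow_add, mul_comm] at h7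
        have h8 := mul_le_mul_of_nonneg_left h6 (show (0 : ℝ) ≤ (1 / 2) ^ c by positivity)
        have h9 : (0 : ℝ) ≤ (1 / 2) ^ (Encodable.encode ρ + 2) := by positivity
        linarith
    have hall : ∀ᶠ N in atTop, ∀ ρ ∈ S, ((1 : ℝ) / 2) ^ (Nat.find (hex ρ)) ≤
        (1 / 2) ^ (Encodable.encode ρ + 2) + (1 / 2) ^ c * RR A G i N ρ :=
      (Filter.eventually_all_finset S).2 (fun ρ _ => hstg ρ)
    obtain ⟨N, hN⟩ := hall.exists
    have h1 := total_sum A G i hA hm S N
    have h2 := hC N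
    have h3 : ∑ ρ ∈ S, ((1 : ℝ) / 2) ^ (Encodable.encode ρ + 2) ≤ 1 / 2 := by
      have h4 : ∑ ρ ∈ S, ((1 : ℝ) / 2) ^ (Encodable.encode ρ) ≤ 2 := by
        have h5 := geo_le (S.image (fun ρ => Encodable.encode ρ))
        rw [Finset.sum_image (fun x _ y _ h => Encodable.encode_injective h)] at h5
        exact h5
      have h6 : ∑ ρ ∈ S, ((1 : ℝ) / 2) ^ (Encodable.encode ρ + 2) =
          (1 / 4) * ∑ ρ ∈ S, ((1 : ℝ) / 2) ^ (Encodable.encode ρ) := by
        rw [Finset.mul_sum]
        refine Finset.sum_congr rfl (fun ρ _ => ?_)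
        rw [pow_add]; ring
      rw [h6]; linarith
    calc ∑ ρ ∈ S, ((1 : ℝ) / 2) ^ (Nat.find (hex ρ))
        ≤ ∑ ρ ∈ S, ((1 / 2) ^ (Encodable.encode ρ + 2) + (1 / 2) ^ c * RR A G i N ρ) :=
          Finset.sum_le_sum hN
      _ = ∑ ρ ∈ S, ((1 : ℝ) / 2) ^ (Encodable.encode ρ + 2) +
          (1 / 2) ^ c * ∑ ρ ∈ S, RR A G i N ρ := by
          rw [Finset.sum_add_distrib, Finset.mul_sum]
      _ ≤ 1 / 2 + (1 / 2) ^ c * (C + 1) := by
          apply add_le_add h3
          apply mul_le_mul_of_nonneg_left _ (by positivity)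
          linarith
      _ ≤ 1 := by linarith
  · intro n
    simp only
    rw [hle]
    obtain ⟨N, ⟨h1, h2⟩, h3⟩ := ((hk2 n).and (hX n)).exists
    refine ⟨N, ?_⟩
    unfold HitA
    right
    refine ⟨h3, ?_, ?_⟩
    · rw [hXl, h1, pre_length]; exact h2
    · rw [hXl, h1]

end gen

end Pool.Agent.H651.AP
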