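import Pool.Agent.H651.AP.Triv

set_option autoImplicit false

/-! The operator `W`: for every oracle `G` a set `W` which is c.e. in `G`, not computable from `G`,
and whose changes have finite total cost relative to `G`. -/

namespace Pool.Agent.H651.AP

open Filter
open Pool.Agent.Helper743
open Pool.Agent.Helper743.AC (kk wR massR massN wN wN_p massN_p wN_cast massN_cast mass_le_iff
  kk_p wR_nonneg wR_mono massR_mono outp outp_p outp_pre pre_outp fsum_p pow_p ev_code geo_le)
open Pool.Agent.Helper743.PR (findIdx_range)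

noncomputable def tcN (i : ℕ) (β : List ℕ) (e : ℕ) : ℕ :=
  ∑ w ∈ Finset.range (β.length + 1), if e < w then wN β.length i β w else 0

noncomputable def tcR (i : ℕ) (β : List ℕ) (e : ℕ) : ℝ :=
  ∑ w ∈ Finset.range (β.length + 1), if e < w then wR i β w else 0

/-- the change of `W` at `e` is cheap for the `i`-th complexity -/
def costOK (i j : ℕ) (β : List ℕ) (e : ℕ) : Prop :=
  massN β.length i β ≤ 2 ^ β.length → 2 ^ j * tcN i β e ≤ 2 ^ β.length

def good (β S : List ℕ) (e : ℕ) : Prop :=
  (∀ e' ∈ S, e'.unpair.1 ≠ e.unpair.1) ∧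
    (outp e.unpair.1 β e 0 ∧ ∀ i ∈ List.range (e.unpair.1 + 1), costOK i e.unpair.1 β e)

noncomputable def pickI (β S : List ℕ) : ℕ :=
  open Classical in (List.range (β.length + 1)).findIdx (fun e => decide (good β S e))

noncomputable def stepW (β S : List ℕ) : List ℕ :=
  if pickI β S ≤ β.length then pickI β S :: S else S

noncomputable def recW (β : List ℕ) (n : ℕ) : List ℕ :=
  Nat.rec [] (fun k S => stepW (β.take k) S) n

noncomputable def ws (β : List ℕ) : List ℕ := recW β β.length

lemma recW_eq {β γ : List ℕ} (n : ℕ) (h : ∀ k, k < n → β.take k = γ.take k) :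
    recW β n = recW γ n := by
  induction n with
  | zero => rfl
  | succ n ih =>
    show stepW (β.take n) (recW β n) = stepW (γ.take n) (recW γ n)
    rw [ih (fun k hk => h k (by omega)), h n (by omega)]

lemma ws_nil : ws [] = [] := rfl

lemma ws_concat (β : List ℕ) (a : ℕ) : ws (β ++ [a]) = stepW β (ws β) := by
  have h1 : (β ++ [a]).length = β.length + 1 := by simp
  unfold ws
  rw [h1]
  show stepW ((β ++ [a]).take β.length) (recW (β ++ [a]) β.length) = _
  have h2 : recW (β ++ [a]) β.length = recW β β.length :=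
    recW_eq _ (fun k hk => List.take_append_of_le_length hk.le)
  rw [h2, List.take_left']
  rfl

lemma stepW_cases (β S : List ℕ) : (stepW β S = S ∧ β.length < pickI β S) ∨
    (stepW β S = pickI β S :: S ∧ pickI β S ≤ β.length ∧ good β S (pickI β S)) := by
  classical
  unfold stepW
  by_cases h : pickI β S ≤ β.length
  · right
    rw [if_pos h]
    refine ⟨rfl, h, ?_⟩
    have h1 : (List.range (β.length + 1)).findIdx (fun e => decide (good β S e)) <
        (List.range (β.length + 1)).length := by
      rw [List.length_range]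
      exact Nat.lt_succ_of_le h
    have h2 := List.findIdx_getElem (w := h1)
    rw [List.getElem_range] at h2
    exact of_decide_eq_true h2
  · left
    rw [if_neg h]
    exact ⟨rfl, by omega⟩

lemma pickI_le {β S : List ℕ} {e : ℕ} (he : e ≤ β.length) (h : good β S e) : pickI β S ≤ e := by
  classical
  unfold pickI
  by_contra hlt
  push Not at hlt
  have := List.not_of_lt_findIdx hlt
  rw [List.getElem_range] at this
  simp only [decide_eq_false_iff_not] at this
  exact this h

lemma mem_stepW {β S : List ℕ} {e : ℕ} (h : e ∈ S) : e ∈ stepW β S := by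
  rcases stepW_cases β S with h1 | h1
  · rw [h1.1]; exact h
  · rw [h1.1]; exact List.mem_cons_of_mem _ h

lemma ws_mono {β γ : List ℕ} (h : β <+: γ) {e : ℕ} (he : e ∈ ws β) : e ∈ ws γ := by
  obtain ⟨δ, rfl⟩ := h
  induction δ using List.reverseRecOn with
  | nil => simpa using he
  | append_singleton δ a ih =>
    rw [← List.append_assoc, ws_concat]
    exact mem_stepW ih

lemma ws_lt (β : List ℕ) : ∀ e ∈ ws β, e < β.length := by
  induction β using List.reverseRecOn with
  | nil => intro e he; simp [ws_nil] at he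
  | append_singleton β a ih =>
    intro e he
    rw [ws_concat] at he
    rw [List.length_append, List.length_singleton]
    rcases stepW_cases β (ws β) with h1 | h1
    · rw [h1.1] at he
      exact lt_trans (ih e he) (Nat.lt_succ_self _)
    · rw [h1.1, List.mem_cons] at he
      rcases he with h2 | h2
      · rw [h2]; have := h1.2.1; omega
      · exact lt_trans (ih e h2) (Nat.lt_succ_self _)

lemma ws_nodup (β : List ℕ) : ((ws β).map (fun e => e.unpair.1)).Nodup := by
  induction β using List.reverseRecOn with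
  | nil => simp [ws_nil]
  | append_singleton β a ih =>
    rw [ws_concat]
    rcases stepW_cases β (ws β) with h1 | h1
    · rw [h1.1]; exact ih
    · rw [h1.1, List.map_cons, List.nodup_cons]
      refine ⟨?_, ih⟩
      rw [List.mem_map]
      rintro ⟨e', he', h2⟩
      exact h1.2.2.1 e' he' h2

/-! ### primitive recursiveness -/

lemma tcN_p : Primrec (fun q : (ℕ × List ℕ) × ℕ => tcN q.1.1 q.1.2 q.2) := by
  have hl : Primrec (fun z : ((ℕ × List ℕ) × ℕ) × ℕ => z.1.1.2.length) :=
    Primrec.list_length.comp (Primrec.snd.comp (Primrec.fst.comp Primrec.fst))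
  have h1 : Primrec (fun z : ((ℕ × List ℕ) × ℕ) × ℕ => wN z.1.1.2.length z.1.1.1 z.1.1.2 z.2) :=
    wN_p.comp (((hl.pair (Primrec.fst.comp (Primrec.fst.comp Primrec.fst))).pair
      (Primrec.snd.comp (Primrec.fst.comp Primrec.fst))).pair Primrec.snd)
  have h2 : PrimrecPred (fun z : ((ℕ × List ℕ) × ℕ) × ℕ => z.1.2 < z.2) :=
    Primrec.nat_lt.comp (Primrec.snd.comp Primrec.fst) Primrec.snd
  have h3 := Primrec.ite h2 h1 (Primrec.const 0)
  exact fsum_p (α := (ℕ × List ℕ) × ℕ) (Primrec.succ.comp (Primrec.list_length.comp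
    (Primrec.snd.comp Primrec.fst))) h3.to₂

lemma costOK_p : PrimrecPred (fun q : (ℕ × ℕ) × (List ℕ × ℕ) =>
    costOK q.1.1 q.1.2 q.2.1 q.2.2) := by
  have l : Primrec (fun q : (ℕ × ℕ) × (List ℕ × ℕ) => q.2.1.length) :=
    Primrec.list_length.comp (Primrec.fst.comp Primrec.snd)
  have p := pow_p.comp l
  have h1 := Primrec.nat_le.comp (massN_p.comp ((l.pair (Primrec.fst.comp Primrec.fst)).pair
    (Primrec.fst.comp Primrec.snd))) p
  have h2 := Primrec.nat_le.comp (Primrec.nat_mul.comp (pow_p.comp (Primrec.snd.comp Primrec.fst))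
    (tcN_p.comp (((Primrec.fst.comp Primrec.fst).pair (Primrec.fst.comp Primrec.snd)).pair
      (Primrec.snd.comp Primrec.snd)))) p
  refine (PrimrecPred.or h1.not h2).of_eq ?_
  intro q
  unfold costOK
  tauto

attribute [local irreducible] costOK

lemma good_p : PrimrecPred (fun q : (List ℕ × List ℕ) × ℕ => good q.1.1 q.1.2 q.2) := by
  have e : Primrec (fun q : (List ℕ × List ℕ) × ℕ => q.2) := Primrec.snd
  have j : Primrec (fun q : (List ℕ × List ℕ) × ℕ => q.2.unpair.1) :=
    Primrec.fst.comp (Primrec.unpair.comp Primrec.snd)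
  have b : Primrec (fun q : (List ℕ × List ℕ) × ℕ => q.1.1) := Primrec.fst.comp Primrec.fst
  have s : Primrec (fun q : (List ℕ × List ℕ) × ℕ => q.1.2) := Primrec.snd.comp Primrec.fst
  have r1 : PrimrecRel (fun (e' : ℕ) (q : (List ℕ × List ℕ) × ℕ) =>
      e'.unpair.1 ≠ q.2.unpair.1) :=
    (Primrec.eq.comp (Primrec.fst.comp (Primrec.unpair.comp Primrec.fst))
      (j.comp Primrec.snd)).not
  have h1 := r1.forall_mem_list.comp s Primrec.id
  have h2 := outp_p.comp ((j.pair b).pair (e.pair (Primrec.const 0)))
  have r3 : PrimrecRel (fun (i : ℕ) (q : (List ℕ × List ℕ) × ℕ) =>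
      costOK i q.2.unpair.1 q.1.1 q.2) :=
    costOK_p.comp ((Primrec.fst.pair (j.comp Primrec.snd)).pair
      ((b.comp Primrec.snd).pair (e.comp Primrec.snd)))
  have h3 := r3.forall_mem_list.comp (Primrec.list_range.comp (Primrec.succ.comp j)) Primrec.id
  exact PrimrecPred.and h1 (PrimrecPred.and h2 h3)

attribute [local irreducible] good

lemma pickI_p : Primrec₂ pickI := by
  classical
  have h2 : Primrec₂ (fun (q : List ℕ × List ℕ) (e : ℕ) => decide (good q.1 q.2 e)) :=
    good_p.decide
  exact Primrec.list_findIdx (Primrec.list_range.comp (Primrec.succ.comp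
    (Primrec.list_length.comp Primrec.fst))) h2

attribute [local irreducible] pickI

lemma stepW_p : Primrec₂ stepW := by
  have h1 : PrimrecPred (fun q : List ℕ × List ℕ => pickI q.1 q.2 ≤ q.1.length) :=
    Primrec.nat_le.comp (pickI_p.comp Primrec.fst Primrec.snd)
      (Primrec.list_length.comp Primrec.fst)
  exact Primrec.ite h1 (Primrec.list_cons.comp (pickI_p.comp Primrec.fst Primrec.snd)
    Primrec.snd) Primrec.snd

attribute [local irreducible] stepW

lemma ws_p : Primrec ws := by
  have h1 : Primrec₂ (fun (β : List ℕ) (z : ℕ × List ℕ) => stepW (β.take z.1) z.2) :=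
    stepW_p.comp (Primrec.list_take.comp (Primrec.fst.comp Primrec.snd) Primrec.fst)
      (Primrec.snd.comp Primrec.snd)
  exact Primrec.nat_rec' Primrec.list_length (Primrec.const []) h1

end Pool.Agent.H651.AP
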