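import Pool.Agent.H651.AP.WOp

set_option autoImplicit false

/-! The total cost of the changes of `W` is finite, and `W` is not computable from the oracle. -/

namespace Pool.Agent.H651.AP

open Filter
open Pool.Agent.Helper743
open Pool.Agent.Helper743.AC (kk wR massR massN wN wN_cast massN_cast mass_le_iff
  wR_nonneg wR_mono massR_mono outp outp_pre pre_outp ev_code geo_le)

lemma tcN_cast (i : ℕ) (β : List ℕ) (e : ℕ) :
    (tcN i β e : ℝ) = 2 ^ β.length * tcR i β e := by
  unfold tcN tcR
  push_cast
  rw [Finset.mul_sum]
  refine Finset.sum_congr rfl (fun w _ => ?_)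
  by_cases h : e < w
  · rw [if_pos h, if_pos h]; exact wN_cast (le_refl _)
  · rw [if_neg h, if_neg h]; simp

lemma costOK_iff (i j : ℕ) (β : List ℕ) (e : ℕ) :
    costOK i j β e ↔ (massR i β ≤ 1 → tcR i β e ≤ (1 / 2) ^ j) := by
  unfold costOK
  rw [mass_le_iff (le_refl _)]
  refine imp_congr_right (fun _ => ?_)
  have h1 := tcN_cast i β e
  have h2 : (0 : ℝ) < 2 ^ β.length := by positivity
  have h3 : (0 : ℝ) < 2 ^ j := by positivity
  have h4 : ((1 : ℝ) / 2) ^ j * 2 ^ j = 1 := by rw [← mul_pow]; norm_num
  have key : (2 ^ j * tcN i β e ≤ 2 ^ β.length) ↔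
      ((2 : ℝ) ^ j * (2 ^ β.length * tcR i β e) ≤ 2 ^ β.length) := by
    rw [← h1]; exact_mod_cast Iff.rfl
  rw [key]
  constructor
  · intro h
    have h5 : (2 : ℝ) ^ j * tcR i β e ≤ 1 := by
      by_contra h6
      push Not at h6
      nlinarith
    calc tcR i β e = ((1 : ℝ) / 2) ^ j * 2 ^ j * tcR i β e := by rw [h4, one_mul]
      _ = (1 / 2) ^ j * (2 ^ j * tcR i β e) := by ring
      _ ≤ (1 / 2) ^ j * 1 := mul_le_mul_of_nonneg_left h5 (by positivity)
      _ = _ := by ring
  · intro h
    have h5 : (2 : ℝ) ^ j * tcR i β e ≤ 1 := by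
      calc (2 : ℝ) ^ j * tcR i β e ≤ 2 ^ j * (1 / 2) ^ j := mul_le_mul_of_nonneg_left h h3.le
        _ = 1 := by rw [mul_comm]; exact h4
    nlinarith

lemma tcR_le_mass (i : ℕ) (β : List ℕ) (e : ℕ) : tcR i β e ≤ massR i β := by
  unfold tcR massR
  refine Finset.sum_le_sum (fun w _ => ?_)
  split_ifs
  · exact le_refl _
  · exact wR_nonneg _ _ _

/-- the weights of the requirements -/
noncomputable def vv (i j : ℕ) : ℝ := if j < i then 1 else (1 / 2) ^ j

lemma vv_nonneg (i j : ℕ) : 0 ≤ vv i j := by
  unfold vv; split_ifs
  · norm_num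
  · positivity

lemma vv_sum (i : ℕ) (s : Finset ℕ) : ∑ j ∈ s, vv i j ≤ i + 2 := by
  have h1 : ∑ j ∈ s, vv i j ≤ ∑ j ∈ s, ((if j < i then (1 : ℝ) else 0) + (1 / 2) ^ j) := by
    refine Finset.sum_le_sum (fun j _ => ?_)
    unfold vv
    split_ifs
    · have : (0 : ℝ) ≤ (1 / 2) ^ j := by positivity
      linarith
    · linarith
  rw [Finset.sum_add_distrib] at h1
  have h2 : ∑ j ∈ s, (if j < i then (1 : ℝ) else 0) ≤ i := by
    rw [← Finset.sum_filter]
    rw [Finset.sum_const, nsmul_eq_mul, mul_one]
    have h3 : (s.filter (fun j => j < i)).card ≤ (Finset.range i).card := by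
      apply Finset.card_le_card
      intro j hj
      rw [Finset.mem_filter] at hj
      exact Finset.mem_range.2 hj.2
    rw [Finset.card_range] at h3
    exact_mod_cast h3
  have h3 := geo_le s
  linarith

/-- the potential -/
noncomputable def pot (i : ℕ) (S : List ℕ) : ℝ := (S.map (fun e => vv i e.unpair.1)).sum

lemma pot_le (i : ℕ) (β : List ℕ) : pot i (ws β) ≤ i + 2 := by
  classical
  have h1 : pot i (ws β) = (((ws β).map (fun e => e.unpair.1)).map (vv i)).sum := by
    unfold pot; rw [List.map_map]; rfl
  rw [h1, ← List.sum_toFinset (vv i) (ws_nodup β)]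
  exact vv_sum i _

theorem tot_le {A : List ℕ → List Bool}
    (hA : ∀ β a w, w ≤ (A β).length → (∀ e ∈ ws (β ++ [a]), e ∈ ws β ∨ w ≤ e) →
      (A (β ++ [a])).take w = (A β).take w) (G : ℕ → ℕ) (i n : ℕ) :
    totA A G i n ≤ i + 2 := by
  refine le_trans ?_ (pot_le i (pre G n))
  induction n with
  | zero => simp [totA, pot, pre, ws_nil]
  | succ n ih =>
    rw [totA_succ]
    have hp : pre G (n + 1) = pre G n ++ [G n] := pre_succ G n
    have hws : ws (pre G (n + 1)) = stepW (pre G n) (ws (pre G n)) := by rw [hp, ws_concat]
    rcases stepW_cases (pre G n) (ws (pre G n)) with h1 | h1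
    · have h2 : cA A i (pre G n) (pre G (n + 1)) ≤ 0 := by
        unfold cA
        split_ifs
        · apply Finset.sum_nonpos
          intro w _
          split_ifs with h3
          · exfalso
            apply h3.2
            rw [hp]
            refine hA _ _ _ h3.1 (fun e he => ?_)
            rw [ws_concat, h1.1] at he
            exact Or.inl he
          · exact le_refl _
        · exact le_refl _
      rw [hws, h1.1]
      linarith
    · set e0 := pickI (pre G n) (ws (pre G n)) with he0
      have h2 : cA A i (pre G n) (pre G (n + 1)) ≤ vv i e0.unpair.1 := by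
        unfold cA
        split_ifs with hm
        · have h3 : (∑ w ∈ Finset.range ((pre G n).length + 1),
              if w ≤ (A (pre G n)).length ∧ (A (pre G (n + 1))).take w ≠ (A (pre G n)).take w
              then wR i (pre G n) w else 0) ≤ tcR i (pre G n) e0 := by
            unfold tcR
            refine Finset.sum_le_sum (fun w _ => ?_)
            split_ifs with h4 h5 h5
            · exact le_refl _
            · exfalso
              apply h4.2
              rw [hp]
              refine hA _ _ _ h4.1 (fun e he => ?_)
              rw [ws_concat, h1.1, List.mem_cons] at he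
              rcases he with h6 | h6
              · right; rw [h6]; omega
              · exact Or.inl h6
            · exact wR_nonneg _ _ _
            · exact le_refl _
          refine le_trans h3 ?_
          unfold vv
          split_ifs with h4
          · exact le_trans (tcR_le_mass _ _ _) hm
          · have h5 := h1.2.2.2.2 i (List.mem_range.2 (by omega))
            exact (costOK_iff _ _ _ _).1 h5 hm
        · exact vv_nonneg _ _
      rw [hws, h1.1]
      unfold pot at ih ⊢
      rw [List.map_cons, List.sum_cons]
      linarith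

/-! ### noncomputability -/

/-- the characteristic function of `W` -/
noncomputable def chW (G : ℕ → ℕ) (e : ℕ) : ℕ :=
  open Classical in if ∃ n, e ∈ ws (pre G n) then 1 else 0

lemma tail_cost (G : ℕ → ℕ) (i j : ℕ) : ∃ e0, ∀ e, e0 ≤ e → ∀ n, costOK i j (pre G n) e := by
  have hshort : ∀ n e, n ≤ e → tcR i (pre G n) e ≤ 0 := by
    intro n e h
    unfold tcR
    apply Finset.sum_nonpos
    intro w hw
    rw [Finset.mem_range, pre_length] at hw
    rw [if_neg (by omega)]
  have hj : (0 : ℝ) < (1 / 2) ^ j := by positivity
  by_cases hb : ∀ n, massR i (pre G n) ≤ 1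
  · obtain ⟨M, hM1, hM2⟩ : ∃ M : ℝ, (∀ n, massR i (pre G n) ≤ M) ∧
        ∀ ε > 0, ∃ n, M - ε < massR i (pre G n) := by
      refine ⟨⨆ n, massR i (pre G n), fun n => ?_, fun ε hε => ?_⟩
      · exact le_ciSup (f := fun n => massR i (pre G n)) ⟨1, by rintro _ ⟨n, rfl⟩; exact hb n⟩ n
      · obtain ⟨n, hn⟩ := exists_lt_of_lt_ciSup (f := fun n => massR i (pre G n))
          (show (⨆ n, massR i (pre G n)) - ε < ⨆ n, massR i (pre G n) by linarith)
        exact ⟨n, hn⟩
    obtain ⟨n0, hn0⟩ := hM2 _ hj
    refine ⟨n0, fun e he n => (costOK_iff _ _ _ _).2 (fun _ => ?_)⟩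
    by_cases hn : n ≤ e
    · exact le_trans (hshort n e hn) hj.le
    · have h1 : tcR i (pre G n) e + massR i (pre G n0) ≤ massR i (pre G n) := by
        have h2 : massR i (pre G n0) ≤ ∑ w ∈ Finset.range (n + 1),
            if e < w then 0 else wR i (pre G n) w := by
          unfold massR
          rw [pre_length]
          calc ∑ w ∈ Finset.range (n0 + 1), wR i (pre G n0) w
              ≤ ∑ w ∈ Finset.range (n0 + 1), if e < w then 0 else wR i (pre G n) w := by
                refine Finset.sum_le_sum (fun w hw => ?_)
                rw [Finset.mem_range] at hw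
                rw [if_neg (by omega)]
                exact wR_mono (pre_prefix G (by omega)) w
            _ ≤ _ := by
                apply Finset.sum_le_sum_of_subset_of_nonneg
                · exact Finset.range_mono (by omega)
                · intro w _ _
                  split_ifs
                  · exact le_refl _
                  · exact wR_nonneg _ _ _
        have h3 : tcR i (pre G n) e + ∑ w ∈ Finset.range (n + 1),
            (if e < w then 0 else wR i (pre G n) w) = massR i (pre G n) := by
          unfold tcR massR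
          rw [pre_length, ← Finset.sum_add_distrib]
          refine Finset.sum_congr rfl (fun w _ => ?_)
          split_ifs <;> simp
        linarith
      have := hM1 n
      linarith
  · push Not at hb
    obtain ⟨n0, hn0⟩ := hb
    refine ⟨n0, fun e he n => (costOK_iff _ _ _ _).2 (fun h => ?_)⟩
    have h1 : n < n0 := by
      by_contra h2
      have := massR_mono (i := i) (pre_prefix G (show n0 ≤ n by omega))
      linarith
    exact le_trans (hshort n e (by omega)) hj.le

theorem chW_not_TR (G : ℕ → ℕ) : ¬ TR (chW G) G := by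
  classical
  intro hTR
  obtain ⟨ev, hev, _, hcor⟩ := use_principle G _ hTR
  obtain ⟨j, he⟩ := ev_code hev
  have hout : ∀ {n x y}, outp j (pre G n) x y → y = chW G x := by
    intro n x y h
    obtain ⟨k, hk⟩ := outp_pre he h
    exact Part.mem_some_iff.1 ((hcor x y).2 ⟨k, hk⟩)
  -- some `e` belonging to `j` enters
  have hex : ∃ e, e.unpair.1 = j ∧ ∃ n, e ∈ ws (pre G n) := by
    by_contra hno
    push Not at hno
    -- all costs are small
    have htail : ∃ e0, ∀ e, e0 ≤ e → ∀ i, i ≤ j → ∀ n, costOK i j (pre G n) e := by
      choose f hf using fun i => tail_cost G i j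
      refine ⟨(Finset.range (j + 1)).sup f, fun e he i hi n => hf i e ?_ n⟩
      exact le_trans (Finset.le_sup (f := f) (Finset.mem_range.2 (by omega))) he
    obtain ⟨e0, he0⟩ := htail
    set e := Nat.pair j e0 with hed
    have hej : e.unpair.1 = j := by rw [hed, Nat.unpair_pair]
    have hee : e0 ≤ e := Nat.right_le_pair j e0
    have hch : chW G e = 0 := by
      unfold chW
      rw [if_neg]
      rintro ⟨n, hn⟩
      exact hno e hej n hn
    obtain ⟨k, hk⟩ := (hcor e 0).1 (by rw [Part.mem_some_iff, hch])
    obtain ⟨n0, hn0⟩ := (eventually_atTop).1 (pre_outp he hk)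
    have hgood : ∀ n, n0 ≤ n → good (pre G n) (ws (pre G n)) e := by
      intro n hn
      refine ⟨fun e' he' h1 => hno e' (by rw [h1, hej]) n he', ?_, ?_⟩
      · rw [hej]; exact hn0 n hn
      · intro i hi
        rw [hej] at hi ⊢
        rw [List.mem_range] at hi
        exact he0 e hee i (by omega) n
    -- a new element below `e` enters at each stage
    set N := max n0 e with hN
    have hpick : ∀ n, N ≤ n → pickI (pre G n) (ws (pre G n)) ≤ e ∧
        pickI (pre G n) (ws (pre G n)) ∈ ws (pre G (n + 1)) ∧
        pickI (pre G n) (ws (pre G n)) ∉ ws (pre G n) := by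
      intro n hn
      have h1 : e ≤ (pre G n).length := by rw [pre_length]; omega
      have h2 := pickI_le h1 (hgood n (by omega))
      refine ⟨h2, ?_, ?_⟩
      · rw [pre_succ, ws_concat]
        rcases stepW_cases (pre G n) (ws (pre G n)) with h3 | h3
        · omega
        · rw [h3.1]; exact List.mem_cons_self
      · intro h3
        rcases stepW_cases (pre G n) (ws (pre G n)) with h4 | h4
        · omega
        · exact h4.2.2.1 _ h3 rfl
    have hinj : Function.Injective (fun n : ℕ =>
        (⟨pickI (pre G (N + n)) (ws (pre G (N + n))),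
          Nat.lt_succ_of_le (hpick (N + n) (by omega)).1⟩ : Fin (e + 1))) := by
      have hlt : ∀ a b, a < b → pickI (pre G (N + a)) (ws (pre G (N + a))) ≠
          pickI (pre G (N + b)) (ws (pre G (N + b))) := by
        intro a b hab heq
        apply (hpick (N + b) (by omega)).2.2
        rw [← heq]
        exact ws_mono (pre_prefix G (by omega)) (hpick (N + a) (by omega)).2.1
      intro a b hab
      simp only [Fin.mk.injEq] at hab
      rcases lt_trichotomy a b with h | h | h
      · exact absurd hab (hlt a b h)
      · exact h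
      · exact absurd hab.symm (hlt b a h)
    exact not_injective_infinite_finite _ hinj
  obtain ⟨e, hej, n, hn⟩ := hex
  -- the stage at which `e` enters
  have hstage : ∃ n, e ∉ ws (pre G n) ∧ e ∈ ws (pre G (n + 1)) := by
    by_contra hno
    push Not at hno
    have : ∀ n, e ∉ ws (pre G n) := by
      intro n
      induction n with
      | zero => simp [pre, ws_nil]
      | succ n ih => exact hno n ih
    exact this n hn
  obtain ⟨m, hm1, hm2⟩ := hstage
  rw [pre_succ, ws_concat] at hm2
  rcases stepW_cases (pre G m) (ws (pre G m)) with h3 | h3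
  · rw [h3.1] at hm2; exact hm1 hm2
  · rw [h3.1, List.mem_cons] at hm2
    rcases hm2 with h4 | h4
    · have h5 := h3.2.2.2.1
      rw [← h4, hej] at h5
      have h6 := hout h5
      have h7 : chW G e = 1 := by
        unfold chW
        rw [if_pos ⟨n, hn⟩]
      omega
    · exact hm1 h4

end Pool.Agent.H651.AP
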